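import Pool.Agent.Hhelper40.RMasa.Defs

/-!
# Basic facts on II_1 factors in standard form
-/

open scoped InnerProductSpace
open Topology Filter

namespace Pool.Agent.Hhelper40.RMasa

universe u

variable {H : Type u} [NormedAddCommGroup H] [InnerProductSpace ℂ H] [CompleteSpace H]
variable {M : VonNeumannAlgebra H} {Ω : H}

theorem smul_mem_vn (A : VonNeumannAlgebra H) (c : ℂ) {x : H →L[ℂ] H} (hx : x ∈ A) : c • x ∈ A :=
  A.toStarSubalgebra.smul_mem hx c

theorem star_mem_vn (A : VonNeumannAlgebra H) {x : H →L[ℂ] H} (hx : x ∈ A) : star x ∈ A :=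
  A.star_mem' hx

theorem sum_mem_vn (A : VonNeumannAlgebra H) {ι : Type*} (s : Finset ι) (f : ι → H →L[ℂ] H)
    (h : ∀ i ∈ s, f i ∈ A) : ∑ i ∈ s, f i ∈ A :=
  sum_mem h

theorem inner_star_left (x : H →L[ℂ] H) (ξ η : H) : ⟪(star x) ξ, η⟫_ℂ = ⟪ξ, x η⟫_ℂ := by
  rw [ContinuousLinearMap.star_eq_adjoint, ContinuousLinearMap.adjoint_inner_left]

theorem inner_star_right (x : H →L[ℂ] H) (ξ η : H) : ⟪ξ, (star x) η⟫_ℂ = ⟪x ξ, η⟫_ℂ := by
  rw [ContinuousLinearMap.star_eq_adjoint, ContinuousLinearMap.adjoint_inner_right]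

/-- `x` lies in `A` iff it commutes with the commutant. -/
theorem mem_vn_iff (A : VonNeumannAlgebra H) (x : H →L[ℂ] H) :
    x ∈ A ↔ ∀ y ∈ A.commutant, y * x = x * y := by
  conv_lhs => rw [← A.commutant_commutant]
  rw [VonNeumannAlgebra.mem_commutant_iff]

/-- The centralizer of a star-closed set, as a von Neumann algebra. -/
noncomputable def ofStar (S : Set (H →L[ℂ] H)) (hS : ∀ x ∈ S, star x ∈ S) :
    VonNeumannAlgebra H where
  toStarSubalgebra := StarSubalgebra.centralizer ℂ S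
  centralizer_centralizer' := by
    have h : (StarSubalgebra.centralizer ℂ S).carrier = Set.centralizer S := by
      have h2 : ((StarSubalgebra.centralizer ℂ S : StarSubalgebra ℂ (H →L[ℂ] H)) :
          Set (H →L[ℂ] H)) = Set.centralizer S := by
        rw [StarSubalgebra.coe_centralizer]
        congr 1
        refine Set.union_eq_left.mpr ?_
        intro x hx
        have := hS _ (Set.mem_star.1 hx)
        simpa using this
      exact h2
    rw [h, Set.centralizer_centralizer_centralizer]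

theorem coe_ofStar (S : Set (H →L[ℂ] H)) (hS : ∀ x ∈ S, star x ∈ S) :
    ((ofStar S hS : VonNeumannAlgebra H) : Set (H →L[ℂ] H)) = Set.centralizer S := by
  have h2 : ((StarSubalgebra.centralizer ℂ S : StarSubalgebra ℂ (H →L[ℂ] H)) :
      Set (H →L[ℂ] H)) = Set.centralizer S := by
    rw [StarSubalgebra.coe_centralizer]
    congr 1
    refine Set.union_eq_left.mpr ?_
    intro x hx
    have := hS _ (Set.mem_star.1 hx)
    simpa using this
  exact h2

theorem mem_ofStar (S : Set (H →L[ℂ] H)) (hS : ∀ x ∈ S, star x ∈ S) (x : H →L[ℂ] H) :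
    x ∈ ofStar S hS ↔ ∀ y ∈ S, y * x = x * y := by
  rw [← SetLike.mem_coe, coe_ofStar]
  rfl

/-- The relative commutant `M ∩ S'` as a von Neumann algebra. -/
theorem exists_relComm (M : VonNeumannAlgebra H) (S : Set (H →L[ℂ] H))
    (hS : ∀ x ∈ S, star x ∈ S) :
    ∃ A : VonNeumannAlgebra H, ∀ x, x ∈ A ↔ x ∈ M ∧ ∀ y ∈ S, y * x = x * y := by
  refine ⟨ofStar (M.commutant ∪ S) ?_, fun x => ?_⟩
  · rintro x (hx | hx)
    · exact Or.inl (star_mem_vn M.commutant hx)
    · exact Or.inr (hS x hx)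
  · rw [mem_ofStar, mem_vn_iff M]
    constructor
    · intro h
      exact ⟨fun y hy => h y (Or.inl hy), fun y hy => h y (Or.inr hy)⟩
    · rintro ⟨h1, h2⟩ y (hy | hy)
      · exact h1 y hy
      · exact h2 y hy

/-! ### Masas -/

/-- A masa is its own relative commutant. -/
theorem mem_of_commute {A : VonNeumannAlgebra H} (hA : IsMasa M A) {x : H →L[ℂ] H} (hx : x ∈ M)
    (hc : ∀ a ∈ A, x * a = a * x) : x ∈ A := by
  -- self-adjoint case
  have key : ∀ y : H →L[ℂ] H, y ∈ M → star y = y → (∀ a ∈ A, y * a = a * y) → y ∈ A := by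
    intro y hy hsy hcy
    set S : Set (H →L[ℂ] H) := (A : Set (H →L[ℂ] H)) ∪ {y} with hS
    have hSstar : ∀ x ∈ S, star x ∈ S := by
      rintro x (hx | hx)
      · exact Or.inl (star_mem_vn A hx)
      · rw [Set.mem_singleton_iff] at hx
        subst hx
        exact Or.inr (by rw [hsy]; rfl)
    have hScomm : ∀ x ∈ S, ∀ z ∈ S, x * z = z * x := by
      rintro x (hx | hx) z (hz | hz)
      · exact hA.2.1 x hx z hz
      · rw [Set.mem_singleton_iff] at hz
        subst hz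
        exact (hcy x hx).symm
      · rw [Set.mem_singleton_iff] at hx
        subst hx
        exact hcy z hz
      · rw [Set.mem_singleton_iff] at hx hz
        rw [hx, hz]
    have hC : ∀ x ∈ Set.centralizer S, star x ∈ Set.centralizer S := by
      intro x hx z hz
      have h1 := hx (star z) (hSstar z hz)
      have h2 := congrArg star h1
      simp only [star_mul, star_star] at h2
      exact h2.symm
    set B := ofStar (Set.centralizer S) hC with hB
    have hBcoe : (B : Set (H →L[ℂ] H)) = Set.centralizer (Set.centralizer S) := coe_ofStar _ _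
    have hSB : S ⊆ B := by
      rw [hBcoe]; exact Set.subset_centralizer_centralizer
    have hBM : B ≤ M := by
      intro z hz
      have hz' : z ∈ Set.centralizer (Set.centralizer S) := by rw [← hBcoe]; exact hz
      have hSM : S ⊆ M := by
        rintro x (hx | hx)
        · exact hA.1 hx
        · rw [Set.mem_singleton_iff] at hx; rw [hx]; exact hy
      have h3 : Set.centralizer (Set.centralizer S) ⊆ Set.centralizer (Set.centralizer (M : Set _)) :=
        Set.centralizer_subset (Set.centralizer_subset hSM)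
      have := h3 hz'
      rwa [VonNeumannAlgebra.centralizer_centralizer] at this
    have hBab : ∀ a ∈ B, ∀ b ∈ B, a * b = b * a := by
      intro a ha b hb
      have ha' : a ∈ Set.centralizer (Set.centralizer S) := by rw [← hBcoe]; exact ha
      have hb' : b ∈ Set.centralizer (Set.centralizer S) := by rw [← hBcoe]; exact hb
      have hsub : S ⊆ Set.centralizer S := fun z hz w hw => hScomm w hw z hz
      have hsub2 : Set.centralizer (Set.centralizer S) ⊆ Set.centralizer S :=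
        Set.centralizer_subset hsub
      exact (ha' b (hsub2 hb')).symm
    have hAB : A ≤ B := fun z hz => hSB (Or.inl hz)
    have hEq := hA.2.2 B hBM hBab hAB
    have : y ∈ B := hSB (Or.inr rfl)
    rw [hEq] at this
    exact this
  -- real and imaginary parts
  have hcs : ∀ a ∈ A, star x * a = a * star x := by
    intro a ha
    have h1 := hc (star a) (star_mem_vn A ha)
    have h2 := congrArg star h1
    simp only [star_mul, star_star] at h2
    exact h2.symm
  have hsx : star x ∈ M := star_mem_vn M hx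
  have h1 : x + star x ∈ A := key _ (add_mem hx hsx) (by simp [add_comm]) (by
    intro a ha; rw [add_mul, mul_add, hc a ha, hcs a ha])
  have h2 : Complex.I • (x - star x) ∈ A := key _ (smul_mem_vn M _ (sub_mem hx hsx)) (by
    rw [star_smul, star_sub, star_star, Complex.star_def, Complex.conj_I, neg_smul, ← smul_neg,
      neg_sub]) (by
    intro a ha
    rw [smul_mul_assoc, mul_smul_comm, sub_mul, mul_sub, hc a ha, hcs a ha])
  have h3 : x = (1 / 2 : ℂ) • (x + star x) + (-(Complex.I) / 2) • (Complex.I • (x - star x)) := by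
    rw [smul_smul]
    have : -(Complex.I) / 2 * Complex.I = (1 / 2 : ℂ) := by
      have := Complex.I_mul_I
      linear_combination (-1 / 2 : ℂ) * this
    rw [this, smul_add, smul_sub]
    have e : (1 / 2 : ℂ) • x + (1 / 2 : ℂ) • star x + ((1 / 2 : ℂ) • x - (1 / 2 : ℂ) • star x)
        = ((1 / 2 : ℂ) + (1 / 2 : ℂ)) • x := by
      rw [add_smul]; abel
    rw [e]; norm_num
  rw [h3]
  exact add_mem (smul_mem_vn A _ h1) (smul_mem_vn A _ h2)

/-- A criterion for being a masa. -/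
theorem isMasa_of {A : VonNeumannAlgebra H} (hAM : A ≤ M)
    (hab : ∀ a ∈ A, ∀ b ∈ A, a * b = b * a)
    (h : ∀ x ∈ M, (∀ a ∈ A, x * a = a * x) → x ∈ A) : IsMasa M A := by
  refine ⟨hAM, hab, fun B hBM hBab hAB => le_antisymm ?_ hAB⟩
  intro x hx
  exact h x (hBM hx) (fun a ha => hBab x hx a (hAB ha))

/-! ### The trace vector -/

namespace IsII1Factor

variable (hM : IsII1Factor M Ω)
include hM

/-- `‖x^* Ω‖ = ‖x Ω‖`. -/
theorem norm_star {x : H →L[ℂ] H} (hx : x ∈ M) : ‖(star x) Ω‖ = ‖x Ω‖ := by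
  have h1 : ⟪(star x) Ω, (star x) Ω⟫_ℂ = ⟪x Ω, x Ω⟫_ℂ := by
    rw [inner_star_left]
    have h := hM.trace x hx (star x) (star_mem_vn M hx)
    rw [h, inner_star_right]
  have h2 : ‖(star x) Ω‖ ^ 2 = ‖x Ω‖ ^ 2 := by
    have e1 := inner_self_eq_norm_sq_to_K (𝕜 := ℂ) ((star x) Ω)
    have e2 := inner_self_eq_norm_sq_to_K (𝕜 := ℂ) (x Ω)
    rw [e1, e2] at h1
    exact_mod_cast h1
  exact (pow_left_inj₀ (norm_nonneg _) (norm_nonneg _) two_ne_zero).1 h2

/-- `‖x y Ω‖ ≤ ‖y‖ ‖x Ω‖`. -/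
theorem norm_mul_le {x y : H →L[ℂ] H} (hx : x ∈ M) (hy : y ∈ M) :
    ‖(x * y) Ω‖ ≤ ‖y‖ * ‖x Ω‖ := by
  rw [← hM.norm_star (mul_mem hx hy), star_mul]
  calc ‖(star y * star x) Ω‖ = ‖(star y) ((star x) Ω)‖ := rfl
    _ ≤ ‖star y‖ * ‖(star x) Ω‖ := (star y).le_opNorm _
    _ = ‖y‖ * ‖x Ω‖ := by rw [_root_.norm_star, hM.norm_star hx]

theorem norm_apply_le (x : H →L[ℂ] H) : ‖x Ω‖ ≤ ‖x‖ := by
  have := x.le_opNorm Ω
  rwa [hM.norm_one, mul_one] at this

theorem eq_of_apply {x y : H →L[ℂ] H} (hx : x ∈ M) (hy : y ∈ M) (h : x Ω = y Ω) : x = y := by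
  have := hM.separating (x - y) (sub_mem hx hy) (by
    rw [sub_apply, h, sub_self])
  exact sub_eq_zero.1 this

/-- Right multiplication by `y ∈ M`. -/
theorem exists_right {y : H →L[ℂ] H} (hy : y ∈ M) :
    ∃ R ∈ M.commutant, ‖R‖ ≤ ‖y‖ ∧ ∀ x ∈ M, R (x Ω) = (x * y) Ω := by
  let e : M.toStarSubalgebra →ₗ[ℂ] H :=
    { toFun := fun x => (x : H →L[ℂ] H) Ω
      map_add' := fun a b => rfl
      map_smul' := fun c a => rfl }
  let f : M.toStarSubalgebra →ₗ[ℂ] H :=
    { toFun := fun x => ((x : H →L[ℂ] H) * y) Ω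
      map_add' := fun a b => rfl
      map_smul' := fun c a => rfl }
  have hd : DenseRange e := by
    have := hM.cyclic
    refine this.mono ?_
    rintro ξ ⟨x, hx, rfl⟩
    exact ⟨⟨x, hx⟩, rfl⟩
  have hn : ∀ x, ‖f x‖ ≤ ‖y‖ * ‖e x‖ := fun x => hM.norm_mul_le x.2 hy
  have hR : ∀ x ∈ M, (f.extendOfNorm e) (x Ω) = (x * y) Ω := by
    intro x hx
    exact LinearMap.extendOfNorm_eq hd ⟨_, hn⟩ ⟨x, hx⟩
  refine ⟨f.extendOfNorm e, ?_, LinearMap.opNorm_extendOfNorm_le hd (norm_nonneg _) hn, hR⟩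
  rw [VonNeumannAlgebra.mem_commutant_iff]
  intro g hg
  refine ContinuousLinearMap.ext fun ξ => ?_
  refine hd.induction_on (p := fun ξ => (g * f.extendOfNorm e) ξ = (f.extendOfNorm e * g) ξ) ξ
    (isClosed_eq (ContinuousLinearMap.continuous _) (ContinuousLinearMap.continuous _)) ?_
  rintro ⟨x, hx⟩
  change g (f.extendOfNorm e (x Ω)) = f.extendOfNorm e (g (x Ω))
  rw [hR x hx]
  have := hR (g * x) (mul_mem hg hx)
  change f.extendOfNorm e (g (x Ω)) = _ at this
  rw [this]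
  rfl

/-- `Ω` is cyclic for the commutant. -/
theorem dense_commutant : Dense {ξ : H | ∃ R ∈ M.commutant, R Ω = ξ} := by
  refine hM.cyclic.mono ?_
  rintro ξ ⟨y, hy, rfl⟩
  obtain ⟨R, hR, -, h⟩ := hM.exists_right hy
  refine ⟨R, hR, ?_⟩
  have := h 1 (one_mem M)
  simpa using this

/-- On bounded subsets of `M`, 2-norm convergence implies strong convergence. -/
theorem tendsto_apply {ι : Type*} {l : Filter ι} {x : ι → (H →L[ℂ] H)} {y : H →L[ℂ] H} {K : ℝ}
    (hx : ∀ i, x i ∈ M) (hy : y ∈ M) (hK : ∀ i, ‖x i‖ ≤ K)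
    (h : Tendsto (fun i => (x i) Ω) l (𝓝 (y Ω))) (ξ : H) :
    Tendsto (fun i => (x i) ξ) l (𝓝 (y ξ)) := by
  rw [Metric.tendsto_nhds]
  intro ε hε
  have hKn : 0 ≤ |K| + ‖y‖ := by positivity
  set C : ℝ := |K| + ‖y‖ + 1 with hC
  have hCpos : 0 < C := by positivity
  obtain ⟨η, hη, ⟨R, hR, rfl⟩⟩ := Metric.dense_iff.1 hM.dense_commutant ξ (ε / (2 * C))
    (by positivity)
  have h2 : Tendsto (fun i => R ((x i) Ω)) l (𝓝 (R (y Ω))) :=
    (R.continuous.tendsto _).comp h
  have h3 := Metric.tendsto_nhds.1 h2 (ε / 2) (by positivity)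
  filter_upwards [h3] with i hi
  have hcomm : ∀ z ∈ M, R (z Ω) = z (R Ω) := by
    intro z hz
    have := (VonNeumannAlgebra.mem_commutant_iff.1 hR) z hz
    exact (congrArg (fun T : H →L[ℂ] H => T Ω) this).symm
  rw [hcomm _ (hx i), hcomm _ hy] at hi
  rw [dist_eq_norm] at hi ⊢
  have hdist : ‖ξ - R Ω‖ < ε / (2 * C) := by
    rw [← dist_eq_norm, dist_comm]; exact hη
  have e : (x i) ξ - y ξ = ((x i) (R Ω) - y (R Ω)) + ((x i) (ξ - R Ω) - y (ξ - R Ω)) := by
    rw [map_sub, map_sub]; abel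
  rw [e]
  have hxi : ‖(x i) (ξ - R Ω)‖ ≤ |K| * ‖ξ - R Ω‖ :=
    ((x i).le_opNorm _).trans (mul_le_mul_of_nonneg_right ((hK i).trans (le_abs_self K))
      (norm_nonneg _))
  have hyi : ‖y (ξ - R Ω)‖ ≤ ‖y‖ * ‖ξ - R Ω‖ := y.le_opNorm _
  have hb : ‖(x i) (ξ - R Ω) - y (ξ - R Ω)‖ ≤ (|K| + ‖y‖) * ‖ξ - R Ω‖ := by
    calc _ ≤ ‖(x i) (ξ - R Ω)‖ + ‖y (ξ - R Ω)‖ := norm_sub_le _ _
      _ ≤ _ := by rw [add_mul]; exact add_le_add hxi hyi
  have hb2 : (|K| + ‖y‖) * ‖ξ - R Ω‖ ≤ C * (ε / (2 * C)) := by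
    apply mul_le_mul _ hdist.le (norm_nonneg _) hCpos.le
    rw [hC]; linarith
  have hb3 : C * (ε / (2 * C)) = ε / 2 := by field_simp
  calc _ ≤ ‖(x i) (R Ω) - y (R Ω)‖ + ‖(x i) (ξ - R Ω) - y (ξ - R Ω)‖ := norm_add_le _ _
    _ < ε := by linarith

end IsII1Factor

/-- Von Neumann algebras are closed under pointwise limits of nets. -/
theorem mem_of_tendsto (A : VonNeumannAlgebra H) {ι : Type*} {l : Filter ι} [l.NeBot]
    {x : ι → (H →L[ℂ] H)} {y : H →L[ℂ] H} (hx : ∀ i, x i ∈ A)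
    (h : ∀ ξ, Tendsto (fun i => (x i) ξ) l (𝓝 (y ξ))) : y ∈ A := by
  rw [mem_vn_iff]
  intro z hz
  refine ContinuousLinearMap.ext fun ξ => ?_
  have h1 : Tendsto (fun i => z ((x i) ξ)) l (𝓝 (z (y ξ))) := (z.continuous.tendsto _).comp (h ξ)
  have h2 : Tendsto (fun i => (x i) (z ξ)) l (𝓝 (y (z ξ))) := h (z ξ)
  have h3 : ∀ i, z ((x i) ξ) = (x i) (z ξ) := by
    intro i
    have := (mem_vn_iff A (x i)).1 (hx i) z hz
    exact congrArg (fun T : H →L[ℂ] H => T ξ) this
  simp_rw [h3] at h1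
  exact tendsto_nhds_unique h1 h2

end Pool.Agent.Hhelper40.RMasa
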