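import Pool.Agent.Hhelper40.RMasa.Basic

/-!
# 2-norm continuity of the continuous functional calculus
-/

open scoped InnerProductSpace
open Topology Filter

namespace Pool.Agent.Hhelper40.RMasa

universe u

variable {H : Type u} [NormedAddCommGroup H] [InnerProductSpace ℂ H] [CompleteSpace H]
variable {M : VonNeumannAlgebra H} {Ω : H}

/-- Von Neumann algebras are closed under the functional calculus. -/
theorem cfc_mem_vn (A : VonNeumannAlgebra H) {a : H →L[ℂ] H} (ha : a ∈ A) (f : ℂ → ℂ) :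
    cfc f a ∈ A := by
  rw [mem_vn_iff]
  intro y hy
  have h1 : Commute a y := ((mem_vn_iff A a).1 ha y hy).symm
  have h2 : Commute (star a) y := ((mem_vn_iff A (star a)).1 (star_mem_vn A ha) y hy).symm
  exact (Commute.cfc h1 h2 f).symm

/-- The closed ball. -/
abbrev CfBall (R : ℝ) : Set ℂ := Metric.closedBall (0 : ℂ) R

/-- Extension by zero of a function on the ball. -/
noncomputable def cfExt (R : ℝ) (g : C(CfBall R, ℂ)) : ℂ → ℂ := by
  classical
  exact fun x => if h : x ∈ CfBall R then g ⟨x, h⟩ else 0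

theorem cfExt_apply {R : ℝ} (g : C(CfBall R, ℂ)) {x : ℂ} (h : x ∈ CfBall R) :
    cfExt R g x = g ⟨x, h⟩ := by
  simp [cfExt, h]

theorem cfExt_cont {R : ℝ} (g : C(CfBall R, ℂ)) : ContinuousOn (cfExt R g) (CfBall R) := by
  rw [continuousOn_iff_continuous_domRestrict]
  have : (CfBall R).domRestrict (cfExt R g) = g := by
    funext x
    exact cfExt_apply g x.2
  rw [this]
  exact g.continuous

theorem cfSpec_sub {R : ℝ} {a : H →L[ℂ] H} (ha : ‖a‖ ≤ R) : spectrum ℂ a ⊆ CfBall R := by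
  intro x hx
  rcases subsingleton_or_nontrivial H with hs | hs
  · exact absurd hx (by
      rw [spectrum.of_subsingleton]
      simp)
  have h1 := spectrum.norm_le_norm_of_mem hx
  exact mem_closedBall_zero_iff.2 (h1.trans ha)

theorem cfExt_spec {R : ℝ} (g : C(CfBall R, ℂ)) {a : H →L[ℂ] H} (ha : ‖a‖ ≤ R) :
    ContinuousOn (cfExt R g) (spectrum ℂ a) := (cfExt_cont g).mono (cfSpec_sub ha)

theorem norm_cfc_cfExt {R : ℝ} (g : C(CfBall R, ℂ)) {a : H →L[ℂ] H} (ha : ‖a‖ ≤ R) :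
    ‖cfc (cfExt R g) a‖ ≤ ‖g‖ := by
  refine norm_cfc_le (norm_nonneg _) fun x hx => ?_
  rw [cfExt_apply g (cfSpec_sub ha hx)]
  exact g.norm_coe_le_norm _

theorem cfc_two_norm_continuous (hM : IsII1Factor M Ω) (f : ℂ → ℂ) (hf : Continuous f)
    (R ε : ℝ) (hε : 0 < ε) :
    ∃ δ > 0, ∀ a ∈ M, ∀ b ∈ M, IsStarNormal a → IsStarNormal b → ‖a‖ ≤ R → ‖b‖ ≤ R →
      ‖(a - b) Ω‖ < δ → ‖(cfc f a - cfc f b) Ω‖ < ε := by
  have key : ∀ g : C(CfBall R, ℂ), ∀ ε > (0 : ℝ), ∃ δ > 0, ∀ a ∈ M, ∀ b ∈ M, IsStarNormal a →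
      IsStarNormal b → ‖a‖ ≤ R → ‖b‖ ≤ R →
      ‖(a - b) Ω‖ < δ → ‖(cfc (cfExt R g) a - cfc (cfExt R g) b) Ω‖ < ε := by
    intro g
    induction g using ContinuousMap.induction_on_of_compact with
    | const r =>
      intro ε hε
      refine ⟨1, one_pos, fun a ha b hb hna hnb haR hbR _ => ?_⟩
      have e : ∀ c : H →L[ℂ] H, IsStarNormal c → ‖c‖ ≤ R →
          cfc (cfExt R (.const _ r)) c = algebraMap ℂ _ r := by
        intro c hc hcR
        rw [← cfc_const r c hc]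
        exact cfc_congr fun x hx => cfExt_apply _ (cfSpec_sub hcR hx)
      rw [e a hna haR, e b hnb hbR, sub_self]
      simpa using hε
    | id =>
      intro ε hε
      refine ⟨ε, hε, fun a ha b hb hna hnb haR hbR h => ?_⟩
      have e : ∀ c : H →L[ℂ] H, IsStarNormal c → ‖c‖ ≤ R →
          cfc (cfExt R (.restrict _ (.id ℂ))) c = c := by
        intro c hc hcR
        conv_rhs => rw [← cfc_id' ℂ c hc]
        exact cfc_congr fun x hx => cfExt_apply _ (cfSpec_sub hcR hx)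
      rwa [e a hna haR, e b hnb hbR]
    | star_id =>
      intro ε hε
      refine ⟨ε, hε, fun a ha b hb hna hnb haR hbR h => ?_⟩
      have e : ∀ c : H →L[ℂ] H, IsStarNormal c → ‖c‖ ≤ R →
          cfc (cfExt R (star (.restrict _ (.id ℂ)))) c = star c := by
        intro c hc hcR
        rw [← cfc_star_id (R := ℂ) c hc]
        exact cfc_congr fun x hx => cfExt_apply _ (cfSpec_sub hcR hx)
      rw [e a hna haR, e b hnb hbR, ← star_sub, hM.norm_star (sub_mem ha hb)]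
      exact h
    | add g₁ g₂ h₁ h₂ =>
      intro ε hε
      obtain ⟨δ₁, hδ₁, H₁⟩ := h₁ (ε / 2) (half_pos hε)
      obtain ⟨δ₂, hδ₂, H₂⟩ := h₂ (ε / 2) (half_pos hε)
      refine ⟨min δ₁ δ₂, lt_min hδ₁ hδ₂, fun a ha b hb hna hnb haR hbR h => ?_⟩
      have e : ∀ c : H →L[ℂ] H, IsStarNormal c → ‖c‖ ≤ R →
          cfc (cfExt R (g₁ + g₂)) c = cfc (cfExt R g₁) c + cfc (cfExt R g₂) c := by
        intro c hc hcR
        rw [← cfc_add (a := c) (cfExt R g₁) (cfExt R g₂) (cfExt_spec g₁ hcR) (cfExt_spec g₂ hcR)]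
        refine cfc_congr fun x hx => ?_
        rw [cfExt_apply _ (cfSpec_sub hcR hx), cfExt_apply _ (cfSpec_sub hcR hx),
          cfExt_apply _ (cfSpec_sub hcR hx)]
        rfl
      have k₁ := H₁ a ha b hb hna hnb haR hbR (h.trans_le (min_le_left _ _))
      have k₂ := H₂ a ha b hb hna hnb haR hbR (h.trans_le (min_le_right _ _))
      rw [e a hna haR, e b hnb hbR]
      have e2 : (cfc (cfExt R g₁) a + cfc (cfExt R g₂) a - (cfc (cfExt R g₁) b + cfc (cfExt R g₂) b)) Ω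
          = (cfc (cfExt R g₁) a - cfc (cfExt R g₁) b) Ω
            + (cfc (cfExt R g₂) a - cfc (cfExt R g₂) b) Ω := by
        rw [← add_apply]
        congr 1
        abel
      rw [e2]
      calc _ ≤ _ := norm_add_le _ _
        _ < ε := by linarith
    | mul g₁ g₂ h₁ h₂ =>
      intro ε hε
      have hC : 0 < ‖g₁‖ + ‖g₂‖ + 1 := by positivity
      obtain ⟨δ₁, hδ₁, H₁⟩ := h₁ (ε / (‖g₁‖ + ‖g₂‖ + 1)) (by positivity)
      obtain ⟨δ₂, hδ₂, H₂⟩ := h₂ (ε / (‖g₁‖ + ‖g₂‖ + 1)) (by positivity)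
      refine ⟨min δ₁ δ₂, lt_min hδ₁ hδ₂, fun a ha b hb hna hnb haR hbR h => ?_⟩
      have e : ∀ c : H →L[ℂ] H, IsStarNormal c → ‖c‖ ≤ R →
          cfc (cfExt R (g₁ * g₂)) c = cfc (cfExt R g₁) c * cfc (cfExt R g₂) c := by
        intro c hc hcR
        rw [← cfc_mul (cfExt R g₁) (cfExt R g₂) c (cfExt_spec g₁ hcR) (cfExt_spec g₂ hcR)]
        refine cfc_congr fun x hx => ?_
        rw [cfExt_apply _ (cfSpec_sub hcR hx), cfExt_apply _ (cfSpec_sub hcR hx),
          cfExt_apply _ (cfSpec_sub hcR hx)]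
        rfl
      have k₁ := H₁ a ha b hb hna hnb haR hbR (h.trans_le (min_le_left _ _))
      have k₂ := H₂ a ha b hb hna hnb haR hbR (h.trans_le (min_le_right _ _))
      rw [e a hna haR, e b hnb hbR]
      set A₁ := cfc (cfExt R g₁) a with hA₁
      set A₂ := cfc (cfExt R g₂) a with hA₂
      set B₁ := cfc (cfExt R g₁) b with hB₁
      set B₂ := cfc (cfExt R g₂) b with hB₂
      have mA₁ : A₁ ∈ M := cfc_mem_vn M ha _
      have mA₂ : A₂ ∈ M := cfc_mem_vn M ha _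
      have mB₁ : B₁ ∈ M := cfc_mem_vn M hb _
      have mB₂ : B₂ ∈ M := cfc_mem_vn M hb _
      have e2 : (A₁ * A₂ - B₁ * B₂) Ω = ((A₁ - B₁) * A₂) Ω + B₁ ((A₂ - B₂) Ω) := by
        have e3 : B₁ ((A₂ - B₂) Ω) = (B₁ * (A₂ - B₂)) Ω := rfl
        rw [e3, ← add_apply]
        congr 1
        noncomm_ring
      rw [e2]
      have n₁ : ‖((A₁ - B₁) * A₂) Ω‖ ≤ ‖g₂‖ * ‖(A₁ - B₁) Ω‖ :=
        (hM.norm_mul_le (sub_mem mA₁ mB₁) mA₂).trans
          (mul_le_mul_of_nonneg_right (norm_cfc_cfExt g₂ haR) (norm_nonneg _))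
      have n₂ : ‖B₁ ((A₂ - B₂) Ω)‖ ≤ ‖g₁‖ * ‖(A₂ - B₂) Ω‖ :=
        (B₁.le_opNorm _).trans
          (mul_le_mul_of_nonneg_right (norm_cfc_cfExt g₁ hbR) (norm_nonneg _))
      set η := ε / (‖g₁‖ + ‖g₂‖ + 1) with hη
      have hηpos : 0 < η := by positivity
      have hηε : (‖g₁‖ + ‖g₂‖ + 1) * η = ε := by rw [hη]; field_simp
      have n₃ : ‖g₂‖ * ‖(A₁ - B₁) Ω‖ ≤ ‖g₂‖ * η :=
        mul_le_mul_of_nonneg_left k₁.le (norm_nonneg _)
      have n₄ : ‖g₁‖ * ‖(A₂ - B₂) Ω‖ ≤ ‖g₁‖ * η :=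
        mul_le_mul_of_nonneg_left k₂.le (norm_nonneg _)
      calc _ ≤ ‖((A₁ - B₁) * A₂) Ω‖ + ‖B₁ ((A₂ - B₂) Ω)‖ := norm_add_le _ _
        _ ≤ ‖g₂‖ * η + ‖g₁‖ * η := add_le_add (n₁.trans n₃) (n₂.trans n₄)
        _ < ε := by linarith
    | frequently g hg =>
      intro ε hε
      have hnear : ∀ᶠ g' in 𝓝 g, ‖g - g'‖ < ε / 3 := by
        have : Tendsto (fun g' : C(CfBall R, ℂ) => ‖g - g'‖) (𝓝 g) (𝓝 ‖g - g‖) :=
          (continuous_const.sub continuous_id).norm.tendsto g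
        rw [sub_self, norm_zero] at this
        exact this.eventually (gt_mem_nhds (by positivity))
      obtain ⟨g', hg', hng'⟩ := (hg.and_eventually hnear).exists
      obtain ⟨δ, hδ, H'⟩ := hg' (ε / 3) (by positivity)
      refine ⟨δ, hδ, fun a ha b hb hna hnb haR hbR h => ?_⟩
      have e : ∀ c : H →L[ℂ] H, IsStarNormal c → ‖c‖ ≤ R →
          ‖(cfc (cfExt R g) c - cfc (cfExt R g') c) Ω‖ < ε / 3 := by
        intro c hc hcR
        have e1 : cfc (cfExt R g) c - cfc (cfExt R g') c = cfc (cfExt R (g - g')) c := by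
          rw [← cfc_sub (a := c) (cfExt R g) (cfExt R g') (cfExt_spec g hcR) (cfExt_spec g' hcR)]
          refine cfc_congr fun x hx => ?_
          rw [cfExt_apply _ (cfSpec_sub hcR hx), cfExt_apply _ (cfSpec_sub hcR hx),
            cfExt_apply _ (cfSpec_sub hcR hx)]
          rfl
        rw [e1]
        exact ((hM.norm_apply_le _).trans (norm_cfc_cfExt _ hcR)).trans_lt hng'
      have k := H' a ha b hb hna hnb haR hbR h
      have ka := e a hna haR
      have kb := e b hnb hbR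
      have e2 : (cfc (cfExt R g) a - cfc (cfExt R g) b) Ω
          = (cfc (cfExt R g) a - cfc (cfExt R g') a) Ω + (cfc (cfExt R g') a - cfc (cfExt R g') b) Ω
            - (cfc (cfExt R g) b - cfc (cfExt R g') b) Ω := by
        rw [← add_apply, ← sub_apply]
        congr 1
        abel
      rw [e2]
      calc _ ≤ ‖(cfc (cfExt R g) a - cfc (cfExt R g') a) Ω
              + (cfc (cfExt R g') a - cfc (cfExt R g') b) Ω‖
            + ‖(cfc (cfExt R g) b - cfc (cfExt R g') b) Ω‖ := norm_sub_le _ _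
        _ ≤ ‖(cfc (cfExt R g) a - cfc (cfExt R g') a) Ω‖
              + ‖(cfc (cfExt R g') a - cfc (cfExt R g') b) Ω‖
            + ‖(cfc (cfExt R g) b - cfc (cfExt R g') b) Ω‖ := by
            gcongr
            exact norm_add_le _ _
        _ < ε := by linarith
  obtain ⟨δ, hδ, H'⟩ := key ⟨fun x => f x, by fun_prop⟩ ε hε
  refine ⟨δ, hδ, fun a ha b hb hna hnb haR hbR h => ?_⟩
  have k := H' a ha b hb hna hnb haR hbR h
  have e : ∀ c : H →L[ℂ] H, ‖c‖ ≤ R →
      cfc (cfExt R ⟨fun x => f x, by fun_prop⟩) c = cfc f c := by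
    intro c hcR
    exact cfc_congr fun x hx => cfExt_apply _ (cfSpec_sub hcR hx)
  rwa [e a haR, e b hbR] at k

end Pool.Agent.Hhelper40.RMasa
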