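import Pool.Agent.Hhelper40.RMasa.Step

/-!
# The universal chain
-/

open scoped InnerProductSpace
open Topology Filter Matrix

namespace Pool.Agent.Hhelper40.RMasa

set_option linter.unusedSectionVars false

universe u

variable {H : Type u} [NormedAddCommGroup H] [InnerProductSpace ℂ H] [CompleteSpace H]
variable {M : VonNeumannAlgebra H} {Ω : H}

/-- A chain of frames absorbing all finite diagonal extensions. -/
structure Chain (S : Sys M Ω) where
  n : ℕ → ℕ
  U : ℕ → (H →L[ℂ] H)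
  isU : ∀ l, S.IsU (n l) (U l)
  le : ∀ l, n l + l ≤ n (l + 1)
  fr_mem : ∀ l a, S.fr (n l) (U l) a ∈ S.Dg (n (l + 1)) (U (l + 1))
  absorb : ∀ l V, S.IsU (n l + l) V → (∀ a, S.fr (n l) (U l) a ∈ S.Dg (n l + l) V) →
    ∃ w s, S.IsU (n (l + 1)) w ∧ (∀ x ∈ S.L (n l), w * x = x * w) ∧ S.IsU (n (l + 1)) s ∧
      ‖(s - 1) Ω‖ ≤ 1 / ((l : ℝ) + 1) ∧
      ∀ b, s * (w * S.fr (n l + l) V b * star w) * star s ∈ S.Dg (n (l + 1)) (U (l + 1))

theorem nonempty_chain (S : Sys M Ω) : Nonempty (Chain S) := by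
  choose nn UU h1 h2 h3 h4 using fun (p : {p : ℕ × (H →L[ℂ] H) // S.IsU p.1 p.2}) (l : ℕ) =>
    S.step p.1.1 p.1.2 p.2 l (1 / ((l : ℝ) + 1)) (by positivity)
  let seq : ℕ → {p : ℕ × (H →L[ℂ] H) // S.IsU p.1 p.2} := fun l =>
    Nat.rec ⟨(0, 1), Sys.IsU.one S 0⟩ (fun l p => ⟨(nn p l, UU p l), h2 p l⟩) l
  exact ⟨{ n := fun l => (seq l).1.1
           U := fun l => (seq l).1.2
           isU := fun l => (seq l).2
           le := fun l => h1 (seq l) l
           fr_mem := fun l => h3 (seq l) l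
           absorb := fun l => h4 (seq l) l }⟩

namespace Chain

open Sys

variable {S : Sys M Ω} (C : Chain S)

/-- The `l`-th diagonal algebra of the chain. -/
noncomputable abbrev D (l : ℕ) : StarSubalgebra ℂ (H →L[ℂ] H) := S.Dg (C.n l) (C.U l)

theorem n_mono : Monotone C.n := monotone_nat_of_le_succ fun l => by
  have := C.le l; omega

theorem le_n (l : ℕ) : l ≤ C.n (l + 1) := by
  have := C.le l; omega

theorem D_mono : Monotone C.D := monotone_nat_of_le_succ fun l =>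
  Dg_le_of_fr (C.isU l) (C.fr_mem l)

theorem D_comm {l k : ℕ} {x y : H →L[ℂ] H} (hx : x ∈ C.D l) (hy : y ∈ C.D k) :
    x * y = y * x := by
  rcases le_total l k with h | h
  · exact Dg_comm (C.isU k) (C.D_mono h hx) hy
  · exact Dg_comm (C.isU l) hx (C.D_mono h hy)

/-- The chain absorbs every finite diagonal extension of every term, up to a small error. -/
theorem universal (k m : ℕ) (hkm : C.n k ≤ m) (V : H →L[ℂ] H) (hV : S.IsU m V)
    (hfr : ∀ a, S.fr (C.n k) (C.U k) a ∈ S.Dg m V) (ρ : ℝ) (hρ : 0 < ρ) :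
    ∃ l, k < l ∧ m ≤ C.n l ∧ ∃ w s, S.IsU (C.n l) w ∧ (∀ x ∈ S.L (C.n k), w * x = x * w) ∧
      S.IsU (C.n l) s ∧ ‖(s - 1) Ω‖ ≤ ρ ∧
      ∀ b, s * (w * S.fr m V b * star w) * star s ∈ C.D l := by
  obtain ⟨D, rfl⟩ := Nat.exists_eq_add_of_le hkm
  obtain ⟨N, hN⟩ := exists_nat_one_div_lt hρ
  -- the level
  obtain ⟨l, hl1, hl2, hl3, hl4⟩ : ∃ l, k ≤ l ∧ D ≤ l ∧ N ≤ l ∧ C.n k + D ≤ C.n l := by
    refine ⟨k + D + N + (C.n k + D) + 1, by omega, by omega, by omega, ?_⟩
    have h1 := C.le_n (k + D + N + (C.n k + D))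
    omega
  obtain ⟨w, hw, hw1, hw2, hw3⟩ := exists_shift S.comm (C.n k) (C.n l) D hl4
  have hwU : S.IsU (C.n l + l) w := by
    refine ⟨Loc_mono ?_ hw, hw1, hw2⟩
    rintro j (⟨_, h2⟩ | ⟨_, h2⟩)
    · show j < C.n l + l
      omega
    · show j < C.n l + l
      omega
  have hwc : ∀ x ∈ S.L (C.n k), w * x = x * w := by
    intro x hx
    refine commute_of_disjoint S.comm ?_ hw hx
    rw [Set.disjoint_left]
    rintro j (⟨h1, _⟩ | ⟨h1, _⟩) (h2 : j < C.n k)
    · omega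
    · omega
  have hfrk : ∀ a, S.fr (C.n k) (C.U k) a ∈ S.L (C.n k) := fun a =>
    fr_mem_L le_rfl (C.isU k) a
  have hdec : ∀ b, ∃ y : Fin (2 ^ (C.n k)) → (H →L[ℂ] H),
      (∀ a, y a ∈ Loc S.κ {j | C.n l ≤ j ∧ j < C.n l + D}) ∧
      w * S.fr (C.n k + D) V b * star w = ∑ a, S.fr (C.n k) (C.U k) a * y a := by
    intro b
    obtain ⟨y, hy, hyc⟩ := exists_decomp (C.isU k) (fr_mem_L (n := C.n k + D) le_rfl hV b)
      (fun a => Dg_comm hV (hfr a) (fr_mem_Dg hV b))
    refine ⟨fun a => w * y a * star w, fun a => hw3 _ (hy a), ?_⟩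
    rw [hyc, Finset.mul_sum, Finset.sum_mul]
    refine Finset.sum_congr rfl fun a _ => ?_
    rw [← mul_assoc w, hwc _ (hfrk a)]
    simp only [mul_assoc]
  have hcomm1 : ∀ a b, S.fr (C.n l) (C.U l) a * (w * S.fr (C.n k + D) V b * star w) =
      (w * S.fr (C.n k + D) V b * star w) * S.fr (C.n l) (C.U l) a := by
    intro a b
    obtain ⟨y, hy, hye⟩ := hdec b
    rw [hye, Finset.mul_sum, Finset.sum_mul]
    refine Finset.sum_congr rfl fun a' _ => ?_
    have h1 : S.fr (C.n l) (C.U l) a * S.fr (C.n k) (C.U k) a' =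
        S.fr (C.n k) (C.U k) a' * S.fr (C.n l) (C.U l) a :=
      C.D_comm (fr_mem_Dg (C.isU l) a) (fr_mem_Dg (C.isU k) a')
    have h2 : S.fr (C.n l) (C.U l) a * y a' = y a' * S.fr (C.n l) (C.U l) a := by
      refine commute_of_disjoint S.comm ?_ (fr_mem_L (n := C.n l) le_rfl (C.isU l) a) (hy a')
      rw [Set.disjoint_left]
      rintro j (h1 : j < C.n l) ⟨h2, _⟩
      omega
    rw [← mul_assoc, h1, mul_assoc, h2, mul_assoc]
  -- commuting family
  let F : Fin (2 ^ (C.n l)) ⊕ Fin (2 ^ (C.n k + D)) → (H →L[ℂ] H) := fun j =>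
    match j with
    | Sum.inl a => S.fr (C.n l) (C.U l) a
    | Sum.inr b => w * S.fr (C.n k + D) V b * star w
  obtain ⟨V', hV', hFV⟩ := exists_frame S (m := C.n l + l) F
    (by
      rintro (a | b)
      · exact S.L_mono (by omega) (fr_mem_L (n := C.n l) le_rfl (C.isU l) a)
      · exact mul_mem (mul_mem hwU.mem (S.L_mono (by omega)
          (fr_mem_L (n := C.n k + D) le_rfl hV b))) (star_mem hwU.mem))
    (by
      rintro (a | b)
      · exact S.star_fr _ _ a
      · change star (w * S.fr (C.n k + D) V b * star w) = _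
        rw [star_conj, star_fr])
    (by
      rintro (a | b) (a' | b')
      · exact Dg_comm (C.isU l) (fr_mem_Dg (C.isU l) a) (fr_mem_Dg (C.isU l) a')
      · exact hcomm1 a b'
      · exact (hcomm1 a' b).symm
      · exact conj_comm hw1 (Dg_comm hV (fr_mem_Dg hV b) (fr_mem_Dg hV b')))
  obtain ⟨w', s, hw'U, hw'c, hsU, hs, hsD⟩ := C.absorb l V' hV' (fun a => hFV (Sum.inl a))
  have hwU' : S.IsU (C.n (l + 1)) w := hwU.mono (C.le l)
  refine ⟨l + 1, by omega, ?_, w' * w, s, hw'U.mul hwU', ?_, hsU, ?_, ?_⟩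
  · have := C.le l; omega
  · intro x hx
    rw [mul_assoc, hwc x hx, ← mul_assoc, hw'c x (S.L_mono (C.n_mono hl1) hx), mul_assoc]
  · refine hs.trans (le_trans ?_ hN.le)
    apply one_div_le_one_div_of_le (by positivity)
    have : (N : ℝ) ≤ l := by exact_mod_cast hl3
    linarith
  · intro b
    have e1 : s * (w' * w * S.fr (C.n k + D) V b * star (w' * w)) * star s =
        s * (w' * (w * S.fr (C.n k + D) V b * star w) * star w') * star s := by
      rw [star_mul]
      simp only [mul_assoc]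
    rw [e1]
    obtain ⟨d, hd⟩ := Dg_eq_sum hV' (hFV (Sum.inr b))
    have hd' : w * S.fr (C.n k + D) V b * star w = ∑ a, d a • S.fr (C.n l + l) V' a := hd
    rw [hd', Finset.mul_sum, Finset.sum_mul, Finset.mul_sum, Finset.sum_mul]
    refine sum_mem fun a _ => ?_
    rw [mul_smul_comm, smul_mul_assoc, mul_smul_comm, smul_mul_assoc]
    exact StarSubalgebra.smul_mem _ (hsD a) (d a)

end Chain

end Pool.Agent.Hhelper40.RMasa
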