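import Mathlib

/-!
# Masas of II_1 factors: definitions

`M` is a von Neumann algebra on a Hilbert space `H`, with a trace vector `Ω`.
-/

open scoped InnerProductSpace
open Topology

namespace Pool.Agent.Hhelper40.RMasa

universe u

variable {H : Type u} [NormedAddCommGroup H] [InnerProductSpace ℂ H] [CompleteSpace H]

/-- `M` is a II_1 factor represented standardly on `H = L²(M)`, with `Ω` the unit vector of the
trace: `τ(x) = ⟪Ω, x Ω⟫` is a faithful normal tracial state, `Ω` is cyclic, the centre of `M`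
consists of the scalars, and `M` is infinite dimensional. -/
structure IsII1Factor (M : VonNeumannAlgebra H) (Ω : H) : Prop where
  norm_one : ‖Ω‖ = 1
  trace : ∀ x ∈ M, ∀ y ∈ M, ⟪Ω, x (y Ω)⟫_ℂ = ⟪Ω, y (x Ω)⟫_ℂ
  cyclic : Dense {ξ : H | ∃ x ∈ M, x Ω = ξ}
  separating : ∀ x ∈ M, x Ω = 0 → x = 0
  factor : ∀ z ∈ M, (∀ x ∈ M, z * x = x * z) → ∃ c : ℂ, z = c • (1 : H →L[ℂ] H)
  infinite : ¬ FiniteDimensional ℂ M.toStarSubalgebra

/-- `e` is a system of 2 by 2 matrix units with sum of the diagonal ones equal to `1`. -/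
structure IsMatrixUnits (e : Fin 2 → Fin 2 → (H →L[ℂ] H)) : Prop where
  mul_same : ∀ i j l, e i j * e j l = e i l
  mul_ne : ∀ i j k l, j ≠ k → e i j * e k l = 0
  star_eq : ∀ i j, star (e i j) = e j i
  sum_eq : e 0 0 + e 1 1 = 1

/-- `M` is hyperfinite, in the form of an infinite tensor power: as a von Neumann algebra it is
generated by a sequence of pairwise commuting systems of 2 by 2 matrix units. -/
def IsHyperfinite (M : VonNeumannAlgebra H) : Prop :=
  ∃ e : ℕ → Fin 2 → Fin 2 → (H →L[ℂ] H), (∀ k, IsMatrixUnits (e k)) ∧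
    (∀ k l, k ≠ l → ∀ i j i' j', e k i j * e l i' j' = e l i' j' * e k i j) ∧
    (M : Set (H →L[ℂ] H)) = Set.centralizer (Set.centralizer {x | ∃ k i j, x = e k i j})

/-- `A` is a maximal abelian von Neumann subalgebra of `M`. -/
def IsMasa (M A : VonNeumannAlgebra H) : Prop :=
  A ≤ M ∧ (∀ a ∈ A, ∀ b ∈ A, a * b = b * a) ∧
    ∀ B : VonNeumannAlgebra H, B ≤ M → (∀ a ∈ B, ∀ b ∈ B, a * b = b * a) → A ≤ B → B = A

/-- The set of masas of `M`. -/
def Masa (M : VonNeumannAlgebra H) : Type u := {A : VonNeumannAlgebra H // IsMasa M A}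

/-- Normal (that is, σ-weakly continuous) functionals on `B(H)`. -/
def IsNormalFunctional (φ : (H →L[ℂ] H) →L[ℂ] ℂ) : Prop :=
  ∃ ξ η : ℕ → H, Summable (fun n => ‖ξ n‖ ^ 2) ∧ Summable (fun n => ‖η n‖ ^ 2) ∧
    ∀ x, φ x = ∑' n, ⟪ξ n, x (η n)⟫_ℂ

/-- The norm of the restriction of `φ` to `N`. -/
noncomputable def restrNorm (φ : (H →L[ℂ] H) →L[ℂ] ℂ) (N : VonNeumannAlgebra H) : ℝ :=
  sSup {r : ℝ | ∃ x ∈ N, ‖x‖ ≤ 1 ∧ r = ‖φ x‖}

/-- The Effros-Marechal topology on the von Neumann subalgebras of `B(H)`: the weakest topology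
for which `N ↦ ‖φ|_N‖` is continuous for every normal functional `φ`. -/
noncomputable instance effrosMarechal : TopologicalSpace (VonNeumannAlgebra H) :=
  ⨅ φ : {φ : (H →L[ℂ] H) →L[ℂ] ℂ // IsNormalFunctional φ},
    TopologicalSpace.induced (restrNorm φ.1) inferInstance

/-- `Masa M` carries the relative Effros-Marechal topology. -/
noncomputable instance masaTopology (M : VonNeumannAlgebra H) : TopologicalSpace (Masa M) :=
  TopologicalSpace.induced Subtype.val effrosMarechal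

/-- `α` is a *-automorphism of `M`: a bijection of `M` onto itself which preserves sums, products,
scalar multiples and adjoints. -/
structure IsAut (M : VonNeumannAlgebra H)
    (α : {x : H →L[ℂ] H // x ∈ M} ≃ {x : H →L[ℂ] H // x ∈ M}) : Prop where
  map_add : ∀ x y z, z.1 = x.1 + y.1 → (α z).1 = (α x).1 + (α y).1
  map_mul : ∀ x y z, z.1 = x.1 * y.1 → (α z).1 = (α x).1 * (α y).1
  map_smul : ∀ (c : ℂ) (x z), z.1 = c • x.1 → (α z).1 = c • (α x).1
  map_star : ∀ x z, z.1 = star x.1 → (α z).1 = star (α x).1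

/-- The automorphisms of `M`. -/
def Aut (M : VonNeumannAlgebra H) : Type u :=
  {α : {x : H →L[ℂ] H // x ∈ M} ≃ {x : H →L[ℂ] H // x ∈ M} // IsAut M α}

/-- The identity automorphism. -/
def idAut (M : VonNeumannAlgebra H) : Aut M :=
  ⟨Equiv.refl {x : H →L[ℂ] H // x ∈ M}, ⟨fun _ _ _ h => h, fun _ _ _ h => h, fun _ _ _ h => h,
    fun _ _ h => h⟩⟩

/-- The u-topology on `Aut M`: pointwise convergence in the 2-norm `‖x‖₂ = ‖x Ω‖`. -/
@[reducible] noncomputable def uTopology (M : VonNeumannAlgebra H) (Ω : H) : TopologicalSpace (Aut M) :=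
  ⨅ x : {x : H →L[ℂ] H // x ∈ M},
    TopologicalSpace.induced (fun α : Aut M => (α.1 x).1 Ω) inferInstance

/-- `B = α(A)`. -/
def Moves {M : VonNeumannAlgebra H} (α : Aut M) (A B : Masa M) : Prop :=
  ∀ y : H →L[ℂ] H, y ∈ B.1 ↔ ∃ x : {x : H →L[ℂ] H // x ∈ M}, x.1 ∈ A.1 ∧ y = (α.1 x).1

/-- The orbit of `A` under `Aut M`. -/
def orbit {M : VonNeumannAlgebra H} (A : Masa M) : Set (Masa M) :=
  {B | ∃ α : Aut M, Moves α A B}

/-- The local orbit `O(A, U, V)`. -/
def localOrbit {M : VonNeumannAlgebra H} (A : Masa M) (U : Set (Masa M)) (V : Set (Aut M)) :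
    Set (Masa M) :=
  {B | ∃ (n : ℕ) (x : ℕ → Masa M), x 0 = A ∧ x n = B ∧ (∀ k ≤ n, x k ∈ U) ∧
    ∀ k < n, ∃ g ∈ V, Moves g (x k) (x (k + 1))}

/-- The action of `Aut M` on `Masa M` is turbulent: every orbit is dense and meager, and every
local orbit is somewhere dense. -/
def IsTurbulent (M : VonNeumannAlgebra H) (Ω : H) : Prop :=
  (∀ A : Masa M, Dense (orbit A) ∧ IsMeagre (orbit A)) ∧
    ∀ (A : Masa M) (U : Set (Masa M)) (V : Set (Aut M)), IsOpen U → A ∈ U →
      IsOpen[uTopology M Ω] V → idAut M ∈ V →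
        (interior (closure (localOrbit A U V))).Nonempty

end Pool.Agent.Hhelper40.RMasa
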