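import Pool.Agent.Hhelper40.RMasa.Chain

/-!
# Approximation by local elements
-/

open scoped InnerProductSpace
open Topology Filter

namespace Pool.Agent.Hhelper40.RMasa

set_option linter.unusedSectionVars false

universe u

variable {H : Type u} [NormedAddCommGroup H] [InnerProductSpace ℂ H] [CompleteSpace H]
variable {M : VonNeumannAlgebra H} {Ω : H}

namespace Sys

variable (S : Sys M Ω)

/-- The finite dimensional space of vectors of the algebra of the first `m` sites. -/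
noncomputable def vec (m : ℕ) : Matrix (Fin (2 ^ m)) (Fin (2 ^ m)) ℂ →ₗ[ℂ] H :=
  { toFun := fun X => S.ι m X Ω
    map_add' := fun X Y => by rw [map_add]; rfl
    map_smul' := fun c X => by rw [map_smul]; rfl }

noncomputable def K (m : ℕ) : Submodule ℂ H := LinearMap.range (S.vec m)

instance (m : ℕ) : FiniteDimensional ℂ (S.K m) := by
  unfold K; infer_instance

theorem mem_K {m : ℕ} {ξ : H} : ξ ∈ S.K m ↔ ∃ x ∈ S.L m, x Ω = ξ := by
  constructor
  · rintro ⟨X, rfl⟩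
    exact ⟨_, S.ι_mem m X, rfl⟩
  · rintro ⟨x, hx, rfl⟩
    obtain ⟨X, rfl⟩ := S.mem_L.1 hx
    exact ⟨X, rfl⟩

/-- The orthogonal projection on `K m`. -/
noncomputable abbrev P (m : ℕ) : H →L[ℂ] H := (S.K m).starProjection

theorem P_apply_of_mem {m : ℕ} {ξ : H} (h : ξ ∈ S.K m) : S.P m ξ = ξ :=
  Submodule.starProjection_eq_self_iff.2 h

theorem P_comm {m : ℕ} {y : H →L[ℂ] H} (hy : y ∈ S.L m) : S.P m * y = y * S.P m := by
  refine ContinuousLinearMap.ext fun ξ => ?_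
  change (S.K m).starProjection (y ξ) = y ((S.K m).starProjection ξ)
  refine Submodule.eq_starProjection_of_mem_of_inner_eq_zero ?_ ?_
  · obtain ⟨z, hz, hzξ⟩ := S.mem_K.1 (Submodule.starProjection_apply_mem (S.K m) ξ)
    rw [← hzξ]
    exact S.mem_K.2 ⟨y * z, mul_mem hy hz, rfl⟩
  · intro w hw
    obtain ⟨z, hz, rfl⟩ := S.mem_K.1 hw
    rw [← map_sub, ← inner_star_right]
    exact Submodule.starProjection_inner_eq_zero ξ _
      (S.mem_K.2 ⟨star y * z, mul_mem (star_mem hy) hz, rfl⟩)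

open scoped Matrix.Norms.L2Operator in
/-- The norm of a local element is attained on the local space. -/
theorem norm_eq_norm_mul_P {m : ℕ} {y : H →L[ℂ] H} (hy : y ∈ S.L m) : ‖y * S.P m‖ = ‖y‖ := by
  obtain ⟨Y, rfl⟩ := S.mem_L.1 hy
  have hP2 : S.P m * S.P m = S.P m := by
    refine ContinuousLinearMap.ext fun ξ => ?_
    exact S.P_apply_of_mem (Submodule.starProjection_apply_mem (S.K m) ξ)
  have hPs : star (S.P m) = S.P m := by
    rw [ContinuousLinearMap.star_eq_adjoint]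
    symm
    rw [ContinuousLinearMap.eq_adjoint_iff]
    intro x y
    exact Submodule.inner_starProjection_left_eq_right (S.K m) x y
  let φ : Matrix (Fin (2 ^ m)) (Fin (2 ^ m)) ℂ →⋆ₙₐ[ℂ] (H →L[ℂ] H) :=
    { toFun := fun X => S.ι m X * S.P m
      map_smul' := fun c X => by rw [map_smul, smul_mul_assoc]; rfl
      map_zero' := by simp
      map_add' := fun X Y => by rw [map_add, add_mul]
      map_mul' := fun X Z => by
        rw [map_mul]
        calc S.ι m X * S.ι m Z * S.P m = S.ι m X * (S.ι m Z * S.P m) * S.P m := by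
              rw [mul_assoc (S.ι m X) (S.ι m Z * S.P m), mul_assoc (S.ι m Z), hP2, mul_assoc]
          _ = S.ι m X * (S.P m * S.ι m Z) * S.P m := by rw [S.P_comm (S.ι_mem m Z)]
          _ = _ := by simp only [mul_assoc]
      map_star' := fun X => by
        rw [map_star, star_mul, hPs, ← S.P_comm (star_mem (S.ι_mem m X))] }
  have hφ : Function.Injective φ := by
    rw [injective_iff_map_eq_zero]
    intro X hX
    apply S.ι_injective m
    rw [map_zero]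
    have h1 : (S.ι m X * S.P m) Ω = 0 := by
      have : S.ι m X * S.P m = 0 := hX
      rw [this]; rfl
    have h2 : S.P m Ω = Ω := S.P_apply_of_mem (S.mem_K.2 ⟨1, one_mem _, rfl⟩)
    have h3 : S.ι m X Ω = 0 := by
      have h4 : (S.ι m X * S.P m) Ω = S.ι m X (S.P m Ω) := rfl
      rw [h4, h2] at h1
      exact h1
    exact S.hM.separating _ (S.L_le_M (S.ι_mem m X)) h3
  have h1 : ‖φ Y‖ = ‖Y‖ := NonUnitalStarAlgHom.norm_map φ hφ Y
  have h2 : ‖S.ι m Y‖ = ‖Y‖ := NonUnitalStarAlgHom.norm_map (S.ι m) (S.ι_injective m) Y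
  rw [h2, ← h1]
  rfl

/-- The conditional expectation. -/
theorem exists_exp (m : ℕ) {x : H →L[ℂ] H} (hx : x ∈ M) :
    ∃ y ∈ S.L m, ‖y‖ ≤ ‖x‖ ∧ y Ω = S.P m (x Ω) := by
  obtain ⟨y, hy, hyx⟩ := S.mem_K.1 (Submodule.starProjection_apply_mem (S.K m) (x Ω))
  refine ⟨y, hy, ?_, hyx⟩
  have key : y * S.P m = S.P m * x * S.P m := by
    refine ContinuousLinearMap.ext fun ξ => ?_
    change y (S.P m ξ) = S.P m (x (S.P m ξ))
    obtain ⟨z, hz, hzξ⟩ := S.mem_K.1 (Submodule.starProjection_apply_mem (S.K m) ξ)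
    rw [← hzξ]
    symm
    refine Submodule.eq_starProjection_of_mem_of_inner_eq_zero
      (S.mem_K.2 ⟨y * z, mul_mem hy hz, rfl⟩) ?_
    intro w hw
    obtain ⟨w, hw', rfl⟩ := S.mem_K.1 hw
    -- ⟪(x - y) z Ω, w Ω⟫ = τ(z^* (x-y)^* w) = τ ((x-y)^* w z^*)
    have e1 : ⟪x (z Ω) - y (z Ω), w Ω⟫_ℂ = ⟪Ω, (star z) ((star (x - y) * w) Ω)⟫_ℂ := by
      rw [inner_star_right]
      change _ = ⟪z Ω, star (x - y) (w Ω)⟫_ℂ
      rw [inner_star_right]
      rfl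
    have e2 := S.hM.trace (star z) (star_mem_vn M (S.L_le_M hz)) (star (x - y) * w)
      (mul_mem (star_mem_vn M (sub_mem hx (S.L_le_M hy))) (S.L_le_M hw'))
    rw [e1, e2]
    change ⟪Ω, star (x - y) (w ((star z) Ω))⟫_ℂ = 0
    rw [inner_star_right]
    have e3 : (x - y) Ω = x Ω - (S.K m).starProjection (x Ω) := by
      rw [sub_apply, hyx]
    rw [e3]
    exact Submodule.starProjection_inner_eq_zero _ _
      (S.mem_K.2 ⟨w * star z, mul_mem hw' (star_mem hz), rfl⟩)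
  rw [← S.norm_eq_norm_mul_P hy, key]
  have hP1 : ‖S.P m‖ ≤ 1 := Submodule.starProjection_norm_le _
  calc ‖S.P m * x * S.P m‖ ≤ ‖S.P m * x‖ * ‖S.P m‖ := norm_mul_le _ _
    _ ≤ (‖S.P m‖ * ‖x‖) * ‖S.P m‖ := mul_le_mul_of_nonneg_right (norm_mul_le _ _) (norm_nonneg _)
    _ ≤ (1 * ‖x‖) * 1 := by gcongr
    _ = ‖x‖ := by ring

/-- The local vectors are dense. -/
theorem dense_local : Dense {ξ : H | ∃ x ∈ {x | ∃ m, x ∈ S.L m}, x Ω = ξ} := by
  -- the projection on the closure commutes with the local algebras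
  let K0 : Submodule ℂ H :=
    { carrier := {ξ : H | ∃ x ∈ {x | ∃ m, x ∈ S.L m}, x Ω = ξ}
      add_mem' := by
        rintro _ _ ⟨x, ⟨m, hx⟩, rfl⟩ ⟨y, ⟨k, hy⟩, rfl⟩
        exact ⟨x + y, ⟨max m k, add_mem (S.L_mono (le_max_left _ _) hx)
          (S.L_mono (le_max_right _ _) hy)⟩, rfl⟩
      zero_mem' := ⟨0, ⟨0, zero_mem _⟩, rfl⟩
      smul_mem' := by
        rintro c _ ⟨x, ⟨m, hx⟩, rfl⟩
        exact ⟨c • x, ⟨m, (S.L m).smul_mem hx c⟩, rfl⟩ }
  set K1 := K0.topologicalClosure with hK1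
  have : CompleteSpace K1 := (Submodule.isClosed_topologicalClosure K0).completeSpace_coe
  set Q := K1.starProjection with hQ
  have hmul : ∀ k x, ∀ ξ ∈ K1, S.κ k x ξ ∈ K1 := by
    intro k x ξ hξ
    have hcl : IsClosed {ξ : H | S.κ k x ξ ∈ K1} :=
      (Submodule.isClosed_topologicalClosure K0).preimage (S.κ k x).continuous
    have hsub : (K0 : Set H) ⊆ {ξ : H | S.κ k x ξ ∈ K1} := by
      rintro _ ⟨y, ⟨m, hy⟩, rfl⟩
      refine Submodule.le_topologicalClosure K0 ?_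
      refine ⟨S.κ k x * y, ⟨max m (k + 1), mul_mem (site_mem ?_ x)
        (S.L_mono (le_max_left _ _) hy)⟩, rfl⟩
      show k < max m (k + 1)
      exact lt_of_lt_of_le (Nat.lt_succ_self k) (le_max_right _ _)
    exact closure_minimal hsub hcl hξ
  have hQcomm : ∀ k x, Q * S.κ k x = S.κ k x * Q := by
    intro k x
    refine ContinuousLinearMap.ext fun ξ => ?_
    change K1.starProjection (S.κ k x ξ) = S.κ k x (K1.starProjection ξ)
    refine Submodule.eq_starProjection_of_mem_of_inner_eq_zero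
      (hmul k x _ (Submodule.starProjection_apply_mem K1 ξ)) ?_
    intro w hw
    rw [← map_sub, ← inner_star_right, ← map_star]
    exact Submodule.starProjection_inner_eq_zero ξ _ (hmul k _ w hw)
  have hQmem : Q ∈ Set.centralizer (⋃ k, Set.range (S.κ k)) := by
    intro y hy
    obtain ⟨k, x, rfl⟩ := Set.mem_iUnion.1 hy
    exact (hQcomm k x).symm
  have hΩ : Q Ω = Ω := by
    refine Submodule.starProjection_eq_self_iff.2 (Submodule.le_topologicalClosure K0 ?_)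
    exact ⟨1, ⟨0, one_mem _⟩, rfl⟩
  have hall : ∀ x ∈ M, x Ω ∈ K1 := by
    intro x hx
    have hx' : x ∈ (M : Set (H →L[ℂ] H)) := hx
    rw [S.gen] at hx'
    have h1 := hx' Q hQmem
    have h2 : Q (x Ω) = x (Q Ω) := congrArg (fun T : H →L[ℂ] H => T Ω) h1
    rw [hΩ] at h2
    exact Submodule.starProjection_eq_self_iff.1 h2
  have h3 : {ξ : H | ∃ x ∈ M, x Ω = ξ} ⊆ (K1 : Set H) := by
    rintro _ ⟨x, hx, rfl⟩
    exact hall x hx
  have h4 : Dense (K1 : Set H) := S.hM.cyclic.mono h3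
  have h5 : (K1 : Set H) = closure (K0 : Set H) := rfl
  rw [h5] at h4
  exact dense_closure.1 h4

theorem K_mono {m k : ℕ} (h : m ≤ k) : S.K m ≤ S.K k := by
  intro ξ hξ
  obtain ⟨x, hx, rfl⟩ := S.mem_K.1 hξ
  exact S.mem_K.2 ⟨x, S.L_mono h hx, rfl⟩

/-- Elements of `M` are approximated by local elements, with control of the norm. -/
theorem exists_approx {x : H →L[ℂ] H} (hx : x ∈ M) {ε : ℝ} (hε : 0 < ε) :
    ∃ m₀, ∀ m ≥ m₀, ∃ y ∈ S.L m, ‖y‖ ≤ ‖x‖ ∧ ‖(y - x) Ω‖ < ε ∧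
      (IsSelfAdjoint x → IsSelfAdjoint y) := by
  obtain ⟨_, hη, ⟨z, ⟨m₀, hz⟩, rfl⟩⟩ := Metric.dense_iff.1 S.dense_local (x Ω) ε hε
  refine ⟨m₀, fun m hm => ?_⟩
  obtain ⟨y, hy, hyn, hyx⟩ := S.exists_exp m hx
  have hclose : ‖(y - x) Ω‖ < ε := by
    have h1 : ‖x Ω - S.P m (x Ω)‖ ≤ ‖x Ω - z Ω‖ := by
      rw [Submodule.starProjection_minimal]
      exact ciInf_le ⟨0, by rintro _ ⟨w, rfl⟩; exact norm_nonneg _⟩
        (⟨z Ω, S.mem_K.2 ⟨z, S.L_mono hm hz, rfl⟩⟩ : S.K m)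
    have h2 : ‖(y - x) Ω‖ = ‖x Ω - S.P m (x Ω)‖ := by
      rw [sub_apply, hyx, norm_sub_rev]
    rw [h2]
    refine h1.trans_lt ?_
    rw [← dist_eq_norm, dist_comm]
    exact hη
  by_cases hsa : IsSelfAdjoint x
  · refine ⟨(1 / 2 : ℂ) • (y + star y), (S.L m).smul_mem (add_mem hy (star_mem hy)) _, ?_, ?_, ?_⟩
    · rw [norm_smul]
      have h1 : ‖y + star y‖ ≤ ‖x‖ + ‖x‖ :=
        (norm_add_le _ _).trans (add_le_add hyn (by rw [_root_.norm_star]; exact hyn))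
      have h2 : ‖(1 / 2 : ℂ)‖ = 1 / 2 := by norm_num
      rw [h2]
      linarith
    · have h1 : (1 / 2 : ℂ) • (y + star y) - x =
          (1 / 2 : ℂ) • ((y - x) + star (y - x)) := by
        rw [star_sub, hsa.star_eq]
        have : x = (1 / 2 : ℂ) • (x + x) := by
          rw [← two_smul ℂ x, smul_smul]; norm_num
        conv_lhs => rw [this]
        rw [← smul_sub]
        congr 1
        abel
      rw [h1]
      have h2 : ((1 / 2 : ℂ) • ((y - x) + star (y - x))) Ω =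
          (1 / 2 : ℂ) • ((y - x) Ω + (star (y - x)) Ω) := rfl
      rw [h2, norm_smul]
      have h3 : ‖(star (y - x)) Ω‖ = ‖(y - x) Ω‖ :=
        S.hM.norm_star (sub_mem (S.L_le_M hy) hx)
      have h4 : ‖(y - x) Ω + (star (y - x)) Ω‖ ≤ ‖(y - x) Ω‖ + ‖(y - x) Ω‖ :=
        (norm_add_le _ _).trans (by rw [h3])
      have h5 : ‖(1 / 2 : ℂ)‖ = 1 / 2 := by norm_num
      rw [h5]
      linarith
    · intro _
      rw [IsSelfAdjoint, star_smul, star_add, star_star, add_comm (star y) y]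
      congr 1
      simp
  · exact ⟨y, hy, hyn, hclose, fun h => absurd h hsa⟩

end Sys

/-! ### Pinching -/

theorem sum_norm_sq_proj {κ : Type*} [Fintype κ] (e : κ → (H →L[ℂ] H)) (hs : ∀ a, star (e a) = e a)
    (h2 : ∀ a, e a * e a = e a) (h1 : ∑ a, e a = 1) (ξ : H) : ∑ a, ‖e a ξ‖ ^ 2 = ‖ξ‖ ^ 2 := by
  have h3 : ∀ a, ((‖e a ξ‖ ^ 2 : ℝ) : ℂ) = ⟪ξ, e a ξ⟫_ℂ := by
    intro a
    have h4 := inner_self_eq_norm_sq_to_K (𝕜 := ℂ) (e a ξ)
    have h5 : ⟪e a ξ, e a ξ⟫_ℂ = ⟪ξ, e a ξ⟫_ℂ := by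
      rw [← inner_star_right, hs]
      have : e a (e a ξ) = (e a * e a) ξ := rfl
      rw [this, h2]
    rw [h5] at h4
    rw [h4]
    push_cast
    rfl
  have h6 : ((∑ a, ‖e a ξ‖ ^ 2 : ℝ) : ℂ) = ((‖ξ‖ ^ 2 : ℝ) : ℂ) := by
    rw [Complex.ofReal_sum]
    simp_rw [h3]
    rw [← inner_sum, ← _root_.sum_apply, h1]
    change ⟪ξ, ξ⟫_ℂ = _
    rw [inner_self_eq_norm_sq_to_K]
    push_cast
    rfl
  exact_mod_cast h6

theorem norm_proj_le {e : H →L[ℂ] H} (hs : star e = e) (h2 : e * e = e) (ξ : H) :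
    ‖e ξ‖ ≤ ‖ξ‖ := by
  have h3 : ((‖e ξ‖ ^ 2 : ℝ) : ℂ) = ⟪ξ, e ξ⟫_ℂ := by
    have h4 := inner_self_eq_norm_sq_to_K (𝕜 := ℂ) (e ξ)
    have h5 : ⟪e ξ, e ξ⟫_ℂ = ⟪ξ, e ξ⟫_ℂ := by
      rw [← inner_star_right, hs]
      have : e (e ξ) = (e * e) ξ := rfl
      rw [this, h2]
    rw [h5] at h4
    rw [h4]
    push_cast
    rfl
  have h6 : ‖e ξ‖ ^ 2 ≤ ‖ξ‖ * ‖e ξ‖ := by
    have h7 : ‖((‖e ξ‖ ^ 2 : ℝ) : ℂ)‖ ≤ ‖ξ‖ * ‖e ξ‖ := by
      rw [h3]; exact norm_inner_le_norm _ _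
    rw [Complex.norm_real, Real.norm_of_nonneg (sq_nonneg _)] at h7
    exact h7
  rcases eq_or_lt_of_le (norm_nonneg (e ξ)) with h | h
  · rw [← h]; exact norm_nonneg _
  · nlinarith

theorem mul_pinch {κ : Type*} [Fintype κ] [DecidableEq κ] (e : κ → (H →L[ℂ] H))
    (h2 : ∀ a, e a * e a = e a) (h0 : ∀ a b, a ≠ b → e a * e b = 0) (z : H →L[ℂ] H) (a : κ) :
    e a * (∑ b, e b * z * e b) = e a * z * e a := by
  rw [Finset.mul_sum, Finset.sum_eq_single a]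
  · rw [← mul_assoc, ← mul_assoc, h2]
  · intro b _ hb
    rw [← mul_assoc, ← mul_assoc, h0 a b (Ne.symm hb), zero_mul, zero_mul]
  · simp

theorem norm_pinch_le {κ : Type*} [Fintype κ] [DecidableEq κ] (e : κ → (H →L[ℂ] H))
    (hs : ∀ a, star (e a) = e a) (h2 : ∀ a, e a * e a = e a)
    (h0 : ∀ a b, a ≠ b → e a * e b = 0) (h1 : ∑ a, e a = 1) (z : H →L[ℂ] H) :
    ‖∑ a, e a * z * e a‖ ≤ ‖z‖ := by
  refine ContinuousLinearMap.opNorm_le_bound _ (norm_nonneg _) fun ξ => ?_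
  have h3 := sum_norm_sq_proj e hs h2 h1 ((∑ a, e a * z * e a) ξ)
  have h4 : ∀ a, ‖e a ((∑ b, e b * z * e b) ξ)‖ ≤ ‖z‖ * ‖e a ξ‖ := by
    intro a
    have : e a ((∑ b, e b * z * e b) ξ) = e a (z (e a ξ)) :=
      congrArg (fun T : H →L[ℂ] H => T ξ) (mul_pinch e h2 h0 z a)
    rw [this]
    exact (norm_proj_le (hs a) (h2 a) _).trans (z.le_opNorm _)
  have h5 : ‖(∑ a, e a * z * e a) ξ‖ ^ 2 ≤ (‖z‖ * ‖ξ‖) ^ 2 := by
    rw [← h3, mul_pow, ← sum_norm_sq_proj e hs h2 h1 ξ, Finset.mul_sum]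
    refine Finset.sum_le_sum fun a _ => ?_
    rw [← mul_pow]
    exact pow_le_pow_left₀ (norm_nonneg _) (h4 a) 2
  exact (pow_le_pow_iff_left₀ (norm_nonneg _) (by positivity) two_ne_zero).1 h5

theorem norm_pinch_apply_le (hM : IsII1Factor M Ω) {κ : Type*} [Fintype κ] [DecidableEq κ]
    (e : κ → (H →L[ℂ] H)) (heM : ∀ a, e a ∈ M)
    (hs : ∀ a, star (e a) = e a) (h2 : ∀ a, e a * e a = e a)
    (h0 : ∀ a b, a ≠ b → e a * e b = 0) (h1 : ∑ a, e a = 1) {w : H →L[ℂ] H} (hw : w ∈ M) :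
    ‖(∑ a, e a * w * e a) Ω‖ ≤ ‖w Ω‖ := by
  have h3 := sum_norm_sq_proj e hs h2 h1 ((∑ a, e a * w * e a) Ω)
  have h4 : ∀ a, ‖e a ((∑ b, e b * w * e b) Ω)‖ ≤ ‖e a ((star w) Ω)‖ := by
    intro a
    have : e a ((∑ b, e b * w * e b) Ω) = e a ((w * e a) Ω) :=
      congrArg (fun T : H →L[ℂ] H => T Ω) (mul_pinch e h2 h0 w a)
    rw [this]
    refine (norm_proj_le (hs a) (h2 a) _).trans ?_
    rw [← hM.norm_star (mul_mem hw (heM a)), star_mul, hs]
    rfl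
  have h5 : ‖(∑ a, e a * w * e a) Ω‖ ^ 2 ≤ ‖w Ω‖ ^ 2 := by
    rw [← h3, ← hM.norm_star hw, ← sum_norm_sq_proj e hs h2 h1 ((star w) Ω)]
    exact Finset.sum_le_sum fun a _ => pow_le_pow_left₀ (norm_nonneg _) (h4 a) 2
  exact (pow_le_pow_iff_left₀ (norm_nonneg _) (norm_nonneg _) two_ne_zero).1 h5

/-! ### The masa of the chain -/

namespace Chain

open Sys

variable {S : Sys M Ω} (C : Chain S)

/-- Elements of `M` commuting with the chain are 2-norm limits of bounded elements of the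
chain. -/
theorem exists_seq {x : H →L[ℂ] H} (hx : x ∈ M) (hc : ∀ l, ∀ y ∈ C.D l, y * x = x * y) {ε : ℝ}
    (hε : 0 < ε) : ∃ l, ∃ y ∈ C.D l, ‖(y - x) Ω‖ < ε ∧ ‖y‖ ≤ ‖x‖ := by
  obtain ⟨m, hm⟩ := S.exists_approx hx hε
  obtain ⟨z, hz, hzn, hzx, -⟩ := hm m le_rfl
  have hz' : z ∈ S.L (C.n (m + 1)) := S.L_mono (C.le_n m) hz
  set l := m + 1 with hl
  set e : Fin (2 ^ C.n l) → (H →L[ℂ] H) := fun a => S.fr (C.n l) (C.U l) a with he
  have hU := C.isU l
  have heD : ∀ a, e a ∈ C.D l := fun a => fr_mem_Dg hU a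
  have heM : ∀ a, e a ∈ M := fun a => S.Dg_le_M (heD a)
  have hs : ∀ a, star (e a) = e a := fun a => S.star_fr _ _ a
  have h2 : ∀ a, e a * e a = e a := fun a => fr_mul_self hU a
  have h0 : ∀ a b, a ≠ b → e a * e b = 0 := fun a b h => fr_mul_ne hU h
  have h1 : ∑ a, e a = 1 := sum_fr hU
  refine ⟨l, ∑ a, e a * z * e a, ?_, ?_, (norm_pinch_le e hs h2 h0 h1 z).trans hzn⟩
  · refine sum_mem fun a _ => ?_
    obtain ⟨r, hr⟩ := fr_mul_mul_fr hU hz' a
    have : e a * z * e a = r • e a := hr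
    rw [this]
    exact StarSubalgebra.smul_mem _ (heD a) r
  · have h3 : x = ∑ a, e a * x * e a := by
      have : ∀ a, e a * x * e a = e a * x := by
        intro a
        rw [mul_assoc, ← hc l (e a) (heD a), ← mul_assoc, h2]
      simp_rw [this]
      rw [← Finset.sum_mul, h1, one_mul]
    have h4 : (∑ a, e a * z * e a) - x = ∑ a, e a * (z - x) * e a := by
      conv_lhs => rw [h3]
      rw [← Finset.sum_sub_distrib]
      refine Finset.sum_congr rfl fun a _ => ?_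
      rw [mul_sub, sub_mul]
    rw [h4]
    exact (norm_pinch_apply_le S.hM e heM hs h2 h0 h1 (sub_mem (S.L_le_M hz) hx)).trans_lt hzx

/-- The masa of the chain. -/
theorem exists_masa : ∃ A : Masa M, ∀ l, ∀ x ∈ C.D l, x ∈ A.1 := by
  obtain ⟨A, hA⟩ := exists_relComm M (⋃ l, (C.D l : Set (H →L[ℂ] H))) (by
    intro x hx
    obtain ⟨l, hl⟩ := Set.mem_iUnion.1 hx
    exact Set.mem_iUnion.2 ⟨l, star_mem (show x ∈ C.D l from hl)⟩)
  have hD : ∀ l, ∀ x ∈ C.D l, x ∈ A := by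
    intro l x hx
    rw [hA]
    refine ⟨S.Dg_le_M hx, ?_⟩
    intro y hy
    obtain ⟨k, hk⟩ := Set.mem_iUnion.1 hy
    exact C.D_comm (l := k) (k := l) hk hx
  refine ⟨⟨A, isMasa_of (fun x hx => ((hA x).1 hx).1) ?_ ?_⟩, hD⟩
  · intro x hx x' hx'
    obtain ⟨hxM, hxc⟩ := (hA x).1 hx
    obtain ⟨hxM', hxc'⟩ := (hA x').1 hx'
    have hxc2 : ∀ l, ∀ y ∈ C.D l, y * x = x * y := fun l y hy =>
      hxc y (Set.mem_iUnion.2 ⟨l, hy⟩)
    choose l y hy hyx hyn using fun k : ℕ => C.exists_seq hxM hxc2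
      (ε := 1 / ((k : ℝ) + 1)) (by positivity)
    have hlim : Tendsto (fun k => (y k) Ω) atTop (𝓝 (x Ω)) := by
      rw [tendsto_iff_norm_sub_tendsto_zero]
      refine squeeze_zero (fun k => norm_nonneg _) (fun k => ?_)
        tendsto_one_div_add_atTop_nhds_zero_nat
      have := (hyx k).le
      rw [sub_apply] at this
      exact this
    have hstrong := fun ξ => S.hM.tendsto_apply (fun k => S.Dg_le_M (hy k)) hxM hyn hlim ξ
    refine ContinuousLinearMap.ext fun ξ => ?_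
    change x (x' ξ) = x' (x ξ)
    have h1 : Tendsto (fun k => x' ((y k) ξ)) atTop (𝓝 (x' (x ξ))) :=
      (x'.continuous.tendsto _).comp (hstrong ξ)
    have h2 := hstrong (x' ξ)
    have h3 : ∀ k, x' ((y k) ξ) = (y k) (x' ξ) := by
      intro k
      have := hxc' (y k) (Set.mem_iUnion.2 ⟨l k, hy k⟩)
      exact (congrArg (fun T : H →L[ℂ] H => T ξ) this).symm
    simp_rw [h3] at h1
    exact tendsto_nhds_unique h2 h1
  · intro x hxM hxA
    rw [hA]
    refine ⟨hxM, fun y hy => ?_⟩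
    obtain ⟨l, hl⟩ := Set.mem_iUnion.1 hy
    exact (hxA y (hD l y hl)).symm

end Chain

end Pool.Agent.Hhelper40.RMasa
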