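import Pool.Agent.Hhelper40.RMasa.Sys

/-!
# Frames and their spans
-/

open scoped InnerProductSpace
open Topology Filter Matrix

namespace Pool.Agent.Hhelper40.RMasa

universe u

variable {H : Type u} [NormedAddCommGroup H] [InnerProductSpace ℂ H] [CompleteSpace H]
variable {M : VonNeumannAlgebra H} {Ω : H}

namespace Sys

variable (S : Sys M Ω)

/-- The frame of a unitary: the images of the minimal diagonal projections. -/
noncomputable def fr (n : ℕ) (U : H →L[ℂ] H) (a : Fin (2 ^ n)) : H →L[ℂ] H :=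
  U * S.ι n (Matrix.single a a 1) * star U

/-- The maximal abelian subalgebra of the algebra of the first `n` sites given by a frame. -/
noncomputable def Dg (n : ℕ) (U : H →L[ℂ] H) : StarSubalgebra ℂ (H →L[ℂ] H) :=
  S.L n ⊓ StarSubalgebra.centralizer ℂ (Set.range (S.fr n U))

theorem star_fr (n : ℕ) (U : H →L[ℂ] H) (a : Fin (2 ^ n)) : star (S.fr n U a) = S.fr n U a := by
  rw [fr, star_mul, star_mul, star_star, ← map_star, Matrix.star_eq_conjTranspose,
    Matrix.conjTranspose_single, star_one, mul_assoc]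

theorem mem_Dg {n : ℕ} {U c : H →L[ℂ] H} :
    c ∈ S.Dg n U ↔ c ∈ S.L n ∧ ∀ a, S.fr n U a * c = c * S.fr n U a := by
  rw [Dg, StarSubalgebra.mem_inf, StarSubalgebra.mem_centralizer_iff]
  constructor
  · rintro ⟨h1, h2⟩
    exact ⟨h1, fun a => (h2 _ ⟨a, rfl⟩).1⟩
  · rintro ⟨h1, h2⟩
    refine ⟨h1, ?_⟩
    rintro _ ⟨a, rfl⟩
    rw [star_fr]
    exact ⟨h2 a, h2 a⟩

theorem Dg_le_L {n : ℕ} {U c : H →L[ℂ] H} (h : c ∈ S.Dg n U) : c ∈ S.L n := (S.mem_Dg.1 h).1

theorem Dg_le_M {n : ℕ} {U c : H →L[ℂ] H} (h : c ∈ S.Dg n U) : c ∈ M := S.L_le_M (S.Dg_le_L h)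

variable {S}

theorem conj_mul {U : H →L[ℂ] H} (h : star U * U = 1) (x y : H →L[ℂ] H) :
    (U * x * star U) * (U * y * star U) = U * (x * y) * star U := by
  calc (U * x * star U) * (U * y * star U) = U * x * (star U * U) * y * star U := by
        simp only [mul_assoc]
    _ = _ := by rw [h, mul_one]; simp only [mul_assoc]

theorem mem_Dg_iff {n : ℕ} {U : H →L[ℂ] H} (hU : S.IsU n U) {c : H →L[ℂ] H} :
    c ∈ S.Dg n U ↔ ∃ d : Fin (2 ^ n) → ℂ, c = U * S.ι n (Matrix.diagonal d) * star U := by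
  rw [mem_Dg]
  constructor
  · rintro ⟨h1, h2⟩
    obtain ⟨X, hX⟩ := S.mem_L.1 (mul_mem (mul_mem (star_mem hU.mem) h1) hU.mem)
    have hc : c = U * S.ι n X * star U := by
      rw [hX]
      calc c = (U * star U) * c * (U * star U) := by rw [hU.right, one_mul, mul_one]
        _ = _ := by simp only [mul_assoc]
    have hcomm : ∀ a, Matrix.single a a 1 * X = X * Matrix.single a a 1 := by
      intro a
      apply S.ι_injective n
      have h3 := h2 a
      rw [fr, hc, conj_mul hU.left, conj_mul hU.left, ← map_mul, ← map_mul] at h3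
      have h4 := congrArg (fun z => star U * z * U) h3
      change star U * _ * U = star U * _ * U at h4
      have e : ∀ z : H →L[ℂ] H, star U * (U * z * star U) * U = z := by
        intro z
        calc star U * (U * z * star U) * U = (star U * U) * z * (star U * U) := by
              simp only [mul_assoc]
          _ = z := by rw [hU.left, one_mul, mul_one]
      rw [e, e] at h4
      exact h4
    refine ⟨fun i => X i i, ?_⟩
    rw [hc]
    congr 2
    congr 1
    ext i j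
    by_cases hij : i = j
    · subst hij; simp
    · rw [Matrix.diagonal_apply_ne _ hij]
      have h5 := congrFun (congrFun (hcomm i) i) j
      rw [Matrix.single_mul_apply_same, Matrix.mul_single_apply_of_ne _ _ _ _ _ (Ne.symm hij)] at h5
      simpa using h5
  · rintro ⟨d, rfl⟩
    refine ⟨mul_mem (mul_mem hU.mem (S.ι_mem n _)) (star_mem hU.mem), fun a => ?_⟩
    rw [fr, conj_mul hU.left, conj_mul hU.left, ← map_mul, ← map_mul]
    congr 3
    ext i j
    simp only [Matrix.mul_diagonal, Matrix.diagonal_mul, Matrix.single_apply, ite_mul, one_mul,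
      zero_mul, mul_ite, mul_one, mul_zero]
    by_cases h : a = i ∧ a = j
    · rw [if_pos h, if_pos h, ← h.1, ← h.2]
    · rw [if_neg h, if_neg h]

theorem fr_mem_L {n m : ℕ} (hnm : n ≤ m) {U : H →L[ℂ] H} (hU : S.IsU m U) (a : Fin (2 ^ n)) :
    S.fr n U a ∈ S.L m :=
  mul_mem (mul_mem hU.mem (S.L_mono hnm (S.ι_mem n _))) (star_mem hU.mem)

theorem fr_mem_Dg {n : ℕ} {U : H →L[ℂ] H} (hU : S.IsU n U) (a : Fin (2 ^ n)) :
    S.fr n U a ∈ S.Dg n U := by
  rw [mem_Dg_iff hU]
  refine ⟨Pi.single a 1, ?_⟩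
  rw [fr, Matrix.diagonal_single]

theorem sum_fr {n m : ℕ} {U : H →L[ℂ] H} (hU : S.IsU m U) : ∑ a, S.fr n U a = 1 := by
  simp_rw [fr, ← Finset.sum_mul, ← Finset.mul_sum, ← map_sum]
  rw [Matrix.sum_single_one, map_one, mul_one, hU.right]

theorem fr_mul_self {n m : ℕ} {U : H →L[ℂ] H} (hU : S.IsU m U) (a : Fin (2 ^ n)) :
    S.fr n U a * S.fr n U a = S.fr n U a := by
  rw [fr, conj_mul hU.left, ← map_mul, Matrix.single_mul_single_same, mul_one]

theorem fr_mul_ne {n m : ℕ} {U : H →L[ℂ] H} (hU : S.IsU m U) {a b : Fin (2 ^ n)} (h : a ≠ b) :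
    S.fr n U a * S.fr n U b = 0 := by
  rw [fr, fr, conj_mul hU.left, ← map_mul, Matrix.single_mul_single_of_ne _ _ _ _ h, map_zero,
    mul_zero, zero_mul]

theorem Dg_comm {n : ℕ} {U : H →L[ℂ] H} (hU : S.IsU n U) {c d : H →L[ℂ] H} (hc : c ∈ S.Dg n U)
    (hd : d ∈ S.Dg n U) : c * d = d * c := by
  obtain ⟨x, rfl⟩ := (mem_Dg_iff hU).1 hc
  obtain ⟨y, rfl⟩ := (mem_Dg_iff hU).1 hd
  rw [conj_mul hU.left, conj_mul hU.left, ← map_mul, ← map_mul, Matrix.diagonal_mul_diagonal,
    Matrix.diagonal_mul_diagonal]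
  congr 4
  ext i
  rw [mul_comm]

theorem Dg_eq_sum {n : ℕ} {U : H →L[ℂ] H} (hU : S.IsU n U) {c : H →L[ℂ] H} (hc : c ∈ S.Dg n U) :
    ∃ d : Fin (2 ^ n) → ℂ, c = ∑ a, d a • S.fr n U a := by
  obtain ⟨d, rfl⟩ := (mem_Dg_iff hU).1 hc
  refine ⟨d, ?_⟩
  have h1 : Matrix.diagonal d = ∑ a, d a • Matrix.single a a (1 : ℂ) := by
    ext i j
    rw [Matrix.sum_apply]
    by_cases hij : i = j
    · subst hij
      rw [Matrix.diagonal_apply_eq, Finset.sum_eq_single i]
      · simp
      · intro b _ hb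
        simp [hb]
      · simp
    · rw [Matrix.diagonal_apply_ne _ hij]
      symm
      refine Finset.sum_eq_zero fun a _ => ?_
      simp [Matrix.single_apply]
      rintro rfl h
      exact absurd h hij
  rw [h1, map_sum, Finset.mul_sum, Finset.sum_mul]
  refine Finset.sum_congr rfl fun a _ => ?_
  rw [map_smul, mul_smul_comm, smul_mul_assoc, fr]

/-- An element lies in `Dg` as soon as its frame elements do. -/
theorem Dg_le_of_fr {n : ℕ} {U : H →L[ℂ] H} (hU : S.IsU n U) {T : StarSubalgebra ℂ (H →L[ℂ] H)}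
    (h : ∀ a, S.fr n U a ∈ T) : S.Dg n U ≤ T := by
  intro c hc
  obtain ⟨d, rfl⟩ := Dg_eq_sum hU hc
  exact sum_mem fun a _ => T.smul_mem (h a) (d a)

/-- Commuting self-adjoint elements lie in a common diagonal algebra. -/
theorem exists_frame (S : Sys M Ω) {m : ℕ} {J : Type*} (C : J → (H →L[ℂ] H)) (hC : ∀ j, C j ∈ S.L m)
    (hs : ∀ j, star (C j) = C j) (hc : ∀ j k, C j * C k = C k * C j) :
    ∃ U, S.IsU m U ∧ ∀ j, C j ∈ S.Dg m U := by
  choose X hX using fun j => S.mem_L.1 (hC j)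
  obtain ⟨W, hW, hd⟩ := exists_unitary_diag X (by
    intro j
    rw [Matrix.IsHermitian, ← Matrix.star_eq_conjTranspose]
    apply S.ι_injective m
    rw [map_star, hX, hs]) (by
    intro j k
    apply S.ι_injective m
    rw [map_mul, map_mul, hX, hX, hc])
  refine ⟨S.ι m W, S.isU_ι hW, fun j => ?_⟩
  rw [mem_Dg_iff (S.isU_ι hW)]
  obtain ⟨d, hd⟩ := hd j
  exact ⟨d, by rw [← hX j, hd, map_mul, map_mul, map_star]⟩

theorem trace_fr {n m : ℕ} {U : H →L[ℂ] H} (hU : S.IsU m U) (a : Fin (2 ^ n)) :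
    ⟪Ω, S.fr n U a Ω⟫_ℂ = 1 / 2 ^ n := by
  have h := S.hM.trace (U * S.ι n (Matrix.single a a 1)) (mul_mem (S.L_le_M hU.mem)
    (S.L_le_M (S.ι_mem n _))) (star U) (S.L_le_M (star_mem hU.mem))
  have e : star U * (U * S.ι n (Matrix.single a a 1)) = S.ι n (Matrix.single a a 1) := by
    rw [← mul_assoc, hU.left, one_mul]
  change ⟪Ω, S.fr n U a Ω⟫_ℂ = ⟪Ω, (star U * (U * S.ι n (Matrix.single a a 1))) Ω⟫_ℂ at h
  rw [h, e, S.trace_single_eq]

/-- A frame close to a diagonal algebra can be moved into it by a unitary close to `1`. -/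
theorem exists_near (S : Sys M Ω) (n : ℕ) (ε : ℝ) (hε : 0 < ε) : ∃ δ > 0, ∀ m ≥ n, ∀ v W,
    S.IsU m v → S.IsU m W → (∀ a : Fin (2 ^ n), ∃ c ∈ S.Dg m W, ‖(S.fr n v a - c) Ω‖ ≤ δ) →
    ∃ s, S.IsU m s ∧ ‖(s - 1) Ω‖ ≤ ε ∧ ∀ a : Fin (2 ^ n), s * S.fr n v a * star s ∈ S.Dg m W := by
  obtain ⟨δ, hδ, h⟩ := exists_unitary_near (κ := Fin (2 ^ n)) (ε ^ 2) (by positivity)
  refine ⟨Real.sqrt δ, Real.sqrt_pos.2 hδ, ?_⟩
  intro m hm v W hv hW hnear
  have hmem : ∀ a : Fin (2 ^ n), star W * S.fr n v a * W ∈ S.L m := fun a =>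
    mul_mem (mul_mem (star_mem hW.mem) (fr_mem_L hm hv a)) hW.mem
  choose e he using fun a => S.mem_L.1 (hmem a)
  have hVW : S.IsU m (star W * v) := hW.star.mul hv
  have hfr : ∀ a, star W * S.fr n v a * W = S.fr n (star W * v) a := by
    intro a
    rw [fr, fr, star_mul, star_star]
    simp only [mul_assoc]
  have hback : ∀ z : H →L[ℂ] H, W * (star W * z * W) * star W = z := by
    intro z
    calc W * (star W * z * W) * star W = (W * star W) * z * (W * star W) := by
          simp only [mul_assoc]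
      _ = z := by rw [hW.right, one_mul, mul_one]
  have hback' : ∀ z : H →L[ℂ] H, star W * (W * z * star W) * W = z := by
    intro z
    calc star W * (W * z * star W) * W = (star W * W) * z * (star W * W) := by
          simp only [mul_assoc]
      _ = z := by rw [hW.left, one_mul, mul_one]
  obtain ⟨s, hs, hs1, hs2⟩ := h (Fin (2 ^ m)) e
    (by
      intro a
      rw [Matrix.IsHermitian, ← Matrix.star_eq_conjTranspose]
      apply S.ι_injective m
      rw [map_star, he, hfr, star_fr])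
    (by
      intro a
      apply S.ι_injective m
      rw [map_mul, he, hfr, fr_mul_self hVW])
    (by
      intro a b hab
      apply S.ι_injective m
      rw [map_mul, he, he, hfr, hfr, fr_mul_ne hVW hab, map_zero])
    (by
      apply S.ι_injective m
      rw [map_sum, map_one]
      simp_rw [he, hfr]
      exact sum_fr hVW)
    (by
      intro a b
      have h1 := S.trace_ι m (e a)
      have h2 := S.trace_ι m (e b)
      rw [he, hfr, trace_fr hVW] at h1 h2
      have h3 : (2 ^ m : ℂ) ≠ 0 := pow_ne_zero _ two_ne_zero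
      have h4 := h1.symm.trans h2
      field_simp at h4
      exact h4)
    (by
      intro a
      obtain ⟨c, hc, hca⟩ := hnear a
      obtain ⟨d, hd⟩ := (mem_Dg_iff hW).1 hc
      refine ⟨d, ?_⟩
      rw [← S.norm_ι]
      have h1 : S.ι m (e a - Matrix.diagonal d) = star W * (S.fr n v a - c) * star (star W) := by
        rw [map_sub, he, hd, star_star, mul_sub, sub_mul, hback']
      rw [h1, norm_conj (by rw [star_star]; exact hW.right) (by rw [star_star]; exact hW.left)
        (S.L_le_M (star_mem hW.mem)) S.hM (S.L_le_M (sub_mem (fr_mem_L hm hv a) (S.Dg_le_L hc)))]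
      calc ‖(S.fr n v a - c) Ω‖ ^ 2 ≤ Real.sqrt δ ^ 2 := pow_le_pow_left₀ (norm_nonneg _) hca 2
        _ = δ := Real.sq_sqrt hδ.le)
  have hsU := S.isU_ι hs
  refine ⟨W * S.ι m s * star W, (hW.mul hsU).mul hW.star, ?_, ?_⟩
  · have e1 : W * S.ι m s * star W - 1 = W * (S.ι m s - 1) * star W := by
      rw [mul_sub, sub_mul, mul_one, hW.right]
    rw [e1, norm_conj hW.left hW.right (S.L_le_M hW.mem) S.hM
      (S.L_le_M (sub_mem hsU.mem (one_mem _)))]
    have e2 : S.ι m s - 1 = S.ι m (s - 1) := by rw [map_sub, map_one]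
    rw [e2]
    have h5 := S.norm_ι m (s - 1)
    have h6 : ‖(S.ι m (s - 1)) Ω‖ ^ 2 ≤ ε ^ 2 := by rw [h5]; exact hs1
    exact (pow_le_pow_iff_left₀ (norm_nonneg _) hε.le two_ne_zero).1 h6
  · intro a
    obtain ⟨d, hd⟩ := hs2 a
    rw [mem_Dg_iff hW]
    refine ⟨d, ?_⟩
    rw [← hd, map_mul, map_mul, map_star, he]
    simp only [star_mul, star_star, mul_assoc]

end Sys

end Pool.Agent.Hhelper40.RMasa
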