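import Pool.Agent.Hhelper40.RMasa.Defs

/-!
# Matrix units and homomorphisms of the 2 by 2 matrices
-/

namespace Pool.Agent.Hhelper40.RMasa

universe u

variable {H : Type u} [NormedAddCommGroup H] [InnerProductSpace ℂ H] [CompleteSpace H]

theorem units_mul (e : Fin 2 → Fin 2 → (H →L[ℂ] H)) (he : IsMatrixUnits e)
    (x y : Fin 2 → Fin 2 → ℂ) :
    ∑ i, ∑ j, (∑ k, x i k * y k j) • e i j =
      (∑ i, ∑ j, x i j • e i j) * (∑ i, ∑ j, y i j • e i j) := by
  have h1 := he.mul_same
  have h2 := he.mul_ne
  have n01 : (0 : Fin 2) ≠ 1 := by decide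
  have n10 : (1 : Fin 2) ≠ 0 := by decide
  simp only [Fin.sum_univ_two, add_mul, mul_add, smul_mul_assoc,
    mul_smul_comm, h1, h2 _ _ _ _ n01, h2 _ _ _ _ n10, smul_zero, add_zero, zero_add,
    add_smul, smul_add, smul_smul]
  simp only [mul_comm (y _ _) (x _ _)]
  abel

/-- The homomorphism given by a system of matrix units. -/
noncomputable def unitsHom (e : Fin 2 → Fin 2 → (H →L[ℂ] H)) (he : IsMatrixUnits e) :
    Matrix (Fin 2) (Fin 2) ℂ →⋆ₐ[ℂ] (H →L[ℂ] H) :=
  { AlgHom.ofLinearMap
      ({ toFun := fun X => ∑ i, ∑ j, X i j • e i j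
         map_add' := by
          intro X Y
          simp_rw [← Finset.sum_add_distrib, Matrix.add_apply, add_smul]
         map_smul' := by
          intro c X
          simp_rw [RingHom.id_apply, Finset.smul_sum, Matrix.smul_apply, smul_eq_mul, mul_smul] } :
        Matrix (Fin 2) (Fin 2) ℂ →ₗ[ℂ] (H →L[ℂ] H))
      (by
        change ∑ i, ∑ j, (1 : Matrix (Fin 2) (Fin 2) ℂ) i j • e i j = 1
        simp only [Fin.sum_univ_two, Matrix.one_apply]
        simpa using he.sum_eq)
      (by
        intro X Y
        change ∑ i, ∑ j, (X * Y) i j • e i j = (∑ i, ∑ j, X i j • e i j) *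
          (∑ i, ∑ j, Y i j • e i j)
        exact units_mul e he X Y) with
    map_star' := by
      intro X
      change ∑ i, ∑ j, (star X) i j • e i j = star (∑ i, ∑ j, X i j • e i j)
      simp_rw [star_sum, star_smul, he.star_eq]
      rw [Finset.sum_comm]
      rfl }

theorem unitsHom_apply (e : Fin 2 → Fin 2 → (H →L[ℂ] H)) (he : IsMatrixUnits e)
    (X : Matrix (Fin 2) (Fin 2) ℂ) : unitsHom e he X = ∑ i, ∑ j, X i j • e i j := rfl

theorem isHyperfinite_iff (M : VonNeumannAlgebra H) : IsHyperfinite M ↔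
    ∃ κ : ℕ → (Matrix (Fin 2) (Fin 2) ℂ →⋆ₐ[ℂ] (H →L[ℂ] H)),
      (∀ k l, k ≠ l → ∀ x y, κ k x * κ l y = κ l y * κ k x) ∧
      (M : Set (H →L[ℂ] H)) = Set.centralizer (Set.centralizer (⋃ k, Set.range (κ k))) := by
  constructor
  · rintro ⟨e, he, hcomm, hgen⟩
    refine ⟨fun k => unitsHom (e k) (he k), ?_, ?_⟩
    · intro k l hkl X Y
      rw [unitsHom_apply, unitsHom_apply]
      simp_rw [Finset.sum_mul, Finset.mul_sum]
      simp only [Fin.sum_univ_two, smul_mul_assoc, mul_smul_comm, hcomm k l hkl]
      simp only [smul_smul, mul_comm (Y _ _) (X _ _)]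
      abel
    · rw [hgen]
      congr 1
      ext T
      rw [Set.mem_centralizer_iff, Set.mem_centralizer_iff]
      constructor
      · intro h S hS
        obtain ⟨k, X, rfl⟩ := Set.mem_iUnion.1 hS
        rw [unitsHom_apply]
        simp_rw [Finset.sum_mul, Finset.mul_sum, smul_mul_assoc, mul_smul_comm]
        refine Finset.sum_congr rfl fun i _ => Finset.sum_congr rfl fun j _ => ?_
        rw [h (e k i j) ⟨k, i, j, rfl⟩]
      · rintro h _ ⟨k, i, j, rfl⟩
        have h1 := h (unitsHom (e k) (he k) (Matrix.single i j 1))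
          (Set.mem_iUnion.2 ⟨k, _, rfl⟩)
        have h2 : unitsHom (e k) (he k) (Matrix.single i j 1) = e k i j := by
          rw [unitsHom_apply, Finset.sum_eq_single i, Finset.sum_eq_single j]
          · simp
          · intro b _ hb
            simp [Ne.symm hb]
          · simp
          · intro b _ hb
            refine Finset.sum_eq_zero fun c _ => ?_
            simp [Ne.symm hb]
          · simp
        rw [h2] at h1
        exact h1
  · rintro ⟨κ, hcomm, hgen⟩
    refine ⟨fun k i j => κ k (Matrix.single i j 1), fun k => ⟨?_, ?_, ?_, ?_⟩, ?_, ?_⟩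
    · intro i j l
      rw [← map_mul, Matrix.single_mul_single_same, mul_one]
    · intro i j k' l h
      rw [← map_mul, Matrix.single_mul_single_of_ne _ _ _ _ h, map_zero]
    · intro i j
      rw [← map_star, Matrix.star_eq_conjTranspose, Matrix.conjTranspose_single, star_one]
    · have h1 : ∑ i : Fin 2, Matrix.single i i (1 : ℂ) = 1 := Matrix.sum_single_one
      rw [Fin.sum_univ_two] at h1
      rw [← map_add, h1, map_one]
    · intro k l hkl i j i' j'
      exact hcomm k l hkl _ _
    · rw [hgen]
      congr 1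
      ext T
      rw [Set.mem_centralizer_iff, Set.mem_centralizer_iff]
      constructor
      · rintro h _ ⟨k, i, j, rfl⟩
        exact h _ (Set.mem_iUnion.2 ⟨k, _, rfl⟩)
      · intro h S hS
        obtain ⟨k, X, rfl⟩ := Set.mem_iUnion.1 hS
        have h1 : ∀ i j, Matrix.single i j (X i j) = (X i j) • Matrix.single i j (1 : ℂ) := by
          intro c d
          rw [Matrix.smul_single, smul_eq_mul, mul_one]
        rw [Matrix.matrix_eq_sum_single X]
        simp_rw [h1, map_sum, map_smul, Finset.sum_mul, Finset.mul_sum, smul_mul_assoc,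
          mul_smul_comm]
        refine Finset.sum_congr rfl fun i _ => Finset.sum_congr rfl fun j _ => ?_
        rw [h _ ⟨k, i, j, rfl⟩]

end Pool.Agent.Hhelper40.RMasa
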