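import Pool.Agent.Hhelper40.RMasa.Basic

/-!
# Limits of inner automorphisms; automorphisms implemented by unitaries move masas to masas
-/

open scoped InnerProductSpace
open Topology Filter

namespace Pool.Agent.Hhelper40.RMasa

universe u

variable {H : Type u} [NormedAddCommGroup H] [InnerProductSpace ℂ H] [CompleteSpace H]
variable {M : VonNeumannAlgebra H} {Ω : H}

/-- `Ad v` extended to `H`. -/
theorem exists_adU (hM : IsII1Factor M Ω) {v : H →L[ℂ] H} (hv : v ∈ M) :
    ∃ U : H →L[ℂ] H, ∀ x ∈ M, U (x Ω) = (v * x * star v) Ω := by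
  obtain ⟨R, _, _, hR⟩ := hM.exists_right (star_mem_vn M hv)
  refine ⟨v * R, fun x hx => ?_⟩
  change v (R (x Ω)) = _
  rw [hR x hx, mul_assoc]
  rfl

theorem isometry_apply {v : H →L[ℂ] H} (h1 : star v * v = 1) (ξ : H) : ‖v ξ‖ = ‖ξ‖ := by
  have h2 : ⟪v ξ, v ξ⟫_ℂ = ⟪ξ, ξ⟫_ℂ := by
    rw [← inner_star_right]
    have : (star v) (v ξ) = ξ := by
      have := congrArg (fun T : H →L[ℂ] H => T ξ) h1
      exact this
    rw [this]
  have e1 := inner_self_eq_norm_sq_to_K (𝕜 := ℂ) (v ξ)
  have e2 := inner_self_eq_norm_sq_to_K (𝕜 := ℂ) ξ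
  rw [e1, e2] at h2
  have h3 : ‖v ξ‖ ^ 2 = ‖ξ‖ ^ 2 := by exact_mod_cast h2
  exact (pow_left_inj₀ (norm_nonneg _) (norm_nonneg _) two_ne_zero).1 h3

theorem adU_norm (hM : IsII1Factor M Ω) {v U : H →L[ℂ] H} (hv : v ∈ M) (h1 : star v * v = 1)
    (hU : ∀ x ∈ M, U (x Ω) = (v * x * star v) Ω) (ξ : H) : ‖U ξ‖ = ‖ξ‖ := by
  have h := Continuous.ext_on (f := fun ξ => ‖U ξ‖) (g := fun ξ => ‖ξ‖) hM.cyclic
    (U.continuous.norm) continuous_norm (by
      rintro ξ ⟨x, hx, rfl⟩
      simp only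
      rw [hU x hx]
      have hsx := star_mem_vn M hx
      have hsv := star_mem_vn M hv
      calc ‖(v * x * star v) Ω‖ = ‖v ((x * star v) Ω)‖ := by rw [mul_assoc]; rfl
        _ = ‖(x * star v) Ω‖ := isometry_apply h1 _
        _ = ‖(star (x * star v)) Ω‖ := (hM.norm_star (mul_mem hx hsv)).symm
        _ = ‖v ((star x) Ω)‖ := by rw [star_mul, star_star]; rfl
        _ = ‖(star x) Ω‖ := isometry_apply h1 _
        _ = ‖x Ω‖ := hM.norm_star hx)
  exact congrFun h ξ

theorem adU_inv (hM : IsII1Factor M Ω) {v U U' : H →L[ℂ] H} (hv : v ∈ M) (h2 : v * star v = 1)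
    (hU : ∀ x ∈ M, U (x Ω) = (v * x * star v) Ω) (hU' : ∀ x ∈ M, U' (x Ω) = (star v * x * v) Ω)
    (ξ : H) : U (U' ξ) = ξ := by
  have h := Continuous.ext_on (f := fun ξ => U (U' ξ)) (g := fun ξ => ξ) hM.cyclic
    (U.continuous.comp U'.continuous) continuous_id (by
      rintro ξ ⟨x, hx, rfl⟩
      simp only
      have hsv := star_mem_vn M hv
      rw [hU' x hx, hU _ (mul_mem (mul_mem hsv hx) hv)]
      have e : v * (star v * x * v) * star v = x := by
        calc v * (star v * x * v) * star v = (v * star v) * x * (v * star v) := by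
              simp only [mul_assoc]
          _ = x := by rw [h2, one_mul, mul_one]
      rw [e])
  exact congrFun h ξ

theorem adU_conj (hM : IsII1Factor M Ω) {v U U' : H →L[ℂ] H} (hv : v ∈ M) (h2 : v * star v = 1)
    (hU : ∀ x ∈ M, U (x Ω) = (v * x * star v) Ω) (hU' : ∀ x ∈ M, U' (x Ω) = (star v * x * v) Ω)
    {y : H →L[ℂ] H} (hy : y ∈ M) (ξ : H) : U (y (U' ξ)) = (v * y * star v) ξ := by
  have h := Continuous.ext_on (f := fun ξ => U (y (U' ξ))) (g := fun ξ => (v * y * star v) ξ)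
    hM.cyclic (U.continuous.comp (y.continuous.comp U'.continuous)) (v * y * star v).continuous (by
      rintro ξ ⟨x, hx, rfl⟩
      simp only
      have hsv := star_mem_vn M hv
      rw [hU' x hx]
      have e1 : y ((star v * x * v) Ω) = (y * (star v * x * v)) Ω := rfl
      rw [e1, hU _ (mul_mem hy (mul_mem (mul_mem hsv hx) hv))]
      have e : v * (y * (star v * x * v)) * star v = v * y * star v * x := by
        calc v * (y * (star v * x * v)) * star v = (v * y * star v * x) * (v * star v) := by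
              simp only [mul_assoc]
          _ = _ := by rw [h2, mul_one]
      rw [e]
      rfl)
  exact congrFun h ξ

/-- pointwise limits of operators that are isometric converge as soon as they do on a dense set -/
theorem exists_lim {S : Set H} (hS : Dense S) (U : ℕ → (H →L[ℂ] H)) (hU : ∀ j ξ, ‖U j ξ‖ = ‖ξ‖)
    (hc : ∀ ξ ∈ S, CauchySeq (fun j => U j ξ)) :
    ∃ V : H →L[ℂ] H, ∀ ξ, Tendsto (fun j => U j ξ) atTop (𝓝 (V ξ)) := by
  have hcauchy : ∀ ξ, CauchySeq (fun j => U j ξ) := by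
    intro ξ
    rw [Metric.cauchySeq_iff]
    intro ε hε
    obtain ⟨η, hη, hηS⟩ := Metric.dense_iff.1 hS ξ (ε / 3) (by positivity)
    obtain ⟨N, hN⟩ := Metric.cauchySeq_iff.1 (hc η hηS) (ε / 3) (by positivity)
    refine ⟨N, fun m hm n hn => ?_⟩
    have h1 := hN m hm n hn
    have hd : ‖ξ - η‖ < ε / 3 := by
      rw [← dist_eq_norm, dist_comm]; exact hη
    rw [dist_eq_norm] at h1 ⊢
    have e : U m ξ - U n ξ = U m (ξ - η) + (U m η - U n η) - U n (ξ - η) := by
      rw [map_sub, map_sub]; abel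
    rw [e]
    calc ‖U m (ξ - η) + (U m η - U n η) - U n (ξ - η)‖
        ≤ ‖U m (ξ - η) + (U m η - U n η)‖ + ‖U n (ξ - η)‖ := norm_sub_le _ _
      _ ≤ ‖U m (ξ - η)‖ + ‖U m η - U n η‖ + ‖U n (ξ - η)‖ := by
          have := norm_add_le (U m (ξ - η)) (U m η - U n η)
          linarith
      _ < ε := by rw [hU, hU]; linarith
  choose f hf using fun ξ => cauchySeq_tendsto_of_complete (hcauchy ξ)
  have ht : Tendsto (fun n x => U n x) atTop (𝓝 f) := tendsto_pi_nhds.2 hf
  exact ⟨continuousLinearMapOfTendsto U ht, hf⟩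

omit [CompleteSpace H] in
theorem tendsto_comp_isom {U : ℕ → (H →L[ℂ] H)} {V : H →L[ℂ] H} (hU : ∀ j ξ, ‖U j ξ‖ = ‖ξ‖)
    (hV : ∀ ξ, Tendsto (fun j => U j ξ) atTop (𝓝 (V ξ))) {x : ℕ → H} {y : H}
    (hx : Tendsto x atTop (𝓝 y)) : Tendsto (fun j => U j (x j)) atTop (𝓝 (V y)) := by
  have h1 : Tendsto (fun j => U j (x j - y)) atTop (𝓝 0) := by
    rw [tendsto_zero_iff_norm_tendsto_zero]
    simp_rw [hU]
    have := (hx.sub_const y).norm
    simpa using this
  have h2 := h1.add (hV y)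
  rw [zero_add] at h2
  refine h2.congr (fun j => ?_)
  rw [map_sub]
  abel

theorem exists_limit (hM : IsII1Factor M Ω) (v : ℕ → (H →L[ℂ] H)) (hv : ∀ j, v j ∈ M)
    (h1 : ∀ j, star (v j) * v j = 1) (h2 : ∀ j, v j * star (v j) = 1)
    (S : Set (H →L[ℂ] H)) (hS : ∀ x ∈ S, x ∈ M) (hdense : Dense {ξ : H | ∃ x ∈ S, x Ω = ξ})
    (hc1 : ∀ x ∈ S, CauchySeq (fun j => (v j * x * star (v j)) Ω))
    (hc2 : ∀ x ∈ S, CauchySeq (fun j => (star (v j) * x * v j) Ω)) :
    ∃ U : H →L[ℂ] H, star U * U = 1 ∧ U * star U = 1 ∧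
      (∀ x ∈ M, U * x * star U ∈ M) ∧ (∀ x ∈ M, star U * x * U ∈ M) ∧
      ∀ x ∈ M, Tendsto (fun j => (v j * x * star (v j)) Ω) atTop (𝓝 ((U * x * star U) Ω)) := by
  choose U hU using fun j => exists_adU hM (hv j)
  have hex : ∀ j, ∃ U' : H →L[ℂ] H, ∀ x ∈ M, U' (x Ω) = (star (v j) * x * v j) Ω := by
    intro j
    obtain ⟨U', h⟩ := exists_adU hM (star_mem_vn M (hv j))
    refine ⟨U', fun x hx => ?_⟩
    rw [h x hx, star_star]
  choose U' hU' using hex
  have hsv : ∀ j, star (v j) ∈ M := fun j => star_mem_vn M (hv j)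
  have hUn : ∀ j ξ, ‖U j ξ‖ = ‖ξ‖ := fun j ξ => adU_norm hM (hv j) (h1 j) (hU j) ξ
  have hU'n : ∀ j ξ, ‖U' j ξ‖ = ‖ξ‖ := fun j ξ =>
    adU_norm hM (hsv j) (by rw [star_star]; exact h2 j) (by
      intro x hx; rw [hU' j x hx, star_star]) ξ
  have hUU' : ∀ j ξ, U j (U' j ξ) = ξ := fun j ξ => adU_inv hM (hv j) (h2 j) (hU j) (hU' j) ξ
  have hU'U : ∀ j ξ, U' j (U j ξ) = ξ := fun j ξ =>
    adU_inv hM (hsv j) (by rw [star_star]; exact h1 j) (by
      intro x hx; rw [hU' j x hx, star_star]) (by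
      intro x hx; rw [hU j x hx, star_star]) ξ
  have hconj : ∀ j, ∀ y ∈ M, ∀ ξ, U j (y (U' j ξ)) = (v j * y * star (v j)) ξ :=
    fun j y hy ξ => adU_conj hM (hv j) (h2 j) (hU j) (hU' j) hy ξ
  have hconj' : ∀ j, ∀ y ∈ M, ∀ ξ, U' j (y (U j ξ)) = (star (v j) * y * v j) ξ := by
    intro j y hy ξ
    have := adU_conj hM (hsv j) (by rw [star_star]; exact h1 j) (U := U' j) (U' := U j) (by
      intro x hx; rw [hU' j x hx, star_star]) (by
      intro x hx; rw [hU j x hx, star_star]) hy ξ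
    rwa [star_star] at this
  obtain ⟨V, hV⟩ := exists_lim hdense U hUn (by
    rintro ξ ⟨x, hx, rfl⟩
    have := hc1 x hx
    simp_rw [hU _ x (hS x hx)]
    exact this)
  obtain ⟨V', hV'⟩ := exists_lim hdense U' hU'n (by
    rintro ξ ⟨x, hx, rfl⟩
    have := hc2 x hx
    simp_rw [hU' _ x (hS x hx)]
    exact this)
  have hVV' : V * V' = 1 := by
    refine ContinuousLinearMap.ext fun ξ => ?_
    have h3 := tendsto_comp_isom hUn hV (hV' ξ)
    simp_rw [hUU'] at h3
    exact (tendsto_nhds_unique h3 tendsto_const_nhds)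
  have hV'V : V' * V = 1 := by
    refine ContinuousLinearMap.ext fun ξ => ?_
    have h3 := tendsto_comp_isom hU'n hV' (hV ξ)
    simp_rw [hU'U] at h3
    exact (tendsto_nhds_unique h3 tendsto_const_nhds)
  have hVn : ∀ ξ, ‖V ξ‖ = ‖ξ‖ := by
    intro ξ
    have h3 := (hV ξ).norm
    simp_rw [hUn] at h3
    exact tendsto_nhds_unique h3 tendsto_const_nhds |>.symm ▸ rfl
  have hsV : star V * V = 1 := by
    refine ContinuousLinearMap.ext fun ξ => ?_
    refine ext_inner_left ℂ fun η => ?_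
    change ⟪η, (star V) (V ξ)⟫_ℂ = ⟪η, ξ⟫_ℂ
    rw [inner_star_right]
    exact (LinearMap.norm_map_iff_inner_map_map (𝕜 := ℂ) V).1 hVn η ξ
  have hstar : star V = V' := by
    calc star V = star V * (V * V') := by rw [hVV', mul_one]
      _ = (star V * V) * V' := by rw [mul_assoc]
      _ = V' := by rw [hsV, one_mul]
  have hlim : ∀ x ∈ M, ∀ ξ, Tendsto (fun j => (v j * x * star (v j)) ξ) atTop
      (𝓝 ((V * x * star V) ξ)) := by
    intro x hx ξ
    have h3 : Tendsto (fun j => x (U' j ξ)) atTop (𝓝 (x (V' ξ))) :=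
      (x.continuous.tendsto _).comp (hV' ξ)
    have h4 := tendsto_comp_isom hUn hV h3
    simp_rw [hconj _ x hx] at h4
    rw [hstar]
    exact h4
  have hlim' : ∀ x ∈ M, ∀ ξ, Tendsto (fun j => (star (v j) * x * v j) ξ) atTop
      (𝓝 ((star V * x * V) ξ)) := by
    intro x hx ξ
    have h3 : Tendsto (fun j => x (U j ξ)) atTop (𝓝 (x (V ξ))) :=
      (x.continuous.tendsto _).comp (hV ξ)
    have h4 := tendsto_comp_isom hU'n hV' h3
    simp_rw [hconj' _ x hx] at h4
    rw [hstar]
    exact h4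
  refine ⟨V, hsV, by rw [hstar]; exact hVV', ?_, ?_, fun x hx => hlim x hx Ω⟩
  · intro x hx
    exact mem_of_tendsto M (fun j => mul_mem (mul_mem (hv j) hx) (hsv j)) (hlim x hx)
  · intro x hx
    exact mem_of_tendsto M (fun j => mul_mem (mul_mem (hsv j) hx) (hv j)) (hlim' x hx)

/-- A unitary of `H` normalising `M` gives an automorphism of `M` and moves masas to masas. -/
theorem exists_moves (U : H →L[ℂ] H) (h1 : star U * U = 1) (h2 : U * star U = 1)
    (h3 : ∀ x ∈ M, U * x * star U ∈ M) (h4 : ∀ x ∈ M, star U * x * U ∈ M) (A : Masa M) :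
    ∃ B : Masa M, B ∈ orbit A ∧ ∀ x ∈ A.1, U * x * star U ∈ B.1 := by
  have c1 : ∀ x : H →L[ℂ] H, star U * (U * x * star U) * U = x := by
    intro x
    calc star U * (U * x * star U) * U = (star U * U) * x * (star U * U) := by
          simp only [mul_assoc]
      _ = x := by rw [h1, one_mul, mul_one]
  have c2 : ∀ x : H →L[ℂ] H, U * (star U * x * U) * star U = x := by
    intro x
    calc U * (star U * x * U) * star U = (U * star U) * x * (U * star U) := by
          simp only [mul_assoc]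
      _ = x := by rw [h2, one_mul, mul_one]
  have m1 : ∀ x y : H →L[ℂ] H, star U * (x * y) * U = (star U * x * U) * (star U * y * U) := by
    intro x y
    calc star U * (x * y) * U = star U * (x * 1 * y) * U := by rw [mul_one]
      _ = star U * (x * (U * star U) * y) * U := by rw [h2]
      _ = _ := by simp only [mul_assoc]
  have m2 : ∀ x y : H →L[ℂ] H, U * (x * y) * star U = (U * x * star U) * (U * y * star U) := by
    intro x y
    calc U * (x * y) * star U = U * (x * 1 * y) * star U := by rw [mul_one]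
      _ = U * (x * (star U * U) * y) * star U := by rw [h1]
      _ = _ := by simp only [mul_assoc]
  obtain ⟨T, hT⟩ : ∃ T : Set (H →L[ℂ] H), T = {y | ∃ z ∈ A.1.commutant, y = U * z * star U} :=
    ⟨_, rfl⟩
  have hTs : ∀ x ∈ T, star x ∈ T := by
    intro x hx
    rw [hT] at hx ⊢
    obtain ⟨z, hz, rfl⟩ := hx
    refine ⟨star z, star_mem_vn _ hz, ?_⟩
    rw [star_mul, star_mul, star_star, mul_assoc]
  have hmem : ∀ y, y ∈ ofStar T hTs ↔ star U * y * U ∈ A.1 := by
    intro y
    rw [mem_ofStar, mem_vn_iff A.1]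
    constructor
    · intro h z hz
      have h5 := h (U * z * star U) (by rw [hT]; exact ⟨z, hz, rfl⟩)
      have h6 : star U * (U * z * star U * y) * U = star U * (y * (U * z * star U)) * U := by
        rw [h5]
      rw [m1, c1, m1, c1] at h6
      exact h6
    · intro h w hw
      rw [hT] at hw
      obtain ⟨z, hz, rfl⟩ := hw
      have h5 := h z hz
      have h6 : U * (z * (star U * y * U)) * star U = U * (star U * y * U * z) * star U := by
        rw [h5]
      rw [m2, c2, m2, c2] at h6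
      exact h6
  have hmasa : IsMasa M (ofStar T hTs) := by
    apply isMasa_of
    · intro y hy
      have h5 := A.2.1 ((hmem y).1 hy)
      have h6 := h3 _ h5
      rwa [c2] at h6
    · intro a ha b hb
      have h5 := A.2.2.1 _ ((hmem a).1 ha) _ ((hmem b).1 hb)
      rw [← m1, ← m1] at h5
      have h6 := congrArg (fun W => U * W * star U) h5
      simp only [c2] at h6
      exact h6
    · intro x hx hc
      rw [hmem]
      apply mem_of_commute A.2 (h4 x hx)
      intro a ha
      have h5 := hc (U * a * star U) (by rw [hmem, c1]; exact ha)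
      have h6 : star U * (x * (U * a * star U)) * U = star U * (U * a * star U * x) * U := by
        rw [h5]
      rw [m1, c1, m1, c1] at h6
      exact h6
  let α : Aut M := ⟨
    { toFun := fun x => ⟨U * x.1 * star U, h3 x.1 x.2⟩
      invFun := fun x => ⟨star U * x.1 * U, h4 x.1 x.2⟩
      left_inv := fun x => Subtype.ext (c1 x.1)
      right_inv := fun x => Subtype.ext (c2 x.1) }, by
    refine ⟨?_, ?_, ?_, ?_⟩
    · intro x y z hz
      change U * z.1 * star U = U * x.1 * star U + U * y.1 * star U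
      rw [hz, mul_add, add_mul]
    · intro x y z hz
      change U * z.1 * star U = (U * x.1 * star U) * (U * y.1 * star U)
      rw [hz, m2]
    · intro c x z hz
      change U * z.1 * star U = c • (U * x.1 * star U)
      rw [hz, mul_smul_comm, smul_mul_assoc]
    · intro x z hz
      change U * z.1 * star U = star (U * x.1 * star U)
      rw [hz, star_mul, star_mul, star_star, mul_assoc]⟩
  refine ⟨⟨ofStar T hTs, hmasa⟩, ⟨α, ?_⟩, fun x hx => ?_⟩
  · intro y
    constructor
    · intro hy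
      have h5 := (hmem y).1 hy
      refine ⟨⟨star U * y * U, A.2.1 h5⟩, h5, ?_⟩
      change y = U * (star U * y * U) * star U
      rw [c2]
    · rintro ⟨x, hx, rfl⟩
      change U * x.1 * star U ∈ ofStar T hTs
      rw [hmem, c1]
      exact hx
  · change U * x * star U ∈ ofStar T hTs
    rw [hmem, c1]
    exact hx

end Pool.Agent.Hhelper40.RMasa
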