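import Mathlib

/-!
# Tensor powers of the 2 by 2 matrices inside a star algebra
-/

open Matrix

namespace Pool.Agent.Hhelper40.RMasa

set_option linter.unusedSectionVars false

section

variable {A : Type*} [Ring A] [StarRing A] [Algebra ℂ A] [StarModule ℂ A]

/-- The block `(a, b)` of a matrix on a product index. -/
def blk {I J : Type*} (x : Matrix (I × J) (I × J) ℂ) (a b : J) : Matrix I I ℂ :=
  fun s t => x (s, a) (t, b)

/-- The tensor product of two star homomorphisms of matrix algebras with commuting ranges. -/
noncomputable def tens {I J : Type*} [Fintype I] [DecidableEq I] [Fintype J] [DecidableEq J]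
    (f : Matrix I I ℂ →⋆ₐ[ℂ] A) (g : Matrix J J ℂ →⋆ₐ[ℂ] A)
    (h : ∀ x y, f x * g y = g y * f x) : Matrix (I × J) (I × J) ℂ →⋆ₐ[ℂ] A :=
  { AlgHom.ofLinearMap
      ({ toFun := fun x => ∑ a, ∑ b, f (blk x a b) * g (Matrix.single a b 1)
         map_add' := by
          intro x y
          simp_rw [← Finset.sum_add_distrib, ← add_mul, ← map_add]
          rfl
         map_smul' := by
          intro c x
          simp only [RingHom.id_apply, Finset.smul_sum]
          refine Finset.sum_congr rfl fun a _ => Finset.sum_congr rfl fun b _ => ?_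
          rw [← smul_mul_assoc, ← map_smul]
          rfl } : Matrix (I × J) (I × J) ℂ →ₗ[ℂ] A)
      (by
        change ∑ a, ∑ b, f (blk (1 : Matrix (I × J) (I × J) ℂ) a b) * g (Matrix.single a b 1) = 1
        have h1 : ∀ a b : J, blk (1 : Matrix (I × J) (I × J) ℂ) a b = if a = b then 1 else 0 := by
          intro a b
          ext s t
          simp only [blk, Matrix.one_apply, Prod.mk.injEq]
          by_cases hab : a = b <;> simp [hab, Matrix.one_apply]
        simp_rw [h1]
        have h2 : ∀ a : J, ∑ b, f (if a = b then (1 : Matrix I I ℂ) else 0) *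
            g (Matrix.single a b 1) = g (Matrix.single a a 1) := by
          intro a
          rw [Finset.sum_eq_single a]
          · simp
          · intro b _ hb
            simp [Ne.symm hb]
          · simp
        simp_rw [h2, ← map_sum]
        rw [Matrix.sum_single_one, map_one])
      (by
        intro x y
        change ∑ a, ∑ b, f (blk (x * y) a b) * g (Matrix.single a b 1) =
          (∑ a, ∑ b, f (blk x a b) * g (Matrix.single a b 1)) *
            (∑ a, ∑ b, f (blk y a b) * g (Matrix.single a b 1))
        have hblk : ∀ a b, blk (x * y) a b = ∑ c, blk x a c * blk y c b := by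
          intro a b
          ext s t
          simp only [blk, Matrix.mul_apply, Matrix.sum_apply, Fintype.sum_prod_type]
          rw [Finset.sum_comm]
        rw [Finset.sum_mul]
        refine Finset.sum_congr rfl fun a _ => ?_
        simp_rw [hblk, map_sum, Finset.sum_mul, Finset.mul_sum, map_mul]
        rw [Finset.sum_comm]
        refine Finset.sum_congr rfl fun c _ => ?_
        have h3 : ∀ c' b, f (blk x a c) * g (Matrix.single a c 1) *
            (f (blk y c' b) * g (Matrix.single c' b 1)) =
            if c = c' then f (blk x a c) * f (blk y c b) * g (Matrix.single a b 1) else 0 := by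
          intro c' b
          have e1 : f (blk x a c) * g (Matrix.single a c 1) *
              (f (blk y c' b) * g (Matrix.single c' b 1)) =
              f (blk x a c) * f (blk y c' b) * g (Matrix.single a c 1 * Matrix.single c' b 1) := by
            rw [map_mul, mul_assoc, ← mul_assoc (g _) (f _), ← h, mul_assoc, mul_assoc]
          rw [e1]
          by_cases hcc : c = c'
          · subst hcc
            rw [Matrix.single_mul_single_same, if_pos rfl, mul_one]
          · rw [Matrix.single_mul_single_of_ne _ _ _ _ hcc, if_neg hcc, map_zero, mul_zero]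
        simp_rw [h3]
        rw [Finset.sum_comm]
        refine Finset.sum_congr rfl fun b _ => ?_
        rw [Finset.sum_ite_eq]
        simp) with
    map_star' := by
      intro x
      change ∑ a, ∑ b, f (blk (star x) a b) * g (Matrix.single a b 1) =
        star (∑ a, ∑ b, f (blk x a b) * g (Matrix.single a b 1))
      simp_rw [star_sum, star_mul]
      rw [Finset.sum_comm]
      refine Finset.sum_congr rfl fun b _ => Finset.sum_congr rfl fun a _ => ?_
      rw [← map_star f, ← map_star g, ← h]
      have e1 : star (blk x b a) = blk (star x) a b := by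
        ext s t
        simp [blk, Matrix.star_apply]
      have e2 : star (Matrix.single b a (1 : ℂ)) = Matrix.single a b 1 := by
        rw [Matrix.star_eq_conjTranspose, Matrix.conjTranspose_single, star_one]
      rw [e1, e2] }

theorem tens_apply {I J : Type*} [Fintype I] [DecidableEq I] [Fintype J] [DecidableEq J]
    (f : Matrix I I ℂ →⋆ₐ[ℂ] A) (g : Matrix J J ℂ →⋆ₐ[ℂ] A)
    (h : ∀ x y, f x * g y = g y * f x) (x : Matrix (I × J) (I × J) ℂ) :
    tens f g h x = ∑ a, ∑ b, f (blk x a b) * g (Matrix.single a b 1) := rfl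


/-- The star homomorphism from the matrices of order one. -/
noncomputable def iotaZero : Matrix (Fin (2 ^ 0)) (Fin (2 ^ 0)) ℂ →⋆ₐ[ℂ] A :=
  { toFun := fun x => algebraMap ℂ A (x 0 0)
    map_one' := by simp
    map_mul' := by
      intro x y
      rw [← map_mul]
      congr 1
      simp only [Matrix.mul_apply]
      exact Fintype.sum_unique (ι := Fin 1) (fun j => x 0 j * y j 0)
    map_zero' := by simp
    map_add' := by intro x y; simp
    commutes' := by
      intro r
      simp [Matrix.algebraMap_matrix_apply]
    map_star' := by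
      intro x
      have h : (star x : Matrix (Fin (2 ^ 0)) (Fin (2 ^ 0)) ℂ) 0 0 = star (x 0 0) := rfl
      rw [h, algebraMap_star_comm] }

/-- Reindexing. -/
noncomputable def reidx {I J : Type*} [Fintype I] [DecidableEq I] [Fintype J] [DecidableEq J]
    (e : I ≃ J) (f : Matrix I I ℂ →⋆ₐ[ℂ] A) : Matrix J J ℂ →⋆ₐ[ℂ] A :=
  { toFun := fun x => f (x.submatrix e e)
    map_one' := by simp
    map_mul' := by
      intro x y
      rw [← map_mul, Matrix.submatrix_mul_equiv]
    map_zero' := by simp
    map_add' := by intro x y; rw [← map_add]; rfl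
    commutes' := by
      intro r
      rw [← AlgHomClass.commutes f r]
      congr 1
      ext i j
      simp [Matrix.algebraMap_matrix_apply]
    map_star' := by
      intro x
      rw [← map_star]
      rfl }

theorem reidx_apply {I J : Type*} [Fintype I] [DecidableEq I] [Fintype J] [DecidableEq J]
    (e : I ≃ J) (f : Matrix I I ℂ →⋆ₐ[ℂ] A) (x : Matrix J J ℂ) :
    reidx e f x = f (x.submatrix e e) := rfl

variable (κ : ℕ → (Matrix (Fin 2) (Fin 2) ℂ →⋆ₐ[ℂ] A))

/-- The star subalgebra generated by the sites in `S`. -/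
noncomputable def Loc (S : Set ℕ) : StarSubalgebra ℂ A :=
  StarAlgebra.adjoin ℂ (⋃ k ∈ S, Set.range (κ k))

variable {κ}

theorem site_mem {S : Set ℕ} {k : ℕ} (hk : k ∈ S) (x : Matrix (Fin 2) (Fin 2) ℂ) :
    κ k x ∈ Loc κ S :=
  StarAlgebra.subset_adjoin ℂ _ (Set.mem_biUnion hk ⟨x, rfl⟩)

theorem Loc_le {S : Set ℕ} {T : StarSubalgebra ℂ A} (h : ∀ k ∈ S, ∀ x, κ k x ∈ T) :
    Loc κ S ≤ T := by
  refine StarAlgebra.adjoin_le ?_
  intro y hy
  obtain ⟨k, hk, x, rfl⟩ := Set.mem_iUnion₂.1 hy
  exact h k hk x

theorem Loc_mono {S T : Set ℕ} (h : S ⊆ T) : Loc κ S ≤ Loc κ T :=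
  Loc_le fun _ hk x => site_mem (h hk) x

/-- The commutant of a star subalgebra. -/
theorem commute_of_sites {S : Set ℕ} {y : A} (h : ∀ k ∈ S, ∀ x, κ k x * y = y * κ k x)
    {z : A} (hz : z ∈ Loc κ S) : z * y = y * z := by
  have h1 : Loc κ S ≤ StarSubalgebra.centralizer ℂ {y} := by
    refine Loc_le fun k hk x => ?_
    rw [StarSubalgebra.mem_centralizer_iff]
    intro g hg
    rw [Set.mem_singleton_iff] at hg
    subst hg
    refine ⟨(h k hk x).symm, ?_⟩
    have h2 := congrArg star (h k hk (star x))
    simp only [star_mul, ← map_star, star_star] at h2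
    exact h2
  have h3 := h1 hz
  rw [StarSubalgebra.mem_centralizer_iff] at h3
  exact ((h3 y rfl).1).symm

theorem commute_of_disjoint (hκ : ∀ k l, k ≠ l → ∀ x y, κ k x * κ l y = κ l y * κ k x)
    {S T : Set ℕ} (hST : Disjoint S T) {y z : A} (hy : y ∈ Loc κ S) (hz : z ∈ Loc κ T) :
    y * z = z * y := by
  refine commute_of_sites (fun k hk x => ?_) hy
  refine (commute_of_sites (fun l hl w => ?_) hz).symm
  refine hκ l k ?_ w x
  rintro rfl
  exact Set.disjoint_left.1 hST hk hl

theorem range_tens {I J : Type*} [Fintype I] [DecidableEq I] [Fintype J] [DecidableEq J]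
    (f : Matrix I I ℂ →⋆ₐ[ℂ] A) (g : Matrix J J ℂ →⋆ₐ[ℂ] A)
    (h : ∀ x y, f x * g y = g y * f x) :
    (tens f g h).range = f.range ⊔ g.range := by
  apply le_antisymm
  · rintro _ ⟨x, rfl⟩
    change tens f g h x ∈ _
    rw [tens_apply]
    refine sum_mem fun a _ => sum_mem fun b _ => mul_mem ?_ ?_
    · have h1 : f (blk x a b) ∈ f.range := ⟨_, rfl⟩
      exact StarSubalgebra.mem_sup_left h1
    · have h1 : g (Matrix.single a b 1) ∈ g.range := ⟨_, rfl⟩
      exact StarSubalgebra.mem_sup_right h1
  · refine sup_le ?_ ?_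
    · rintro _ ⟨x, rfl⟩
      refine ⟨Matrix.kroneckerMap (fun a b => a * b) x (1 : Matrix J J ℂ), ?_⟩
      change tens f g h _ = f x
      rw [tens_apply]
      have h1 : ∀ a b : J, blk (Matrix.kroneckerMap (fun a b => a * b) x (1 : Matrix J J ℂ)) a b
          = if a = b then x else 0 := by
        intro a b
        ext s t
        by_cases hab : a = b <;> simp [blk, hab]
      simp_rw [h1]
      have h2 : ∀ a : J, ∑ b, f (if a = b then x else 0) *
          g (Matrix.single a b 1) = f x * g (Matrix.single a a 1) := by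
        intro a
        rw [Finset.sum_eq_single a]
        · simp
        · intro b _ hb
          simp [Ne.symm hb]
        · simp
      simp_rw [h2, ← Finset.mul_sum, ← map_sum]
      rw [Matrix.sum_single_one, map_one, mul_one]
    · rintro _ ⟨y, rfl⟩
      refine ⟨Matrix.kroneckerMap (fun a b => a * b) (1 : Matrix I I ℂ) y, ?_⟩
      change tens f g h _ = g y
      rw [tens_apply]
      have h1 : ∀ a b : J, blk (Matrix.kroneckerMap (fun a b => a * b) (1 : Matrix I I ℂ) y) a b
          = (y a b) • (1 : Matrix I I ℂ) := by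
        intro a b
        ext s t
        simp [blk, mul_comm]
      simp_rw [h1, map_smul, map_one, smul_mul_assoc, one_mul, ← map_smul, ← map_sum]
      congr 1
      conv_rhs => rw [Matrix.matrix_eq_sum_single y]
      refine Finset.sum_congr rfl fun a _ => Finset.sum_congr rfl fun b _ => ?_
      rw [Matrix.smul_single, smul_eq_mul, mul_one]

theorem range_reidx {I J : Type*} [Fintype I] [DecidableEq I] [Fintype J] [DecidableEq J]
    (e : I ≃ J) (f : Matrix I I ℂ →⋆ₐ[ℂ] A) : (reidx e f).range = f.range := by
  apply le_antisymm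
  · rintro _ ⟨x, rfl⟩
    exact ⟨x.submatrix e e, rfl⟩
  · rintro _ ⟨x, rfl⟩
    refine ⟨x.submatrix e.symm e.symm, ?_⟩
    change reidx e f _ = f x
    rw [reidx_apply]
    congr 1
    ext i j
    simp

theorem exists_iota (hκ : ∀ k l, k ≠ l → ∀ x y, κ k x * κ l y = κ l y * κ k x) (n : ℕ) :
    ∃ f : Matrix (Fin (2 ^ n)) (Fin (2 ^ n)) ℂ →⋆ₐ[ℂ] A, f.range = Loc κ {k | k < n} := by
  induction n with
  | zero =>
    refine ⟨iotaZero, le_antisymm ?_ (Loc_le fun k hk => absurd hk (Nat.not_lt_zero k))⟩
    rintro _ ⟨x, rfl⟩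
    exact (Loc κ {k | k < 0}).algebraMap_mem (x 0 0)
  | succ n ih =>
    obtain ⟨f, hf⟩ := ih
    have hc : ∀ x y, f x * κ n y = κ n y * f x := by
      intro x y
      have h1 : f x ∈ Loc κ {k | k < n} := by rw [← hf]; exact ⟨x, rfl⟩
      exact commute_of_sites (fun k hk z => hκ k n (by exact (ne_of_lt hk)) z y) h1
    refine ⟨reidx (finProdFinEquiv.trans (finCongr (by rw [pow_succ]))) (tens f (κ n) hc), ?_⟩
    rw [range_reidx, range_tens, hf]
    apply le_antisymm
    · refine sup_le (Loc_mono fun k hk => ?_) ?_
      · exact Nat.lt_succ_of_lt hk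
      · rintro _ ⟨x, rfl⟩
        exact site_mem (by simp) x
    · refine Loc_le fun k hk x => ?_
      rcases Nat.lt_succ_iff_lt_or_eq.1 hk with h | h
      · have h1 : κ k x ∈ Loc κ {k | k < n} := site_mem (S := {k | k < n}) h x
        exact StarSubalgebra.mem_sup_left h1
      · subst h
        have h1 : κ k x ∈ (κ k).range := ⟨x, rfl⟩
        exact StarSubalgebra.mem_sup_right h1

end

end Pool.Agent.Hhelper40.RMasa
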