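import Pool.Agent.Hhelper40.RMasa.Local

/-!
# Shifts and decompositions
-/

open Matrix

namespace Pool.Agent.Hhelper40.RMasa

set_option linter.unusedSectionVars false

section

variable {A : Type*} [Ring A] [StarRing A] [Algebra ℂ A] [StarModule ℂ A]
variable {κ : ℕ → (Matrix (Fin 2) (Fin 2) ℂ →⋆ₐ[ℂ] A)}

theorem conj_mem {S : Set ℕ} {T : StarSubalgebra ℂ A} {w : A} (hw : star w * w = 1)
    (hw' : w * star w = 1) (h : ∀ k ∈ S, ∀ x, w * κ k x * star w ∈ T) {y : A}
    (hy : y ∈ Loc κ S) : w * y * star w ∈ T := by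
  induction hy using StarAlgebra.adjoin_induction with
  | mem x hx =>
    obtain ⟨k, hk, x, rfl⟩ := Set.mem_iUnion₂.1 hx
    exact h k hk x
  | algebraMap r =>
    rw [← Algebra.commutes r w, mul_assoc, hw', mul_one]
    exact T.algebraMap_mem r
  | add x y _ _ h1 h2 =>
    rw [mul_add, add_mul]
    exact add_mem h1 h2
  | mul x y _ _ h1 h2 =>
    have : w * (x * y) * star w = (w * x * star w) * (w * y * star w) := by
      calc w * (x * y) * star w = w * x * 1 * y * star w := by simp only [mul_assoc, one_mul]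
        _ = w * x * (star w * w) * y * star w := by rw [hw]
        _ = _ := by simp only [mul_assoc]
    rw [this]
    exact mul_mem h1 h2
  | star x _ h1 =>
    have : w * star x * star w = star (w * x * star w) := by
      simp only [star_mul, star_star, mul_assoc]
    rw [this]
    exact star_mem h1

/-- The swap of two sites. -/
noncomputable def sw (κ : ℕ → (Matrix (Fin 2) (Fin 2) ℂ →⋆ₐ[ℂ] A)) (k l : ℕ) : A :=
  ∑ a, ∑ b, κ k (Matrix.single a b 1) * κ l (Matrix.single b a 1)

theorem star_single (a b : Fin 2) :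
    star (Matrix.single a b (1 : ℂ)) = Matrix.single b a 1 := by
  rw [Matrix.star_eq_conjTranspose, Matrix.conjTranspose_single, star_one]

theorem star_sw (hκ : ∀ k l, k ≠ l → ∀ x y, κ k x * κ l y = κ l y * κ k x) {k l : ℕ}
    (hkl : k ≠ l) : star (sw κ k l) = sw κ k l := by
  simp only [sw, star_sum, star_mul, ← map_star, star_single]
  rw [Finset.sum_comm]
  refine Finset.sum_congr rfl fun a _ => Finset.sum_congr rfl fun b _ => ?_
  rw [hκ l k hkl.symm]

theorem sw_mul_sw (hκ : ∀ k l, k ≠ l → ∀ x y, κ k x * κ l y = κ l y * κ k x) {k l : ℕ}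
    (hkl : k ≠ l) : sw κ k l * sw κ k l = 1 := by
  have h1 : ∀ a b c d : Fin 2, (κ k (Matrix.single a b 1) * κ l (Matrix.single b a 1)) *
      (κ k (Matrix.single c d 1) * κ l (Matrix.single d c 1)) =
      κ k (Matrix.single a b 1 * Matrix.single c d 1) *
        κ l (Matrix.single b a 1 * Matrix.single d c 1) := by
    intro a b c d
    rw [map_mul, map_mul]
    calc _ = κ k (Matrix.single a b 1) * (κ l (Matrix.single b a 1) *
          κ k (Matrix.single c d 1)) * κ l (Matrix.single d c 1) := by simp only [mul_assoc]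
      _ = κ k (Matrix.single a b 1) * (κ k (Matrix.single c d 1) * κ l (Matrix.single b a 1)) *
            κ l (Matrix.single d c 1) := by rw [hκ l k hkl.symm]
      _ = _ := by simp only [mul_assoc]
  have h2 : ∀ a b c d : Fin 2, (κ k (Matrix.single a b 1) * κ l (Matrix.single b a 1)) *
      (κ k (Matrix.single c d 1) * κ l (Matrix.single d c 1)) =
      if b = c then (if a = d then κ k (Matrix.single a a 1) * κ l (Matrix.single b b 1) else 0)
      else 0 := by
    intro a b c d
    rw [h1]
    by_cases hbc : b = c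
    · subst hbc
      rw [if_pos rfl, Matrix.single_mul_single_same, mul_one]
      by_cases had : a = d
      · subst had
        rw [if_pos rfl, Matrix.single_mul_single_same, mul_one]
      · rw [if_neg had, Matrix.single_mul_single_of_ne _ _ _ _ had, map_zero, mul_zero]
    · rw [if_neg hbc, Matrix.single_mul_single_of_ne _ _ _ _ hbc, map_zero, zero_mul]
  have h3 : sw κ k l * sw κ k l = ∑ a, ∑ b, κ k (Matrix.single a a 1) *
      κ l (Matrix.single b b 1) := by
    rw [sw, Finset.sum_mul]
    refine Finset.sum_congr rfl fun a _ => ?_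
    rw [Finset.sum_mul]
    refine Finset.sum_congr rfl fun b _ => ?_
    rw [Finset.mul_sum]
    simp_rw [Finset.mul_sum, h2]
    simp
  rw [h3]
  simp_rw [← Finset.mul_sum, ← map_sum, Matrix.sum_single_one, map_one, mul_one]
  rw [← map_sum, Matrix.sum_single_one, map_one]

theorem sw_mem {S : Set ℕ} {k l : ℕ} (hk : k ∈ S) (hl : l ∈ S) : sw κ k l ∈ Loc κ S :=
  sum_mem fun _ _ => sum_mem fun _ _ => mul_mem (site_mem hk _) (site_mem hl _)

theorem sw_mul_site (hκ : ∀ k l, k ≠ l → ∀ x y, κ k x * κ l y = κ l y * κ k x) {k l : ℕ}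
    (hkl : k ≠ l) (x : Matrix (Fin 2) (Fin 2) ℂ) : sw κ k l * κ k x = κ l x * sw κ k l := by
  have h0 : ∀ c d : Fin 2, sw κ k l * κ k (Matrix.single c d 1) =
      κ l (Matrix.single c d 1) * sw κ k l := by
    intro c d
    have e1 : sw κ k l * κ k (Matrix.single c d 1) =
        ∑ a, κ k (Matrix.single a d 1) * κ l (Matrix.single c a 1) := by
      rw [sw, Finset.sum_mul]
      refine Finset.sum_congr rfl fun a _ => ?_
      rw [Finset.sum_mul, Finset.sum_eq_single c]
      · rw [mul_assoc, hκ l k hkl.symm, ← mul_assoc, ← map_mul, Matrix.single_mul_single_same,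
          mul_one]
      · intro b _ hb
        rw [mul_assoc, hκ l k hkl.symm, ← mul_assoc, ← map_mul,
          Matrix.single_mul_single_of_ne _ _ _ _ hb, map_zero, zero_mul]
      · simp
    have e2 : κ l (Matrix.single c d 1) * sw κ k l =
        ∑ a, κ k (Matrix.single a d 1) * κ l (Matrix.single c a 1) := by
      rw [sw, Finset.mul_sum]
      refine Finset.sum_congr rfl fun a _ => ?_
      rw [Finset.mul_sum, Finset.sum_eq_single d]
      · rw [← mul_assoc, hκ l k hkl.symm, mul_assoc, ← map_mul, Matrix.single_mul_single_same,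
          mul_one]
      · intro b _ hb
        rw [← mul_assoc, hκ l k hkl.symm, mul_assoc, ← map_mul,
          Matrix.single_mul_single_of_ne _ _ _ _ (Ne.symm hb), map_zero, mul_zero]
      · simp
    rw [e1, e2]
  rw [Matrix.matrix_eq_sum_single x]
  have h1 : ∀ c d : Fin 2, Matrix.single c d (x c d) = (x c d) • Matrix.single c d (1 : ℂ) := by
    intro c d
    rw [Matrix.smul_single, smul_eq_mul, mul_one]
  simp_rw [h1, map_sum, map_smul, Finset.mul_sum, Finset.sum_mul, mul_smul_comm, smul_mul_assoc,
    h0]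

theorem sw_conj (hκ : ∀ k l, k ≠ l → ∀ x y, κ k x * κ l y = κ l y * κ k x) {k l : ℕ}
    (hkl : k ≠ l) (x : Matrix (Fin 2) (Fin 2) ℂ) :
    sw κ k l * κ k x * star (sw κ k l) = κ l x := by
  rw [sw_mul_site hκ hkl, star_sw hκ hkl, mul_assoc, sw_mul_sw hκ hkl, mul_one]

theorem exists_shift (hκ : ∀ k l, k ≠ l → ∀ x y, κ k x * κ l y = κ l y * κ k x)
    (n p : ℕ) (L : ℕ) (h : n + L ≤ p) :
    ∃ w ∈ Loc κ ({k | n ≤ k ∧ k < n + L} ∪ {k | p ≤ k ∧ k < p + L}),
      star w * w = 1 ∧ w * star w = 1 ∧
      ∀ y ∈ Loc κ {k | n ≤ k ∧ k < n + L}, w * y * star w ∈ Loc κ {k | p ≤ k ∧ k < p + L} := by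
  induction L with
  | zero =>
    refine ⟨1, one_mem _, by simp, by simp, fun y hy => ?_⟩
    simp only [star_one, mul_one, one_mul, add_zero] at hy ⊢
    refine Loc_mono (fun k hk => ?_) hy
    exact absurd hk.2 (not_lt.2 hk.1)
  | succ L ih =>
    obtain ⟨w, hw, hw1, hw2, hw3⟩ := ih (by omega)
    have hne : n + L ≠ p + L := by omega
    have s1 := star_sw hκ hne
    have s2 := sw_mul_sw hκ hne
    refine ⟨w * sw κ (n + L) (p + L), mul_mem ?_ ?_, ?_, ?_, ?_⟩
    · refine Loc_mono ?_ hw
      rintro k (⟨h1, h2⟩ | ⟨h1, h2⟩)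
      · exact Or.inl ⟨h1, by omega⟩
      · exact Or.inr ⟨h1, by omega⟩
    · exact sw_mem (Or.inl ⟨by omega, by omega⟩) (Or.inr ⟨by omega, by omega⟩)
    · rw [star_mul, s1]
      calc sw κ (n + L) (p + L) * star w * (w * sw κ (n + L) (p + L))
          = sw κ (n + L) (p + L) * (star w * w) * sw κ (n + L) (p + L) := by
            simp only [mul_assoc]
        _ = 1 := by rw [hw1, mul_one, s2]
    · rw [star_mul, s1]
      calc w * sw κ (n + L) (p + L) * (sw κ (n + L) (p + L) * star w)
          = w * (sw κ (n + L) (p + L) * sw κ (n + L) (p + L)) * star w := by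
            simp only [mul_assoc]
        _ = 1 := by rw [s2, mul_one, hw2]
    · intro y hy
      refine conj_mem (S := {k | n ≤ k ∧ k < n + (L + 1)}) ?_ ?_ ?_ hy
      · rw [star_mul, s1]
        calc sw κ (n + L) (p + L) * star w * (w * sw κ (n + L) (p + L))
            = sw κ (n + L) (p + L) * (star w * w) * sw κ (n + L) (p + L) := by
              simp only [mul_assoc]
          _ = 1 := by rw [hw1, mul_one, s2]
      · rw [star_mul, s1]
        calc w * sw κ (n + L) (p + L) * (sw κ (n + L) (p + L) * star w)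
            = w * (sw κ (n + L) (p + L) * sw κ (n + L) (p + L)) * star w := by
              simp only [mul_assoc]
          _ = 1 := by rw [s2, mul_one, hw2]
      · rintro k ⟨hk1, hk2⟩ x
        have e0 : w * sw κ (n + L) (p + L) * κ k x * star (w * sw κ (n + L) (p + L)) =
            w * (sw κ (n + L) (p + L) * κ k x * star (sw κ (n + L) (p + L))) * star w := by
          simp only [star_mul, mul_assoc]
        rw [e0]
        rcases Nat.lt_or_ge k (n + L) with hk | hk
        · have hc : sw κ (n + L) (p + L) * κ k x = κ k x * sw κ (n + L) (p + L) := by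
            have hm : sw κ (n + L) (p + L) ∈ Loc κ {j | j ≠ k} :=
              sw_mem (S := {j | j ≠ k}) (by show n + L ≠ k; omega) (by show p + L ≠ k; omega)
            exact commute_of_sites (fun j hj z => hκ j k hj z x) hm
          rw [hc, s1, mul_assoc (κ k x), s2, mul_one]
          exact Loc_mono (S := {k | p ≤ k ∧ k < p + L}) (T := {k | p ≤ k ∧ k < p + (L + 1)})
            (by rintro j ⟨h1, h2⟩; exact ⟨h1, by omega⟩)
            (hw3 _ (site_mem (S := {k | n ≤ k ∧ k < n + L}) ⟨hk1, hk⟩ x))
        · have hk' : k = n + L := by omega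
          subst hk'
          rw [sw_conj hκ hne]
          have hc : w * κ (p + L) x = κ (p + L) x * w := by
            refine commute_of_sites (fun j hj z => hκ j (p + L) ?_ z x) hw
            rcases hj with ⟨h1, h2⟩ | ⟨h1, h2⟩ <;> omega
          rw [hc, mul_assoc, hw2, mul_one]
          exact site_mem (S := {k | p ≤ k ∧ k < p + (L + 1)}) ⟨by omega, by omega⟩ x

/-- Elements of the algebra of the first `m` sites are sums of products. -/
theorem mem_span_mul (hκ : ∀ k l, k ≠ l → ∀ x y, κ k x * κ l y = κ l y * κ k x)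
    (n : ℕ) {m : ℕ} {c : A} (hc : c ∈ Loc κ {k | k < m}) :
    c ∈ Submodule.span ℂ {z : A | ∃ x ∈ Loc κ {k | k < n}, ∃ y ∈ Loc κ {k | n ≤ k ∧ k < m},
      z = x * y} := by
  have hdisj : Disjoint {k | k < n} {k | n ≤ k ∧ k < m} := by
    rw [Set.disjoint_left]
    rintro k hk ⟨h1, _⟩
    exact absurd hk (not_lt.2 h1)
  induction hc using StarAlgebra.adjoin_induction with
  | mem x hx =>
    obtain ⟨k, hk, x, rfl⟩ := Set.mem_iUnion₂.1 hx
    refine Submodule.subset_span ?_
    rcases Nat.lt_or_ge k n with h | h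
    · exact ⟨κ k x, site_mem (S := {k | k < n}) h x, 1, one_mem _, (mul_one _).symm⟩
    · exact ⟨1, one_mem _, κ k x, site_mem (S := {k | n ≤ k ∧ k < m}) ⟨h, hk⟩ x,
        (one_mul _).symm⟩
  | algebraMap r =>
    refine Submodule.subset_span ⟨algebraMap ℂ A r, StarSubalgebra.algebraMap_mem _ r, 1,
      one_mem _, (mul_one _).symm⟩
  | add x y _ _ h1 h2 => exact add_mem h1 h2
  | mul x y hxx hyy h1 h2 =>
    clear hxx hyy
    induction h1 using Submodule.span_induction with
    | mem x hx =>
      induction h2 using Submodule.span_induction with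
      | mem y hy =>
        obtain ⟨x1, hx1, x2, hx2, rfl⟩ := hx
        obtain ⟨y1, hy1, y2, hy2, rfl⟩ := hy
        refine Submodule.subset_span ⟨x1 * y1, mul_mem hx1 hy1, x2 * y2, mul_mem hx2 hy2, ?_⟩
        calc x1 * x2 * (y1 * y2) = x1 * (x2 * y1) * y2 := by simp only [mul_assoc]
          _ = x1 * (y1 * x2) * y2 := by rw [commute_of_disjoint hκ hdisj hy1 hx2]
          _ = _ := by simp only [mul_assoc]
      | zero => rw [mul_zero]; exact zero_mem _
      | add y z _ _ h1 h2 => rw [mul_add]; exact add_mem h1 h2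
      | smul c y _ h => rw [mul_smul_comm]; exact Submodule.smul_mem _ c h
    | zero => rw [zero_mul]; exact zero_mem _
    | add y z _ _ h1 h2 => rw [add_mul]; exact add_mem h1 h2
    | smul c y _ h => rw [smul_mul_assoc]; exact Submodule.smul_mem _ c h
  | star x hxx h1 =>
    clear hxx
    induction h1 using Submodule.span_induction with
    | mem x hx =>
      obtain ⟨x1, hx1, x2, hx2, rfl⟩ := hx
      refine Submodule.subset_span ⟨star x1, star_mem hx1, star x2, star_mem hx2, ?_⟩
      rw [star_mul]
      exact (commute_of_disjoint hκ hdisj (star_mem hx1) (star_mem hx2)).symm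
    | zero => rw [star_zero]; exact zero_mem _
    | add y z _ _ h1 h2 => rw [star_add]; exact add_mem h1 h2
    | smul c y _ h => rw [star_smul]; exact Submodule.smul_mem _ _ h

end

end Pool.Agent.Hhelper40.RMasa
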