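import Pool.Agent.Hhelper40.RMasa.Top

/-!
# The orbit of the universal masa is not meagre
-/

open scoped InnerProductSpace
open Topology Filter

namespace Pool.Agent.Hhelper40.RMasa

set_option linter.unusedSectionVars false

universe u

variable {H : Type u} [NormedAddCommGroup H] [InnerProductSpace ℂ H] [CompleteSpace H]
variable {M : VonNeumannAlgebra H} {Ω : H}

namespace Sys

variable {S : Sys M Ω}

theorem conj_fr (n : ℕ) (g U : H →L[ℂ] H) (a : Fin (2 ^ n)) :
    g * S.fr n U a * star g = S.fr n (g * U) a := by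
  rw [fr, fr, star_mul]
  simp only [mul_assoc]

theorem conj_rf (n : ℕ) {g : H →L[ℂ] H} (hg : g * star g = 1) (U : H →L[ℂ] H) (a : Fin (2 ^ n)) :
    g * S.rf n U a * star g = S.rf n (g * U) a := by
  rw [rf, rf, mul_sub, sub_mul, mul_smul_comm, smul_mul_assoc, conj_fr, mul_one, hg]

theorem mem_Dg_conj {m : ℕ} {g W c : H →L[ℂ] H} (hg : S.IsU m g) (hW : S.IsU m W)
    (h : g * c * star g ∈ S.Dg m W) : c ∈ S.Dg m (star g * W) := by
  rw [mem_Dg_iff (hg.star.mul hW)]
  obtain ⟨d, hd⟩ := (mem_Dg_iff hW).1 h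
  refine ⟨d, ?_⟩
  rw [star_mul, star_star]
  have : c = star g * (g * c * star g) * g := by
    calc c = (star g * g) * c * (star g * g) := by rw [hg.left, one_mul, mul_one]
      _ = _ := by simp only [mul_assoc]
  rw [this, hd]
  simp only [mul_assoc]

theorem norm_conj_sub_le (hM : IsII1Factor M Ω) {g x : H →L[ℂ] H} (hgM : g ∈ M) (hxM : x ∈ M)
    (hg : star g * g = 1) {ρ : ℝ} (hρ : ‖(g - 1) Ω‖ ≤ ρ) :
    ‖(g * x * star g - x) Ω‖ ≤ 2 * ρ * ‖x‖ := by
  -- g x g^* - x = (g - 1) (x g^*) + x (g^* - 1)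
  have e : g * x * star g - x = (g - 1) * (x * star g) + x * (star g - 1) := by
    noncomm_ring
  have hgs : ‖star g‖ ≤ 1 := by rw [_root_.norm_star]; exact norm_le_one_of_star_mul hg
  have h1 : ‖((g - 1) * (x * star g)) Ω‖ ≤ ‖x‖ * ρ := by
    refine (hM.norm_mul_le (sub_mem hgM (one_mem M)) (mul_mem hxM (star_mem_vn M hgM))).trans ?_
    have h2 : ‖x * star g‖ ≤ ‖x‖ := (norm_mul_le _ _).trans (by
      calc ‖x‖ * ‖star g‖ ≤ ‖x‖ * 1 := mul_le_mul_of_nonneg_left hgs (norm_nonneg _)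
        _ = ‖x‖ := mul_one _)
    exact mul_le_mul h2 hρ (norm_nonneg _) (norm_nonneg _)
  have h3 : ‖(x * (star g - 1)) Ω‖ ≤ ‖x‖ * ρ := by
    have h4 : ‖(star g - 1) Ω‖ = ‖(g - 1) Ω‖ := by
      have : star g - 1 = star (g - 1) := by rw [star_sub, star_one]
      rw [this, hM.norm_star (sub_mem hgM (one_mem M))]
    calc ‖(x * (star g - 1)) Ω‖ = ‖x ((star g - 1) Ω)‖ := rfl
      _ ≤ ‖x‖ * ‖(star g - 1) Ω‖ := x.le_opNorm _
      _ ≤ ‖x‖ * ρ := by rw [h4]; exact mul_le_mul_of_nonneg_left hρ (norm_nonneg _)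
  rw [e, _root_.add_apply]
  refine (norm_add_le _ _).trans ?_
  linarith

end Sys

namespace Chain

open Sys

variable {S : Sys M Ω} (C : Chain S)

/-- Two successive perturbations of a conjugation. -/
theorem norm_two_conj_le (hM : IsII1Factor M Ω) {s t p x : H →L[ℂ] H} (hs : s ∈ M) (ht : t ∈ M)
    (hp : p ∈ M) (hx : x ∈ M) (hs1 : star s * s = 1)
    (ht1 : star t * t = 1) (hp1 : star p * p = 1) (hp2 : p * star p = 1)
    {ρ : ℝ} (hρs : ‖(s - 1) Ω‖ ≤ ρ) (hρt : ‖(t - 1) Ω‖ ≤ ρ) (hρ : 0 ≤ ρ) :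
    ‖(s * (p * (t * x * star t) * star p) * star s - p * x * star p) Ω‖ ≤ 4 * ρ * ‖x‖ := by
  set y := p * (t * x * star t) * star p with hy
  have hyM : y ∈ M := mul_mem (mul_mem hp (mul_mem (mul_mem ht hx) (star_mem_vn M ht)))
    (star_mem_vn M hp)
  have nle : ∀ {g z : H →L[ℂ] H}, star g * g = 1 → ‖g * z * star g‖ ≤ ‖z‖ := by
    intro g z hg
    have h1 : ‖g‖ ≤ 1 := norm_le_one_of_star_mul hg
    have h2 : ‖star g‖ ≤ 1 := by rw [_root_.norm_star]; exact h1
    calc ‖g * z * star g‖ ≤ ‖g * z‖ * ‖star g‖ := norm_mul_le _ _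
      _ ≤ (‖g‖ * ‖z‖) * ‖star g‖ := mul_le_mul_of_nonneg_right (norm_mul_le _ _) (norm_nonneg _)
      _ ≤ (1 * ‖z‖) * 1 := by gcongr
      _ = ‖z‖ := by ring
  have hyn : ‖y‖ ≤ ‖x‖ := (nle hp1).trans (nle ht1)
  have h1 := norm_conj_sub_le hM hs hyM hs1 hρs
  have h2 := norm_conj_sub_le hM ht hx ht1 hρt
  have h3 : y - p * x * star p = p * (t * x * star t - x) * star p := by
    rw [hy, mul_sub, sub_mul]
  have h4 : ‖(y - p * x * star p) Ω‖ ≤ 2 * ρ * ‖x‖ := by
    rw [h3, norm_conj hp1 hp2 hp hM (sub_mem (mul_mem (mul_mem ht hx) (star_mem_vn M ht)) hx)]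
    exact h2
  have e : (s * y * star s - p * x * star p) Ω = (s * y * star s - y) Ω +
      (y - p * x * star p) Ω := by
    simp only [_root_.sub_apply]; abel
  rw [e]
  refine (norm_add_le _ _).trans ?_
  have h5 : 2 * ρ * ‖y‖ ≤ 2 * ρ * ‖x‖ := mul_le_mul_of_nonneg_left hyn (by positivity)
  linarith

/-- The main step of the construction. -/
theorem main_step {A₀ : Masa M} (hA₀ : ∀ l, ∀ x ∈ C.D l, x ∈ A₀.1) (O : Set (Masa M))
    (hO : IsOpen O) (hOd : Dense O) (k : ℕ) (v : H →L[ℂ] H) (hv : S.IsU (C.n k) v) (δ : ℝ)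
    (hδ : 0 < δ) :
    ∃ k' v' δ', k < k' ∧ S.IsU (C.n k') v' ∧ 0 < δ' ∧ δ' ≤ δ / 2 ∧
      Nb M Ω (S.rf (C.n k') (v' * C.U k')) δ' ⊆ O ∧
      (∀ x ∈ S.L (C.n k), ‖(v' * x * star v' - v * x * star v) Ω‖ ≤ δ / 4 * ‖x‖) ∧
      (∀ x ∈ S.L (C.n k), ‖(star v' * x * v' - star v * x * v) Ω‖ ≤ δ / 4 * ‖x‖) := by
  set ρ : ℝ := δ / 16 with hρ
  have hρ0 : 0 < ρ := by positivity
  obtain ⟨ε, hε, hnear⟩ := exists_near S (C.n k) ρ hρ0
  have hvM : v ∈ M := S.L_le_M hv.mem
  have hvU : S.IsU (C.n k) (v * C.U k) := hv.mul (C.isU k)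
  -- a nonempty open set
  set δ₂ : ℝ := min (1 / 2) (ε ^ 2 / 4) with hδ₂
  have hδ₂0 : 0 < δ₂ := lt_min (by norm_num) (by positivity)
  obtain ⟨B₀, -, hB₀⟩ := exists_moves v hv.left hv.right
    (fun x hx => mul_mem (mul_mem hvM hx) (star_mem_vn M hvM))
    (fun x hx => mul_mem (mul_mem (star_mem_vn M hvM) hx) hvM) A₀
  have hB₀mem : B₀ ∈ Nb M Ω (S.rf (C.n k) (v * C.U k)) δ₂ := by
    refine mem_Nb_of_near (fun a => norm_rf_apply hvU a) fun a => ?_
    refine ⟨S.rf (C.n k) (v * C.U k) a, ?_, norm_rf_le hvU a, by simpa using hδ₂0⟩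
    rw [← conj_rf (C.n k) hv.right]
    exact hB₀ _ (hA₀ k _ (rf_mem_Dg (C.isU k) a))
  obtain ⟨B₁, hB₁N, hB₁O⟩ := hOd.inter_open_nonempty _ (isOpen_Nb (M := M) (Ω := Ω)
    (S.rf (C.n k) (v * C.U k)) δ₂) ⟨B₀, hB₀mem⟩
  obtain ⟨m, hm, W₀, hW₀, δ₃, hδ₃, hsub, hnearW⟩ := exists_frame_nhds S
    (Nb M Ω (S.rf (C.n k) (v * C.U k)) δ₂ ∩ O) ((isOpen_Nb _ _).inter hO) ⟨hB₁N, hB₁O⟩
    (S.rf (C.n k) (v * C.U k)) hε (by
      intro a
      obtain ⟨b, hb, hb1, hba⟩ := near_of_mem_Nb S.hM (fun a => norm_rf_apply hvU a) hB₁N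
        (lt_of_le_of_lt (min_le_left _ _) (by norm_num)) a
      refine ⟨b, hb, hb1, ?_⟩
      have h1 : δ₂ ≤ ε ^ 2 / 4 := min_le_right _ _
      have h2 : ‖(b - S.rf (C.n k) (v * C.U k) a) Ω‖ ^ 2 < ε ^ 2 := by
        refine hba.trans_lt ?_
        nlinarith [sq_pos_of_pos hε]
      exact (pow_lt_pow_iff_left₀ (norm_nonneg _) hε.le two_ne_zero).1 h2) (C.n k)
  -- move the frame into the diagonal algebra
  have hvm : S.IsU m v := hv.mono hm
  have hvUm : S.IsU m (v * C.U k) := hvU.mono hm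
  obtain ⟨s, hs, hsρ, hsD⟩ := hnear m hm (v * C.U k) W₀ hvUm hW₀ (by
    intro a
    obtain ⟨c, hc, hca⟩ := hnearW a
    refine ⟨(1 / 2 : ℂ) • (1 + c), StarSubalgebra.smul_mem _ (add_mem (one_mem _) hc) _, ?_⟩
    have e1 : S.fr (C.n k) (v * C.U k) a - (1 / 2 : ℂ) • (1 + c) =
        (1 / 2 : ℂ) • (S.rf (C.n k) (v * C.U k) a - c) := by
      rw [rf]
      have : S.fr (C.n k) (v * C.U k) a =
          (1 / 2 : ℂ) • ((2 : ℂ) • S.fr (C.n k) (v * C.U k) a) := by
        rw [smul_smul]; norm_num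
      conv_lhs => rw [this]
      rw [← smul_sub]
      congr 1
      abel
    rw [e1]
    change ‖(1 / 2 : ℂ) • ((S.rf (C.n k) (v * C.U k) a - c) Ω)‖ ≤ ε
    rw [norm_smul]
    have h5 : ‖(1 / 2 : ℂ)‖ = 1 / 2 := by norm_num
    have h6 : ‖(S.rf (C.n k) (v * C.U k) a - c) Ω‖ = ‖(c - S.rf (C.n k) (v * C.U k) a) Ω‖ := by
      rw [_root_.sub_apply, _root_.sub_apply, norm_sub_rev]
    rw [h5, h6]
    linarith)
  -- absorb
  set V : H →L[ℂ] H := star (s * v) * W₀ with hVdef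
  have hsv : S.IsU m (s * v) := hs.mul hvm
  have hV : S.IsU m V := hsv.star.mul hW₀
  have hfrV : ∀ a, S.fr (C.n k) (C.U k) a ∈ S.Dg m V := by
    intro a
    refine mem_Dg_conj hsv hW₀ ?_
    have e1 : s * v * S.fr (C.n k) (C.U k) a * star (s * v) =
        s * S.fr (C.n k) (v * C.U k) a * star s := by
      rw [← conj_fr, star_mul]
      simp only [mul_assoc]
    rw [e1]
    exact hsD a
  obtain ⟨k', hkk', hmk', w, t, hw, hwc, ht, htρ, htD⟩ := C.universal k m hm V hV hfrV ρ hρ0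
  have hs' : S.IsU (C.n k') s := hs.mono hmk'
  have hv' : S.IsU (C.n k') v := hvm.mono hmk'
  set v' : H →L[ℂ] H := s * v * star w * star t with hv'def
  have hv'U : S.IsU (C.n k') v' := ((hs'.mul hv').mul hw.star).mul ht.star
  have hsv' : star v' = t * w * star v * star s := by
    rw [hv'def]
    simp only [star_mul, star_star, mul_assoc]
  have hfrW : ∀ b, S.fr m W₀ b ∈ S.Dg (C.n k') (v' * C.U k') := by
    intro b
    have h1 := mem_Dg_conj (g := star v') (W := C.U k') (c := S.fr m W₀ b) hv'U.star (C.isU k') (by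
      have e1 : star v' * S.fr m W₀ b * star (star v') = t * (w * S.fr m V b * star w) * star t := by
        rw [star_star, hsv', hv'def, hVdef, ← conj_fr, star_mul]
        simp only [star_star, star_mul, mul_assoc]
      rw [e1]
      exact htD b)
    rw [star_star] at h1
    exact h1
  have hv'Uk : S.IsU (C.n k') (v' * C.U k') := hv'U.mul (C.isU k')
  have hrfW : ∀ b, S.rf m W₀ b ∈ S.Dg (C.n k') (v' * C.U k') := fun b =>
    sub_mem (StarSubalgebra.smul_mem _ (hfrW b) 2) (one_mem _)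
  choose δf hδf0 hδf using fun b => exists_delta hv'Uk (hrfW b) (norm_rf_le hW₀ b) hδ₃
  obtain ⟨δ₄, hδ₄, hδ₄le⟩ : ∃ δ₄ > 0, ∀ b, δ₄ ≤ δf b := by
    have hne : (Finset.univ : Finset (Fin (2 ^ m))).Nonempty := by
      have : Nonempty (Fin (2 ^ m)) := ⟨⟨0, by positivity⟩⟩
      exact Finset.univ_nonempty
    refine ⟨Finset.univ.inf' hne δf, ?_, fun x => Finset.inf'_le _ (Finset.mem_univ x)⟩
    exact (Finset.lt_inf'_iff hne).2 fun x _ => hδf0 x
  refine ⟨k', v', min δ₄ (δ / 2), hkk', hv'U, lt_min hδ₄ (by positivity), min_le_right _ _,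
    ?_, ?_, ?_⟩
  · intro B hB
    refine (hsub ?_).2
    refine mem_Nb_of_near (fun b => norm_rf_apply hW₀ b) fun b => ?_
    refine hδf b B fun a => ?_
    have h1 := hB a
    have h2 : min δ₄ (δ / 2) ≤ δf b := (min_le_left _ _).trans (hδ₄le b)
    linarith
  · intro x hx
    have hxM := S.L_le_M hx
    have htM : t ∈ M := S.L_le_M ht.mem
    have hwM : w ∈ M := S.L_le_M hw.mem
    have hsM : s ∈ M := S.L_le_M hs.mem
    have h1 := norm_two_conj_le (s := s) (t := star t) (p := v * star w) (x := x) S.hM hsM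
      (star_mem_vn M htM) (mul_mem hvM (star_mem_vn M hwM)) hxM hs.left
      ht.star.left (hv'.mul hw.star).left (hv'.mul hw.star).right hsρ (by
        have : star t - 1 = star (t - 1) := by rw [star_sub, star_one]
        rw [this, S.hM.norm_star (sub_mem htM (one_mem M))]
        exact htρ) hρ0.le
    have e1 : s * (v * star w * (star t * x * star (star t)) * star (v * star w)) * star s =
        v' * x * star v' := by
      rw [hsv', hv'def]
      simp only [star_mul, star_star, mul_assoc]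
    have e2 : v * star w * x * star (v * star w) = v * x * star v := by
      have h2 : star w * x * w = x := by
        have := hwc x hx
        calc star w * x * w = star w * (w * x) := by rw [this, mul_assoc]
          _ = x := by rw [← mul_assoc, hw.left, one_mul]
      calc v * star w * x * star (v * star w) = v * (star w * x * w) * star v := by
            simp only [star_mul, star_star, mul_assoc]
        _ = _ := by rw [h2]
    rw [e1, e2] at h1
    refine h1.trans (le_of_eq ?_)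
    rw [hρ]; ring
  · intro x hx
    have hxM := S.L_le_M hx
    have htM : t ∈ M := S.L_le_M ht.mem
    have hwM : w ∈ M := S.L_le_M hw.mem
    have hsM : s ∈ M := S.L_le_M hs.mem
    have h1 := norm_two_conj_le (s := t) (t := star s) (p := w * star v) (x := x) S.hM htM
      (star_mem_vn M hsM) (mul_mem hwM (star_mem_vn M hvM)) hxM ht.left
      hs.star.left (hw.mul hv'.star).left (hw.mul hv'.star).right htρ (by
        have : star s - 1 = star (s - 1) := by rw [star_sub, star_one]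
        rw [this, S.hM.norm_star (sub_mem hsM (one_mem M))]
        exact hsρ) hρ0.le
    have e1 : t * (w * star v * (star s * x * star (star s)) * star (w * star v)) * star t =
        star v' * x * v' := by
      rw [hsv', hv'def]
      simp only [star_mul, star_star, mul_assoc]
    have e2 : w * star v * x * star (w * star v) = star v * x * v := by
      have h3 : star v * x * v ∈ S.L (C.n k) := mul_mem (mul_mem (star_mem hv.mem) hx) hv.mem
      have h2 : w * (star v * x * v) * star w = star v * x * v := by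
        rw [hwc _ h3, mul_assoc, hw.right, mul_one]
      calc w * star v * x * star (w * star v) = w * (star v * x * v) * star w := by
            simp only [star_mul, star_star, mul_assoc]
        _ = _ := h2
    rw [e1, e2] at h1
    refine h1.trans (le_of_eq ?_)
    rw [hρ]; ring

/-- The orbit of the masa of the chain meets every countable intersection of dense open sets. -/
theorem exists_mem_orbit {A₀ : Masa M} (hA₀ : ∀ l, ∀ x ∈ C.D l, x ∈ A₀.1) (O : ℕ → Set (Masa M))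
    (hO : ∀ j, IsOpen (O j)) (hOd : ∀ j, Dense (O j)) : ∃ B ∈ orbit A₀, ∀ j, B ∈ O j := by
  -- the recursion
  obtain ⟨k, v, δ, hvU, hδ0, g1, g4, g5, g6, g7⟩ : ∃ (k : ℕ → ℕ) (v : ℕ → (H →L[ℂ] H))
      (δ : ℕ → ℝ), (∀ j, S.IsU (C.n (k j)) (v j)) ∧ (∀ j, 0 < δ j) ∧ (∀ j, k j < k (j + 1)) ∧
      (∀ j, δ (j + 1) ≤ δ j / 2) ∧
      (∀ j, Nb M Ω (S.rf (C.n (k (j + 1))) (v (j + 1) * C.U (k (j + 1)))) (δ (j + 1)) ⊆ O j) ∧
      (∀ j, ∀ x ∈ S.L (C.n (k j)),
        ‖(v (j + 1) * x * star (v (j + 1)) - v j * x * star (v j)) Ω‖ ≤ δ j / 4 * ‖x‖) ∧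
      (∀ j, ∀ x ∈ S.L (C.n (k j)),
        ‖(star (v (j + 1)) * x * v (j + 1) - star (v j) * x * v j) Ω‖ ≤ δ j / 4 * ‖x‖) := by
    choose! k' v' δ' h1 h2 h3 h4 h5 h6 h7 using fun (j : ℕ) (k : ℕ) (v : H →L[ℂ] H)
      (hv : S.IsU (C.n k) v) (δ : ℝ) (hδ : 0 < δ) =>
      C.main_step hA₀ (O j) (hO j) (hOd j) k v hv δ hδ
    let St := {p : ℕ × (H →L[ℂ] H) × ℝ // S.IsU (C.n p.1) p.2.1 ∧ 0 < p.2.2}
    let seq : ℕ → St := fun j => Nat.rec
      ⟨(0, 1, 1), IsU.one S _, one_pos⟩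
      (fun j p => ⟨(k' j p.1.1 p.1.2.1 p.1.2.2, v' j p.1.1 p.1.2.1 p.1.2.2,
        δ' j p.1.1 p.1.2.1 p.1.2.2), h2 j _ _ p.2.1 _ p.2.2, h3 j _ _ p.2.1 _ p.2.2⟩) j
    have hvU : ∀ j, S.IsU (C.n (seq j).1.1) (seq j).1.2.1 := fun j => (seq j).2.1
    have hδ0 : ∀ j, 0 < (seq j).1.2.2 := fun j => (seq j).2.2
    exact ⟨fun j => (seq j).1.1, fun j => (seq j).1.2.1, fun j => (seq j).1.2.2, hvU, hδ0,
      fun j => h1 j _ _ (hvU j) _ (hδ0 j), fun j => h4 j _ _ (hvU j) _ (hδ0 j),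
      fun j => h5 j _ _ (hvU j) _ (hδ0 j), fun j => h6 j _ _ (hvU j) _ (hδ0 j),
      fun j => h7 j _ _ (hvU j) _ (hδ0 j)⟩
  have kmono : StrictMono k := strictMono_nat_of_lt_succ g1
  have hvM : ∀ j, v j ∈ M := fun j => S.L_le_M (hvU j).mem
  -- summation
  have sum6 : ∀ i, ∀ x ∈ S.L (C.n (k i)), ∀ j ≥ i,
      ‖(v j * x * star (v j) - v i * x * star (v i)) Ω‖ ≤ (δ i - δ j) / 2 * ‖x‖ := by
    intro i x hx j hj
    induction j, hj using Nat.le_induction with
    | base => simp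
    | succ j hj ih =>
      have hxj : x ∈ S.L (C.n (k j)) := S.L_mono (C.n_mono (kmono.monotone hj)) hx
      have e : (v (j + 1) * x * star (v (j + 1)) - v i * x * star (v i)) Ω =
          (v (j + 1) * x * star (v (j + 1)) - v j * x * star (v j)) Ω +
          (v j * x * star (v j) - v i * x * star (v i)) Ω := by
        simp only [_root_.sub_apply]; abel
      rw [e]
      refine (norm_add_le _ _).trans ?_
      have h1 := g6 j x hxj
      have h2 := g4 j
      have h3 : δ j / 4 * ‖x‖ ≤ (δ j - δ (j + 1)) / 2 * ‖x‖ :=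
        mul_le_mul_of_nonneg_right (by linarith) (norm_nonneg _)
      have h4 : (δ j - δ (j + 1)) / 2 * ‖x‖ + (δ i - δ j) / 2 * ‖x‖ =
        (δ i - δ (j + 1)) / 2 * ‖x‖ := by ring
      linarith
  have sum7 : ∀ i, ∀ x ∈ S.L (C.n (k i)), ∀ j ≥ i,
      ‖(star (v j) * x * v j - star (v i) * x * v i) Ω‖ ≤ (δ i - δ j) / 2 * ‖x‖ := by
    intro i x hx j hj
    induction j, hj using Nat.le_induction with
    | base => simp
    | succ j hj ih =>
      have hxj : x ∈ S.L (C.n (k j)) := S.L_mono (C.n_mono (kmono.monotone hj)) hx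
      have e : (star (v (j + 1)) * x * v (j + 1) - star (v i) * x * v i) Ω =
          (star (v (j + 1)) * x * v (j + 1) - star (v j) * x * v j) Ω +
          (star (v j) * x * v j - star (v i) * x * v i) Ω := by
        simp only [_root_.sub_apply]; abel
      rw [e]
      refine (norm_add_le _ _).trans ?_
      have h1 := g7 j x hxj
      have h2 := g4 j
      have h3 : δ j / 4 * ‖x‖ ≤ (δ j - δ (j + 1)) / 2 * ‖x‖ :=
        mul_le_mul_of_nonneg_right (by linarith) (norm_nonneg _)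
      have h4 : (δ j - δ (j + 1)) / 2 * ‖x‖ + (δ i - δ j) / 2 * ‖x‖ =
        (δ i - δ (j + 1)) / 2 * ‖x‖ := by ring
      linarith
  have hδlim : ∀ i, δ i ≤ δ 0 / 2 ^ i := by
    intro i
    induction i with
    | zero => simp
    | succ i ih =>
      refine (g4 i).trans ?_
      rw [pow_succ, ← div_div]
      linarith
  have hδtend : Tendsto δ atTop (𝓝 0) := by
    refine squeeze_zero (fun i => (hδ0 i).le) hδlim ?_
    have h1 : Tendsto (fun i : ℕ => δ 0 * (1 / 2 : ℝ) ^ i) atTop (𝓝 (δ 0 * 0)) :=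
      (tendsto_pow_atTop_nhds_zero_of_lt_one (by norm_num) (by norm_num)).const_mul _
    rw [mul_zero] at h1
    refine h1.congr fun i => ?_
    rw [one_div, inv_pow]
    rfl
  have hlevel : ∀ m, ∃ i₀, ∀ i ≥ i₀, S.L m ≤ S.L (C.n (k i)) := by
    intro m
    refine ⟨m + 1, fun i hi => S.L_mono ?_⟩
    have h1 : m + 1 ≤ k i := hi.trans (kmono.id_le i)
    exact (C.le_n m).trans (C.n_mono h1)
  have cauchy_of : ∀ (f : ℕ → H) (m : ℕ) (K : ℝ), (∀ i, S.L m ≤ S.L (C.n (k i)) → ∀ j ≥ i,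
      ‖f j - f i‖ ≤ δ i / 2 * K) → 0 ≤ K → CauchySeq f := by
    intro f m K hf hK
    rw [Metric.cauchySeq_iff']
    intro ε hε
    obtain ⟨i₀, hi₀⟩ := hlevel m
    have h1 : Tendsto (fun i => δ i / 2 * K) atTop (𝓝 (0 / 2 * K)) :=
      (hδtend.div_const 2).mul_const K
    rw [zero_div, zero_mul] at h1
    obtain ⟨i, hi1, hi2⟩ := ((h1.eventually (gt_mem_nhds hε)).and (eventually_ge_atTop i₀)).exists
    refine ⟨i, fun j hj => ?_⟩
    rw [dist_eq_norm]
    exact (hf i (hi₀ i hi2) j hj).trans_lt hi1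
  obtain ⟨U, hU1, hU2, hUM, hUM', hUlim⟩ := exists_limit S.hM v hvM (fun j => (hvU j).left)
    (fun j => (hvU j).right) {x | ∃ m, x ∈ S.L m} (fun x hx => by
      obtain ⟨m, hm⟩ := hx
      exact S.L_le_M hm) S.dense_local
    (fun x hx => by
      obtain ⟨m, hm⟩ := hx
      refine cauchy_of _ m ‖x‖ (fun i hi j hj => ?_) (norm_nonneg _)
      have h1 := sum6 i x (hi hm) j hj
      rw [_root_.sub_apply] at h1
      refine h1.trans (mul_le_mul_of_nonneg_right ?_ (norm_nonneg _))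
      linarith [hδ0 j])
    (fun x hx => by
      obtain ⟨m, hm⟩ := hx
      refine cauchy_of _ m ‖x‖ (fun i hi j hj => ?_) (norm_nonneg _)
      have h1 := sum7 i x (hi hm) j hj
      rw [_root_.sub_apply] at h1
      refine h1.trans (mul_le_mul_of_nonneg_right ?_ (norm_nonneg _))
      linarith [hδ0 j])
  obtain ⟨B, hB, hBU⟩ := exists_moves U hU1 hU2 hUM hUM' A₀
  refine ⟨B, hB, fun j => g5 j ?_⟩
  set i := j + 1 with hi
  have hviU : S.IsU (C.n (k i)) (v i * C.U (k i)) := (hvU i).mul (C.isU (k i))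
  refine mem_Nb_of_near (fun a => norm_rf_apply hviU a) fun a => ?_
  set x := S.rf (C.n (k i)) (C.U (k i)) a with hx
  have hxD : x ∈ C.D (k i) := rf_mem_Dg (C.isU (k i)) a
  have hxn : ‖x‖ ≤ 1 := norm_rf_le (C.isU (k i)) a
  have hxM : x ∈ M := S.Dg_le_M hxD
  refine ⟨U * x * star U, hBU x (hA₀ _ x hxD), ?_, ?_⟩
  · have n1 : ‖U‖ ≤ 1 := norm_le_one_of_star_mul hU1
    have n2 : ‖star U‖ ≤ 1 := by rw [_root_.norm_star]; exact n1
    calc ‖U * x * star U‖ ≤ ‖U * x‖ * ‖star U‖ := norm_mul_le _ _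
      _ ≤ (‖U‖ * ‖x‖) * ‖star U‖ := mul_le_mul_of_nonneg_right (norm_mul_le _ _) (norm_nonneg _)
      _ ≤ (1 * 1) * 1 := by gcongr
      _ = 1 := by ring
  · rw [← conj_rf (C.n (k i)) (hvU i).right]
    have h1 : Tendsto (fun j => ‖(v j * x * star (v j)) Ω - (v i * x * star (v i)) Ω‖) atTop
        (𝓝 ‖(U * x * star U) Ω - (v i * x * star (v i)) Ω‖) :=
      ((hUlim x hxM).sub_const _).norm
    have h2 : ‖(U * x * star U) Ω - (v i * x * star (v i)) Ω‖ ≤ δ i / 2 := by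
      refine le_of_tendsto h1 ?_
      filter_upwards [eventually_ge_atTop i] with j hj
      have h3 := sum6 i x (S.Dg_le_L hxD) j hj
      rw [_root_.sub_apply] at h3
      refine h3.trans ?_
      calc (δ i - δ j) / 2 * ‖x‖ ≤ δ i / 2 * 1 := by
            apply mul_le_mul _ hxn (norm_nonneg _) (by linarith [hδ0 i])
            linarith [hδ0 j]
        _ = δ i / 2 := mul_one _
    rw [_root_.sub_apply]
    exact h2.trans_lt (by linarith [hδ0 i])

/-- The orbit of the masa of the chain is not meagre. -/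
theorem not_isMeagre_orbit {A₀ : Masa M} (hA₀ : ∀ l, ∀ x ∈ C.D l, x ∈ A₀.1) :
    ¬ IsMeagre (orbit A₀) := by
  intro h
  obtain ⟨T, hT1, hT2, hT3, hT4⟩ := mem_residual_iff.1 h
  obtain ⟨O, hO⟩ := (hT3.insert Set.univ).exists_eq_range (Set.insert_nonempty _ _)
  have hOmem : ∀ j, O j = Set.univ ∨ O j ∈ T := by
    intro j
    have : O j ∈ insert Set.univ T := by rw [hO]; exact ⟨j, rfl⟩
    exact this
  obtain ⟨B, hB, hBO⟩ := C.exists_mem_orbit hA₀ O
    (fun j => by
      rcases hOmem j with h | h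
      · rw [h]; exact isOpen_univ
      · exact hT1 _ h)
    (fun j => by
      rcases hOmem j with h | h
      · rw [h]; exact dense_univ
      · exact hT2 _ h)
  have hBc : B ∈ (orbit A₀)ᶜ := by
    apply hT4
    intro t ht
    have : t ∈ insert Set.univ T := Set.mem_insert_of_mem _ ht
    rw [hO] at this
    obtain ⟨j, rfl⟩ := this
    exact hBO j
  exact hBc hB

end Chain

/-- In the hyperfinite II_1 factor there is a masa whose orbit is not meagre. -/
theorem exists_masa_not_meagre (hM : IsII1Factor M Ω) (hH : IsHyperfinite M) :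
    ∃ A : Masa M, ¬ IsMeagre (orbit A) := by
  obtain ⟨S⟩ := nonempty_sys hM hH
  obtain ⟨C⟩ := nonempty_chain S
  obtain ⟨A, hA⟩ := C.exists_masa
  exact ⟨A, C.not_isMeagre_orbit hA⟩

end Pool.Agent.Hhelper40.RMasa
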