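import Mathlib

/-!
Module MAT for MP_ae6442_lc: finite matrices.
-/

namespace Pool.Agent.Hhelper40.RMasa

open Module.End in
/-- Simultaneous unitary diagonalisation of a commuting family of Hermitian matrices
(any index type `J`). -/
theorem exists_unitary_diag {n : Type*} [Fintype n] [DecidableEq n] {J : Type*}
    (A : J → Matrix n n ℂ) (hA : ∀ j, (A j).IsHermitian) (hc : ∀ j k, A j * A k = A k * A j) :
    ∃ U ∈ Matrix.unitaryGroup n ℂ, ∀ j, ∃ d : n → ℂ, A j = U * Matrix.diagonal d * star U := by
  classical
  set E := EuclideanSpace ℂ n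
  set T : J → E →ₗ[ℂ] E := fun j => Matrix.toEuclideanLin (A j) with hTdef
  have hT : ∀ j, (T j).IsSymmetric := fun j => Matrix.isSymmetric_toEuclideanLin_iff.mpr (hA j)
  have hC : Pairwise (Function.onFun Commute T) := by
    intro j k _
    change T j * T k = T k * T j
    have h1 : T j * T k = Matrix.toEuclideanLin (A j * A k) :=
      (Matrix.toLpLin_mul_same (p := 2) (A j) (A k)).symm
    have h2 : T k * T j = Matrix.toEuclideanLin (A k * A j) :=
      (Matrix.toLpLin_mul_same (p := 2) (A k) (A j)).symm
    rw [h1, h2, hc]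
  set V : (J → ℂ) → Submodule ℂ E := fun χ => ⨅ j, eigenspace (T j) (χ j) with hV
  have hVfam : OrthogonalFamily ℂ (fun χ => V χ) fun χ => (V χ).subtypeₗᵢ :=
    LinearMap.IsSymmetric.orthogonalFamily_iInf_eigenspaces hT
  have htop : ⨆ χ, V χ = ⊤ := LinearMap.IsSymmetric.iSup_iInf_eq_top_of_commute hT hC
  have hfin : Finite {χ // V χ ≠ ⊥} := by
    have := WellFoundedGT.finite_ne_bot_of_iSupIndep hVfam.independent
    exact this
  have : Fintype {χ // V χ ≠ ⊥} := Fintype.ofFinite _
  have hfam' : OrthogonalFamily ℂ (fun χ : {χ // V χ ≠ ⊥} => V χ.1)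
      fun χ : {χ // V χ ≠ ⊥} => (V χ.1).subtypeₗᵢ :=
    hVfam.comp Subtype.val_injective
  have htop' : ⨆ χ : {χ // V χ ≠ ⊥}, V χ.1 = ⊤ := by
    rw [← htop]
    exact iSup_ne_bot_subtype V
  have hint : DirectSum.IsInternal (fun χ : {χ // V χ ≠ ⊥} => V χ.1) := by
    rw [OrthogonalFamily.isInternal_iff hfam', htop', Submodule.top_orthogonal_eq_bot]
  have hcard : Module.finrank ℂ E = Fintype.card n := finrank_euclideanSpace
  set b0 := hint.subordinateOrthonormalBasis hcard hfam' with hb0
  set e : Fin (Fintype.card n) ≃ n := Fintype.equivOfCardEq (Fintype.card_fin _) with he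
  set b : OrthonormalBasis n ℂ E := b0.reindex e with hb
  have hmem : ∀ k : n, ∃ χ : J → ℂ, b k ∈ V χ := by
    intro k
    refine ⟨(hint.subordinateOrthonormalBasisIndex hcard (e.symm k) hfam').1, ?_⟩
    have := hint.subordinateOrthonormalBasis_subordinate hcard (e.symm k) hfam'
    simpa [hb, OrthonormalBasis.reindex_apply] using this
  choose χ hχ using hmem
  set U : Matrix n n ℂ := (EuclideanSpace.basisFun n ℂ).toBasis.toMatrix b.toBasis with hU
  have hUmem : U ∈ Matrix.unitaryGroup n ℂ :=
    (EuclideanSpace.basisFun n ℂ).toMatrix_orthonormalBasis_mem_unitary b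
  have hUapp : ∀ i k, U i k = b k i := fun i k => rfl
  refine ⟨U, hUmem, fun j => ⟨fun k => χ k j, ?_⟩⟩
  have hAU : A j * U = U * Matrix.diagonal (fun k => χ k j) := by
    ext i k
    rw [Matrix.mul_diagonal, Matrix.mul_apply]
    have h1 : b k ∈ eigenspace (T j) (χ k j) := (Submodule.mem_iInf _).1 (hχ k) j
    rw [mem_eigenspace_iff] at h1
    have h2 : (T j (b k)) i = (χ k j • b k) i := by rw [h1]
    have h3 : (T j (b k)) i = ∑ l, A j i l * (b k) l := rfl
    rw [h3] at h2
    simp only [hUapp]
    rw [h2, mul_comm]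
    rfl
  calc A j = A j * (U * star U) := by
        rw [(Matrix.mem_unitaryGroup_iff).1 hUmem, mul_one]
    _ = A j * U * star U := by rw [mul_assoc]
    _ = _ := by rw [hAU]

open Matrix

open scoped ComplexOrder

/-- The squared Frobenius norm. -/
noncomputable def fq {n : Type*} [Fintype n] (A : Matrix n n ℂ) : ℝ := ∑ i, ∑ j, ‖A i j‖ ^ 2

theorem fq_nonneg {n : Type*} [Fintype n] (A : Matrix n n ℂ) : 0 ≤ fq A :=
  Finset.sum_nonneg fun _ _ => Finset.sum_nonneg fun _ _ => by positivity

theorem fq_eq_trace {n : Type*} [Fintype n] (A : Matrix n n ℂ) : (fq A : ℂ) = (star A * A).trace := by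
  unfold fq
  rw [Finset.sum_comm]
  simp only [Matrix.trace, Matrix.diag, Matrix.mul_apply, Matrix.star_apply]
  push_cast
  refine Finset.sum_congr rfl fun j _ => Finset.sum_congr rfl fun i _ => ?_
  rw [← Complex.mul_conj']
  rw [mul_comm]
  rfl

theorem fq_eq_re_trace {n : Type*} [Fintype n] (A : Matrix n n ℂ) : fq A = ((star A * A).trace).re := by
  rw [← fq_eq_trace, Complex.ofReal_re]


theorem exists_good_t {n : Type*} [Fintype n] [DecidableEq n] (X : Matrix n n ℂ) (t0 : ℝ)
    (ht0 : 0 < t0) :
    ∃ t : ℝ, 0 < t ∧ t < t0 ∧ ((1 - (t : ℂ)) • X + (t : ℂ) • (1 : Matrix n n ℂ)).det ≠ 0 := by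
  classical
  set M : Matrix n n (Polynomial ℂ) :=
    X.map Polynomial.C + (Polynomial.X : Polynomial ℂ) • (1 - X).map Polynomial.C with hM
  have hev : ∀ t : ℂ, M.det.eval t = ((1 - t) • X + t • (1 : Matrix n n ℂ)).det := by
    intro t
    have h1 := (Polynomial.evalRingHom t).map_det M
    rw [Polynomial.coe_evalRingHom] at h1
    rw [h1]
    congr 1
    ext i j
    by_cases hij : i = j
    · simp [hM, hij]
      ring
    · simp [hM, hij]
      ring
  have hne : M.det ≠ 0 := by
    intro h
    have := hev 1
    simp [h] at this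
  have hfin : {t : ℝ | M.det.eval (t : ℂ) = 0}.Finite := by
    have h2 : {z : ℂ | M.det.eval z = 0}.Finite := by
      have := M.det.rootSet_finite ℂ
      refine (Multiset.finite_toSet M.det.roots).subset fun z hz => ?_
      simpa [hne] using hz
    exact h2.preimage Complex.ofReal_injective.injOn
  obtain ⟨t, ht, ht'⟩ := ((Set.Ioo_infinite ht0).sdiff hfin).nonempty
  refine ⟨t, ht.1, ht.2, ?_⟩
  rw [← hev]
  exact ht'

/-- Unitary with prescribed commutation and good overlap with a contraction. -/
theorem exists_unitary_overlap {n : Type*} [Fintype n] [DecidableEq n] {J : Type*}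
    (A : J → Matrix n n ℂ) (hA : ∀ j, (A j).IsHermitian)
    (hc : ∀ j k, A j * A k = A k * A j) (X : Matrix n n ℂ) (hX : ∀ j, X * A j = A j * X)
    (hcontr : (1 - star X * X).PosSemidef) (η : ℝ) (hη : 0 < η) :
    ∃ y ∈ unitaryGroup n ℂ, (∀ j, y * A j = A j * y) ∧
      ((star X * X).trace).re - η ≤ ((star X * y).trace).re := by
  classical
  set q : ℝ := fq (X - 1) with hq
  have hq0 : 0 ≤ q := fq_nonneg _
  obtain ⟨t, ht, ht0, hdet⟩ := exists_good_t X (min 1 (η / (q + 1))) (by positivity)
  have ht1 : t < 1 := lt_of_lt_of_le ht0 (min_le_left _ _)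
  have htq : t * q ≤ η := by
    have h1 : t < η / (q + 1) := lt_of_lt_of_le ht0 (min_le_right _ _)
    rw [lt_div_iff₀ (by positivity)] at h1
    nlinarith
  set Y : Matrix n n ℂ := (1 - (t : ℂ)) • X + (t : ℂ) • (1 : Matrix n n ℂ) with hY
  have hYA : ∀ j, Y * A j = A j * Y := by
    intro j
    simp only [hY, add_mul, mul_add, smul_mul_assoc, mul_smul_comm, one_mul, mul_one, hX]
  have hstarY : star Y = (1 - (t : ℂ)) • star X + (t : ℂ) • (1 : Matrix n n ℂ) := by
    simp only [hY, star_add, star_smul, star_one]
    simp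
  have hYA' : ∀ j, star Y * A j = A j * star Y := by
    intro j
    have h1 := congrArg star (hYA j)
    have h2 : star (A j) = A j := hA j
    rw [star_mul, star_mul, h2] at h1
    exact h1.symm
  set H : Matrix n n ℂ := star Y * Y with hH
  have hHherm : H.IsHermitian := by
    change star H = H
    rw [hH, star_mul, star_star]
  have hHA : ∀ j, H * A j = A j * H := by
    intro j
    rw [hH, mul_assoc, hYA, ← mul_assoc, hYA', mul_assoc]
  set B : Option J → Matrix n n ℂ := fun o => o.elim H A with hB
  obtain ⟨V, hV, hVd⟩ := exists_unitary_diag B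
    (by rintro (_ | j); exacts [hHherm, hA j])
    (by
      rintro (_ | j) (_ | k)
      · rfl
      · exact hHA k
      · exact (hHA j).symm
      · exact hc j k)
  have hV1 : V * star V = 1 := mem_unitaryGroup_iff.1 hV
  have hV2 : star V * V = 1 := mem_unitaryGroup_iff'.1 hV
  obtain ⟨d0, hd0⟩ := hVd none
  change H = _ at hd0
  have hVd' : ∀ j, ∃ d : n → ℂ, A j = V * diagonal d * star V := fun j => hVd (some j)
  have hdiag : diagonal d0 = star (Y * V) * (Y * V) := by
    calc diagonal d0 = (star V * V) * diagonal d0 * (star V * V) := by rw [hV2]; simp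
      _ = star V * (V * diagonal d0 * star V) * V := by simp only [mul_assoc]
      _ = star V * H * V := by rw [← hd0]
      _ = star (Y * V) * (Y * V) := by rw [hH, star_mul]; simp only [mul_assoc]
  set l : n → ℝ := fun k => ∑ i, ‖(Y * V) i k‖ ^ 2 with hl
  have hd0l : ∀ k, d0 k = (l k : ℂ) := by
    intro k
    have h1 : (diagonal d0) k k = (star (Y * V) * (Y * V)) k k := by rw [hdiag]
    rw [diagonal_apply_eq, Matrix.mul_apply] at h1
    rw [h1, hl]
    push_cast
    refine Finset.sum_congr rfl fun i _ => ?_
    rw [Matrix.star_apply, ← Complex.mul_conj', mul_comm]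
    rfl
  have hl0 : ∀ k, 0 ≤ l k := fun k => Finset.sum_nonneg fun _ _ => by positivity
  have hlpos : ∀ k, 0 < l k := by
    intro k
    refine lt_of_le_of_ne (hl0 k) fun h => ?_
    have h1 : H.det ≠ 0 := by
      rw [hH, det_mul]
      refine mul_ne_zero ?_ hdet
      have : (star Y).det = star (Y.det) := Matrix.det_conjTranspose Y
      rw [this]
      exact star_ne_zero.2 hdet
    have h2 : (diagonal d0).det = 0 := by
      rw [det_diagonal]
      exact Finset.prod_eq_zero (Finset.mem_univ k) (by rw [hd0l, ← h]; simp)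
    apply h1
    rw [hd0, det_mul, det_mul, h2]
    simp
  have hId : H = (1 - (t : ℂ)) • (star X * X) + (t : ℂ) • 1
      - ((t : ℂ) * (1 - t)) • (star (X - 1) * (X - 1)) := by
    rw [hH, hstarY, hY]
    simp only [star_sub, star_one, add_mul, mul_add, sub_mul, mul_sub, smul_mul_assoc,
      mul_smul_comm, one_mul, mul_one, smul_add, smul_sub, smul_smul]
    module
  have hPS : (1 - H).PosSemidef := by
    have h1 : (1 - H) = ((1 - t : ℝ) : ℂ) • (1 - star X * X)
        + ((t * (1 - t) : ℝ) : ℂ) • (star (X - 1) * (X - 1)) := by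
      rw [hId]
      push_cast
      simp only [smul_sub]
      module
    rw [h1]
    refine (hcontr.smul ?_).add ((posSemidef_conjTranspose_mul_self _).smul ?_)
    · have : (0 : ℝ) ≤ 1 - t := by linarith
      exact_mod_cast this
    · have : (0 : ℝ) ≤ t * (1 - t) := mul_nonneg ht.le (by linarith)
      exact_mod_cast this
  have hl1 : ∀ k, l k ≤ 1 := by
    intro k
    have h1 : (star V * (1 - H) * V).PosSemidef := hPS.conjTranspose_mul_mul_same V
    have h2 : star V * (1 - H) * V = 1 - diagonal d0 := by
      rw [mul_sub, sub_mul, mul_one, hV2, hd0]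
      congr 1
      calc star V * (V * diagonal d0 * star V) * V
          = (star V * V) * diagonal d0 * (star V * V) := by simp only [mul_assoc]
        _ = diagonal d0 := by rw [hV2]; simp
    have h3 := h1.diag_nonneg (i := k)
    rw [h2, Matrix.sub_apply, Matrix.one_apply_eq, diagonal_apply_eq, hd0l] at h3
    have h4 : (0 : ℝ) ≤ 1 - l k := by exact_mod_cast h3
    linarith
  set S : Matrix n n ℂ := V * diagonal (fun k => ((Real.sqrt (l k))⁻¹ : ℂ)) * star V with hS
  have hSstar : star S = S := by
    rw [hS, star_mul, star_mul, star_star, mul_assoc]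
    congr 2
    change (diagonal _)ᴴ = _
    rw [diagonal_conjTranspose]
    congr 1
    ext k
    simp
  have hHS : H * S = V * diagonal (fun k => ((Real.sqrt (l k)) : ℂ)) * star V := by
    rw [hd0, hS]
    calc V * diagonal d0 * star V * (V * diagonal (fun k => ((Real.sqrt (l k))⁻¹ : ℂ)) * star V)
        = V * (diagonal d0 * (star V * V) * diagonal (fun k => ((Real.sqrt (l k))⁻¹ : ℂ)))
          * star V := by simp only [mul_assoc]
      _ = _ := by
        rw [hV2, mul_one, diagonal_mul_diagonal]
        congr 3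
        ext k
        rw [hd0l]
        have : (l k : ℝ) * (Real.sqrt (l k))⁻¹ = Real.sqrt (l k) := by
          have h1 := Real.mul_self_sqrt (hl0 k)
          have h2 : Real.sqrt (l k) ≠ 0 := (Real.sqrt_pos.2 (hlpos k)).ne'
          field_simp
          nlinarith
        exact_mod_cast this
  set y : Matrix n n ℂ := Y * S with hy
  have hyy : star y * y = 1 := by
    rw [hy, star_mul, hSstar]
    calc S * star Y * (Y * S) = S * (H * S) := by rw [hH]; simp only [mul_assoc]
      _ = V * (diagonal (fun k => ((Real.sqrt (l k))⁻¹ : ℂ)) * (star V * V)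
            * diagonal (fun k => ((Real.sqrt (l k)) : ℂ))) * star V := by
          rw [hHS, hS]; simp only [mul_assoc]
      _ = 1 := by
        rw [hV2, mul_one, diagonal_mul_diagonal]
        have : (fun k => ((Real.sqrt (l k))⁻¹ : ℂ) * ((Real.sqrt (l k)) : ℂ)) = fun _ => 1 := by
          ext k
          have h2 : ((Real.sqrt (l k) : ℝ) : ℂ) ≠ 0 := by
            exact_mod_cast (Real.sqrt_pos.2 (hlpos k)).ne'
          field_simp
        rw [this, diagonal_one, mul_one, hV1]
  have hSA : ∀ j, S * A j = A j * S := by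
    intro j
    obtain ⟨d, hd⟩ := hVd' j
    rw [hd, hS]
    calc V * diagonal (fun k => ((Real.sqrt (l k))⁻¹ : ℂ)) * star V * (V * diagonal d * star V)
        = V * (diagonal (fun k => ((Real.sqrt (l k))⁻¹ : ℂ)) * (star V * V) * diagonal d)
          * star V := by simp only [mul_assoc]
      _ = V * (diagonal d * (star V * V) * diagonal (fun k => ((Real.sqrt (l k))⁻¹ : ℂ)))
          * star V := by
          rw [hV2, mul_one, mul_one, diagonal_mul_diagonal, diagonal_mul_diagonal]
          congr 3
          ext k
          ring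
      _ = _ := by simp only [mul_assoc]
  refine ⟨y, mem_unitaryGroup_iff'.2 hyy, fun j => ?_, ?_⟩
  · rw [hy, mul_assoc, hSA, ← mul_assoc, hYA, mul_assoc]
  · have hYy : star Y * y = V * diagonal (fun k => ((Real.sqrt (l k)) : ℂ)) * star V := by
      rw [← hHS, hy, hH]; simp only [mul_assoc]
    have htr1 : ((star Y * y).trace).re = ∑ k, Real.sqrt (l k) := by
      rw [hYy, mul_assoc, trace_mul_comm, mul_assoc, hV2, mul_one, trace_diagonal]
      rw [Complex.re_sum]
      simp
    have htrH : (H.trace).re = ∑ k, l k := by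
      rw [hd0, mul_assoc, trace_mul_comm, mul_assoc, hV2, mul_one, trace_diagonal]
      rw [Complex.re_sum]
      simp [hd0l]
    have htr2 : ((star Y * y).trace).re
        = (1 - t) * ((star X * y).trace).re + t * (y.trace).re := by
      rw [hstarY, add_mul, smul_mul_assoc, smul_mul_assoc, one_mul, trace_add, trace_smul,
        trace_smul]
      simp
    have hyN : (y.trace).re ≤ Fintype.card n := by
      have h1 : fq (y - 1) = 2 * Fintype.card n - 2 * (y.trace).re := by
        rw [fq_eq_re_trace, star_sub, star_one, sub_mul, mul_sub, hyy]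
        simp only [mul_one, one_mul, trace_sub, trace_one, Complex.sub_re]
        have h3 : ((star y).trace).re = (y.trace).re := by
          have : (star y).trace = star (y.trace) := trace_conjTranspose y
          rw [this]
          simp
        rw [h3]
        simp
        ring
      have h2 := fq_nonneg (y - 1)
      linarith
    have htrH2 : (H.trace).re = (1 - t) * ((star X * X).trace).re + t * Fintype.card n
        - t * (1 - t) * q := by
      have e1 : (star (X - 1) * (X - 1)).trace = (q : ℂ) := (fq_eq_trace _).symm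
      have e2 : (star X * X).trace = (fq X : ℂ) := (fq_eq_trace _).symm
      rw [hId, trace_sub, trace_add, trace_smul, trace_smul, trace_smul, e1, e2, trace_one]
      have : ((1 - (t : ℂ)) • (fq X : ℂ) + (t : ℂ) • (Fintype.card n : ℂ)
          - ((t : ℂ) * (1 - t)) • (q : ℂ))
          = (((1 - t) * fq X + t * Fintype.card n - t * (1 - t) * q : ℝ) : ℂ) := by
        push_cast
        simp only [smul_eq_mul]
      rw [this, Complex.ofReal_re, Complex.ofReal_re]
    have hsq : ∑ k, l k ≤ ∑ k, Real.sqrt (l k) := by
      refine Finset.sum_le_sum fun k _ => ?_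
      have h1 := Real.mul_self_sqrt (hl0 k)
      have h2 : Real.sqrt (l k) ≤ 1 := Real.sqrt_le_one.2 (hl1 k)
      have h3 := Real.sqrt_nonneg (l k)
      nlinarith
    have hpos : 0 < 1 - t := by linarith
    have hkey : (1 - t) * (((star X * X).trace).re - t * q) ≤ (1 - t) * ((star X * y).trace).re := by
      nlinarith
    have := le_of_mul_le_mul_left hkey hpos
    linarith

theorem fq_unitary_sub_one {n : Type*} [Fintype n] [DecidableEq n] (y : Matrix n n ℂ)
    (hyy : star y * y = 1) : fq (y - 1) = 2 * Fintype.card n - 2 * (y.trace).re := by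
  rw [fq_eq_re_trace, star_sub, star_one, sub_mul, mul_sub, hyy]
  simp only [mul_one, one_mul, trace_sub, trace_one, Complex.sub_re]
  have h3 : ((star y).trace).re = (y.trace).re := by
    have : (star y).trace = star (y.trace) := trace_conjTranspose y
    rw [this]
    simp
  rw [h3]
  simp
  ring

/-- Square of the normalised Hilbert-Schmidt norm. -/
noncomputable def hs2 {n : Type*} [Fintype n] (A : Matrix n n ℂ) : ℝ :=
  (∑ i, ∑ j, ‖A i j‖ ^ 2) / Fintype.card n

/-- A partition of unity into projections is simultaneously diagonal in some orthonormal basis. -/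
theorem exists_labelling {κ : Type*} [Fintype κ] [DecidableEq κ] {n : Type*} [Fintype n]
    [DecidableEq n] (e : κ → Matrix n n ℂ)
    (he : ∀ a, (e a).IsHermitian) (hid : ∀ a, e a * e a = e a)
    (horth : ∀ a b, a ≠ b → e a * e b = 0) (hsum : ∑ a, e a = 1) :
    ∃ U ∈ unitaryGroup n ℂ, ∃ τ : n → κ, ∀ a,
      e a = U * diagonal (fun k => if τ k = a then (1 : ℂ) else 0) * star U := by
  classical
  obtain ⟨U, hU, hUd⟩ := exists_unitary_diag e he (by
    intro a b
    by_cases hab : a = b
    · rw [hab]
    · rw [horth a b hab, horth b a (Ne.symm hab)])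
  choose d hd using hUd
  have hU1 : U * star U = 1 := mem_unitaryGroup_iff.1 hU
  have hU2 : star U * U = 1 := mem_unitaryGroup_iff'.1 hU
  have hdd : ∀ a, diagonal (d a) = star U * e a * U := by
    intro a
    rw [hd a]
    calc diagonal (d a) = (star U * U) * diagonal (d a) * (star U * U) := by rw [hU2]; simp
      _ = _ := by simp only [mul_assoc]
  have hprod : ∀ a b, diagonal (d a) * diagonal (d b) = star U * (e a * e b) * U := by
    intro a b
    rw [hdd a, hdd b]
    calc star U * e a * U * (star U * e b * U) = star U * e a * (U * star U) * e b * U := by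
          simp only [mul_assoc]
      _ = _ := by rw [hU1]; simp only [mul_assoc, one_mul]
  have h1 : ∀ a k, d a k * d a k = d a k := by
    intro a k
    have := hprod a a
    rw [hid a, ← hdd a, diagonal_mul_diagonal] at this
    exact congrFun (diagonal_injective this) k
  have h2 : ∀ a b k, a ≠ b → d a k * d b k = 0 := by
    intro a b k hab
    have := hprod a b
    rw [horth a b hab, mul_zero, zero_mul, diagonal_mul_diagonal, ← diagonal_zero] at this
    exact congrFun (diagonal_injective this) k
  have h3 : ∀ k, ∑ a, d a k = 1 := by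
    intro k
    have h4 : ∑ a, diagonal (d a) = (1 : Matrix n n ℂ) := by
      calc ∑ a, diagonal (d a) = ∑ a, star U * e a * U := Finset.sum_congr rfl fun a _ => hdd a
        _ = star U * (∑ a, e a) * U := by rw [Finset.mul_sum, Finset.sum_mul]
        _ = 1 := by rw [hsum, mul_one, hU2]
    have h5 := congrFun (congrFun h4 k) k
    rw [Matrix.sum_apply] at h5
    simpa using h5
  have h4 : ∀ k, ∃ a, d a k ≠ 0 := by
    intro k
    by_contra hcon
    push Not at hcon
    have := h3 k
    simp [hcon] at this
  choose τ hτ using h4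
  refine ⟨U, hU, τ, fun a => ?_⟩
  rw [hd a]
  congr 3
  ext k
  by_cases hak : τ k = a
  · rw [if_pos hak]
    have h5 := h1 a k
    have h6 : d a k ≠ 0 := hak ▸ hτ k
    exact mul_left_cancel₀ h6 (by rw [h5, mul_one])
  · rw [if_neg hak]
    have h5 := h2 (τ k) a k hak
    exact (mul_eq_zero.1 h5).resolve_left (hτ k)

/-- Birkhoff step. -/
theorem exists_perm_good {κ : Type*} [Fintype κ] [DecidableEq κ] {n : Type*} [Fintype n]
    [DecidableEq n] (τ : n → κ) (c : κ → n → ℝ) (hc0 : ∀ a k, 0 ≤ c a k)
    (hc1 : ∀ k, ∑ a, c a k = 1) (r : ℝ) (hr : 0 < r) (hcr : ∀ a, ∑ k, c a k = r)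
    (hτr : ∀ a, (((Finset.univ.filter fun k => τ k = a).card : ℕ) : ℝ) = r) :
    ∃ π : Equiv.Perm n, ∑ a, ∑ k, c a k ^ 2 ≤ ∑ l, c (τ l) (π l) := by
  classical
  have hfib : ∀ F : κ → ℝ, ∑ l, F (τ l) = ∑ a, r * F a := by
    intro F
    rw [← Finset.sum_fiberwise (s := Finset.univ) (g := τ)]
    refine Finset.sum_congr rfl fun a _ => ?_
    rw [Finset.sum_congr rfl (g := fun _ => F a) (fun l hl => by
      rw [(Finset.mem_filter.1 hl).2]), Finset.sum_const, nsmul_eq_mul, hτr]
  set D : Matrix n n ℝ := Matrix.of fun l k => c (τ l) k / r with hD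
  have hDs : D ∈ doublyStochastic ℝ n := by
    rw [mem_doublyStochastic_iff_sum]
    refine ⟨fun i j => ?_, fun i => ?_, fun j => ?_⟩
    · exact div_nonneg (hc0 _ _) hr.le
    · simp only [hD, Matrix.of_apply]
      rw [← Finset.sum_div, hcr, div_self hr.ne']
    · simp only [hD, Matrix.of_apply]
      rw [hfib (fun a => c a j / r)]
      have : ∀ a, r * (c a j / r) = c a j := fun a => by field_simp
      simp only [this]
      exact hc1 j
  obtain ⟨w, hw0, hw1, hw2⟩ := exists_eq_sum_perm_of_mem_doublyStochastic hDs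
  have hPhi : ∑ l, ∑ k, c (τ l) k * D l k = ∑ a, ∑ k, c a k ^ 2 := by
    simp only [hD, Matrix.of_apply]
    rw [hfib (fun a => ∑ k, c a k * (c a k / r))]
    refine Finset.sum_congr rfl fun a _ => ?_
    rw [Finset.mul_sum]
    refine Finset.sum_congr rfl fun k _ => ?_
    field_simp
  have hPhi2 : ∑ l, ∑ k, c (τ l) k * D l k = ∑ π : Equiv.Perm n, w π * ∑ l, c (τ l) (π l) := by
    rw [← hw2]
    simp only [Matrix.sum_apply, Matrix.smul_apply, smul_eq_mul, Finset.mul_sum]
    rw [Finset.sum_congr rfl (fun l _ => Finset.sum_comm), Finset.sum_comm]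
    refine Finset.sum_congr rfl fun π _ => Finset.sum_congr rfl fun l _ => ?_
    rw [Finset.sum_eq_single (π l)]
    · simp [PEquiv.toMatrix_apply, Equiv.toPEquiv_apply, mul_comm]
    · intro k _ hk
      simp [PEquiv.toMatrix_apply, Equiv.toPEquiv_apply, hk.symm]
    · simp
  by_contra hcon
  push Not at hcon
  have h1 : ∑ π : Equiv.Perm n, w π * ∑ l, c (τ l) (π l)
      < ∑ π : Equiv.Perm n, w π * ∑ a, ∑ k, c a k ^ 2 := by
    have hex : ∃ π, 0 < w π := by
      by_contra hcon2
      push Not at hcon2
      have : ∑ π, w π ≤ 0 := Finset.sum_nonpos fun π _ => hcon2 π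
      linarith
    obtain ⟨π, hπ⟩ := hex
    refine Finset.sum_lt_sum (fun π _ => mul_le_mul_of_nonneg_left (hcon π).le (hw0 π))
      ⟨π, Finset.mem_univ _, mul_lt_mul_of_pos_left (hcon π) hπ⟩
  rw [← Finset.sum_mul, hw1, one_mul, ← hPhi2, hPhi] at h1
  exact lt_irrefl _ h1

/-- If a partition of unity `e` into projections of equal rank is close to diagonal matrices in the
normalised Hilbert-Schmidt norm, then a unitary close to `1` conjugates it into the diagonal
matrices.  `δ` depends on `κ` and `ε` only, NOT on the size of the matrices. -/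
theorem exists_unitary_near {κ : Type} [Fintype κ] [DecidableEq κ] (ε : ℝ) (hε : 0 < ε) :
    ∃ δ > 0, ∀ (n : Type) [Fintype n] [DecidableEq n] (e : κ → Matrix n n ℂ),
      (∀ a, (e a).IsHermitian) → (∀ a, e a * e a = e a) → (∀ a b, a ≠ b → e a * e b = 0) →
      (∑ a, e a = 1) → (∀ a b, (e a).trace = (e b).trace) →
      (∀ a, ∃ d : n → ℂ, hs2 (e a - Matrix.diagonal d) ≤ δ) →
      ∃ s ∈ Matrix.unitaryGroup n ℂ, hs2 (s - 1) ≤ ε ∧
        ∀ a, ∃ d : n → ℂ, s * e a * star s = Matrix.diagonal d := by
  classical
  refine ⟨ε / (4 * (Fintype.card κ + 1)), by positivity, ?_⟩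
  intro n _ _ e he hid horth hsum htr hnear
  rcases isEmpty_or_nonempty n with hn | hn
  · exact ⟨1, one_mem _, by simp [hs2, hε.le], fun a => ⟨fun _ => 0, Subsingleton.elim _ _⟩⟩
  set N : ℝ := (Fintype.card n : ℝ) with hN
  have hNpos : 0 < N := by
    have : 0 < Fintype.card n := Fintype.card_pos
    rw [hN]
    exact_mod_cast this
  obtain ⟨U, hU, τ, hUτ⟩ := exists_labelling e he hid horth hsum
  have hU1 : U * star U = 1 := mem_unitaryGroup_iff.1 hU
  have hU2 : star U * U = 1 := mem_unitaryGroup_iff'.1 hU
  -- traces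
  set R : κ → ℝ := fun a => (((Finset.univ.filter fun k => τ k = a).card : ℕ) : ℝ) with hR
  have htrR : ∀ a, (e a).trace = (R a : ℂ) := by
    intro a
    rw [hUτ a, mul_assoc, trace_mul_comm, mul_assoc, hU2, mul_one, trace_diagonal]
    rw [Finset.sum_ite]
    simp [hR]
  have hReq : ∀ a b, R a = R b := by
    intro a b
    have := htr a b
    rw [htrR, htrR] at this
    exact_mod_cast this
  obtain ⟨k0⟩ := hn
  set r : ℝ := R (τ k0) with hr
  have hrpos : 0 < r := by
    have : 0 < (Finset.univ.filter fun k => τ k = τ k0).card :=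
      Finset.card_pos.2 ⟨k0, by simp⟩
    change (0 : ℝ) < (((Finset.univ.filter fun k => τ k = τ k0).card : ℕ) : ℝ)
    exact_mod_cast this
  have hRr : ∀ a, R a = r := fun a => hReq a _
  -- the diagonal entries
  have hstar : ∀ a, star (e a) = e a := fun a => he a
  set c : κ → n → ℝ := fun a k => ∑ i, ‖e a i k‖ ^ 2 with hc
  have hc0 : ∀ a k, 0 ≤ c a k := fun a k => Finset.sum_nonneg fun _ _ => by positivity
  have hce : ∀ a k, e a k k = (c a k : ℂ) := by
    intro a k
    have h1 : e a k k = (star (e a) * e a) k k := by rw [hstar, hid]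
    rw [h1, Matrix.mul_apply, hc]
    push_cast
    refine Finset.sum_congr rfl fun i _ => ?_
    rw [Matrix.star_apply, ← Complex.mul_conj', mul_comm]
    rfl
  have hc1 : ∀ k, ∑ a, c a k = 1 := by
    intro k
    have h1 := congrFun (congrFun hsum k) k
    rw [Matrix.sum_apply, Matrix.one_apply_eq] at h1
    simp only [hce] at h1
    exact_mod_cast h1
  have hcr : ∀ a, ∑ k, c a k = r := by
    intro a
    have h1 := htrR a
    rw [Matrix.trace] at h1
    simp only [Matrix.diag, hce] at h1
    rw [← hRr a]
    exact_mod_cast h1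
  obtain ⟨π, hπ⟩ := exists_perm_good τ c hc0 hc1 r hrpos hcr hRr
  set Φ : ℝ := ∑ a, ∑ k, c a k ^ 2 with hΦ
  -- lower bound for Φ
  have hΦ1 : N - Fintype.card κ * (N * (ε / (4 * (Fintype.card κ + 1)))) ≤ Φ := by
    have h1 : ∀ a, ∑ k, c a k - N * (ε / (4 * (Fintype.card κ + 1))) ≤ ∑ k, c a k ^ 2 := by
      intro a
      obtain ⟨d, hd⟩ := hnear a
      rw [hs2, div_le_iff₀ hNpos, Finset.sum_comm] at hd
      have h2 : ∑ k, (c a k - c a k ^ 2) ≤ ∑ k, ∑ i, ‖(e a - diagonal d) i k‖ ^ 2 := by
        refine Finset.sum_le_sum fun k _ => ?_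
        have h3 : c a k = ∑ i ∈ Finset.univ.erase k, ‖e a i k‖ ^ 2 + c a k ^ 2 := by
          conv_lhs => rw [hc]
          simp only
          rw [← Finset.sum_erase_add _ _ (Finset.mem_univ k), hce]
          simp
        have h4 : ∑ i ∈ Finset.univ.erase k, ‖e a i k‖ ^ 2
            ≤ ∑ i, ‖(e a - diagonal d) i k‖ ^ 2 := by
          rw [← Finset.sum_erase_add Finset.univ _ (Finset.mem_univ k)]
          have h5 : ∑ i ∈ Finset.univ.erase k, ‖(e a - diagonal d) i k‖ ^ 2
              = ∑ i ∈ Finset.univ.erase k, ‖e a i k‖ ^ 2 := by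
            refine Finset.sum_congr rfl fun i hi => ?_
            rw [Matrix.sub_apply, diagonal_apply_ne _ (Finset.ne_of_mem_erase hi), sub_zero]
          rw [h5]
          have : 0 ≤ ‖(e a - diagonal d) k k‖ ^ 2 := by positivity
          linarith
        linarith
      rw [Finset.sum_sub_distrib] at h2
      nlinarith
    have h2 : ∑ a, (∑ k, c a k - N * (ε / (4 * (Fintype.card κ + 1)))) ≤ Φ :=
      Finset.sum_le_sum fun a _ => h1 a
    rw [Finset.sum_sub_distrib, Finset.sum_comm] at h2
    simp only [hc1, Finset.sum_const, Finset.card_univ, nsmul_eq_mul, mul_one] at h2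
    exact h2
  -- permuted basis
  set σ : n → κ := fun k => τ (π.symm k) with hσ
  set f : κ → Matrix n n ℂ := fun a => diagonal (fun k => if σ k = a then (1 : ℂ) else 0) with hf
  set W : Matrix n n ℂ := U.submatrix id π.symm with hW
  have hWs : star W = (star U).submatrix π.symm id := rfl
  have hW2 : star W * W = 1 := by
    rw [hWs, hW]
    ext i j
    have := congrFun (congrFun hU2 (π.symm i)) (π.symm j)
    rw [Matrix.mul_apply] at this ⊢
    simp only [submatrix_apply, id]
    rw [this, Matrix.one_apply, Matrix.one_apply]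
    simp
  have hW1 : W * star W = 1 := mul_eq_one_comm.1 hW2
  have heW : ∀ a, e a = W * f a * star W := by
    intro a
    have h1 : f a = (diagonal (fun k => if τ k = a then (1 : ℂ) else 0)).submatrix
        π.symm π.symm := by
      rw [submatrix_diagonal_equiv]
      rfl
    rw [h1, hWs, hW, submatrix_mul_equiv, submatrix_mul_equiv, submatrix_id_id]
    exact hUτ a
  have hWeW : ∀ a, star W * e a * W = f a := by
    intro a
    rw [heW a]
    calc star W * (W * f a * star W) * W = (star W * W) * f a * (star W * W) := by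
          simp only [mul_assoc]
      _ = f a := by rw [hW2, one_mul, mul_one]
  -- the contraction
  set X : Matrix n n ℂ := ∑ a, e a * W * e a with hX
  have hXe : ∀ b, X * e b = e b * W * e b := by
    intro b
    rw [hX, Finset.sum_mul, Finset.sum_eq_single b]
    · rw [mul_assoc, hid]
    · intro a _ hab
      rw [mul_assoc, horth a b hab, mul_zero]
    · simp
  have heX : ∀ b, e b * X = e b * W * e b := by
    intro b
    rw [hX, Finset.mul_sum, Finset.sum_eq_single b]
    · rw [← mul_assoc, ← mul_assoc, hid]
    · intro a _ hab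
      rw [← mul_assoc, ← mul_assoc, horth b a (Ne.symm hab), zero_mul, zero_mul]
    · simp
  have hXstar : star X = ∑ a, e a * star W * e a := by
    rw [hX, star_sum]
    refine Finset.sum_congr rfl fun a _ => ?_
    rw [star_mul, star_mul, hstar, mul_assoc]
  have hXX : star X * X = ∑ a, e a * star W * e a * W * e a := by
    rw [hXstar, Finset.sum_mul]
    refine Finset.sum_congr rfl fun a _ => ?_
    rw [mul_assoc, heX]
    simp only [mul_assoc]
  have hcontr : (1 - star X * X).PosSemidef := by
    have h1 : 1 - star X * X = ∑ a, star ((1 - e a) * W * e a) * ((1 - e a) * W * e a) := by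
      have h2 : (1 : Matrix n n ℂ) = ∑ a, e a * star W * W * e a := by
        rw [← hsum]
        refine Finset.sum_congr rfl fun a _ => ?_
        rw [mul_assoc (e a) (star W) W, hW2, mul_one, hid]
      rw [hXX]
      conv_lhs => rw [h2]
      rw [← Finset.sum_sub_distrib]
      refine Finset.sum_congr rfl fun a _ => ?_
      rw [star_mul, star_mul, star_sub, star_one, hstar]
      have h3 : (1 - e a) * (1 - e a) = 1 - e a := by
        rw [sub_mul, mul_sub, mul_sub, hid]; simp
      calc e a * star W * W * e a - e a * star W * e a * W * e a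
          = e a * star W * (1 - e a) * W * e a := by noncomm_ring
        _ = e a * star W * ((1 - e a) * (1 - e a)) * W * e a := by rw [h3]
        _ = e a * (star W * (1 - e a)) * ((1 - e a) * W * e a) := by simp only [mul_assoc]
    rw [h1]
    exact posSemidef_sum _ fun a _ => posSemidef_conjTranspose_mul_self _
  have htrXX : Φ ≤ ((star X * X).trace).re := by
    have h1 : (star X * X).trace = ∑ a, (e a * f a).trace := by
      rw [hXX, trace_sum]
      refine Finset.sum_congr rfl fun a _ => ?_
      rw [← hWeW a, trace_mul_comm]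
      congr 1
      calc e a * (e a * star W * e a * W) = (e a * e a) * star W * e a * W := by
            simp only [mul_assoc]
        _ = _ := by rw [hid]; simp only [mul_assoc]
    have h2 : ∀ a, (e a * f a).trace = ((∑ k, if σ k = a then c a k else 0 : ℝ) : ℂ) := by
      intro a
      rw [Matrix.trace]
      push_cast
      refine Finset.sum_congr rfl fun k _ => ?_
      rw [Matrix.diag, hf, mul_diagonal, hce]
      split <;> simp
    have h3 : ((star X * X).trace).re = ∑ l, c (τ l) (π l) := by
      rw [h1]
      simp only [h2]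
      rw [← Complex.ofReal_sum, Complex.ofReal_re, Finset.sum_comm]
      simp only [Finset.sum_ite_eq, Finset.mem_univ, if_true]
      rw [← Equiv.sum_comp π]
      refine Finset.sum_congr rfl fun l _ => ?_
      simp [hσ]
    rw [h3]
    exact hπ
  obtain ⟨y, hy, hye, hyX⟩ := exists_unitary_overlap e he (by
    intro a b
    by_cases hab : a = b
    · rw [hab]
    · rw [horth a b hab, horth b a (Ne.symm hab)]) X (fun j => by rw [hXe, heX]) hcontr
    (N * (ε / 4)) (by positivity)
  have hy1 : y * star y = 1 := mem_unitaryGroup_iff.1 hy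
  have hy2 : star y * y = 1 := mem_unitaryGroup_iff'.1 hy
  set s : Matrix n n ℂ := star W * y with hs
  have hs2' : star s * s = 1 := by
    rw [hs, star_mul, star_star]
    calc star y * W * (star W * y) = star y * (W * star W) * y := by simp only [mul_assoc]
      _ = 1 := by rw [hW1, mul_one, hy2]
  have htrs : (star X * y).trace = s.trace := by
    rw [hXstar, Finset.sum_mul, trace_sum]
    have h1 : s = ∑ a, star W * y * e a := by
      rw [← Finset.mul_sum, hsum, mul_one]
    rw [h1, trace_sum]
    refine Finset.sum_congr rfl fun a _ => ?_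
    rw [trace_mul_comm]
    calc (y * (e a * star W * e a)).trace = ((y * e a) * star W * e a).trace := by
          simp only [mul_assoc]
      _ = (e a * ((y * e a) * star W)).trace := by rw [trace_mul_comm]
      _ = ((e a * e a) * y * star W).trace := by rw [hye a]; simp only [mul_assoc]
      _ = (y * e a * star W).trace := by rw [hid, hye]
      _ = (star W * (y * e a)).trace := by rw [trace_mul_comm]
      _ = _ := by simp only [mul_assoc]
  refine ⟨s, mem_unitaryGroup_iff'.2 hs2', ?_, fun a => ?_⟩
  · have h1 : hs2 (s - 1) = fq (s - 1) / N := rfl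
    rw [h1, div_le_iff₀ hNpos, fq_unitary_sub_one s hs2', ← htrs, ← hN]
    have h2 : (Fintype.card κ : ℝ) * (N * (ε / (4 * (Fintype.card κ + 1)))) ≤ N * (ε / 4) := by
      have h3 : (Fintype.card κ : ℝ) * (N * (ε / (4 * (Fintype.card κ + 1))))
          = N * (ε / 4) * ((Fintype.card κ : ℝ) / (Fintype.card κ + 1)) := by
        field_simp
      rw [h3]
      have h4 : (Fintype.card κ : ℝ) / (Fintype.card κ + 1) ≤ 1 := by
        rw [div_le_one (by positivity)]
        linarith
      have h5 : 0 ≤ N * (ε / 4) := by positivity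
      nlinarith
    nlinarith
  · refine ⟨fun k => if σ k = a then (1 : ℂ) else 0, ?_⟩
    change s * e a * star s = f a
    rw [hs, star_mul, star_star]
    calc star W * y * e a * (star y * W) = star W * (y * e a) * star y * W := by
          simp only [mul_assoc]
      _ = star W * e a * (y * star y) * W := by rw [hye]; simp only [mul_assoc]
      _ = f a := by rw [hy1, mul_one, hWeW]

end Pool.Agent.Hhelper40.RMasa
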