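import Pool.Agent.Hhelper40.RMasa.Hyp

/-!
Existence of the hyperfinite II_1 factor in standard form, by an explicit twisted group algebra.
-/

open scoped InnerProductSpace ComplexConjugate

namespace Pool.Agent.Hhelper40.RMasa
namespace Model

/-- The index group: finitely supported sequences of pairs of bits. -/
abbrev G := ℕ →₀ (ZMod 2 × ZMod 2)

/-- The sign character. -/
noncomputable def sgn (x : ZMod 2) : ℂ := if x = 0 then 1 else -1

lemma z2 (x : ZMod 2) : x = 0 ∨ x = 1 := by
  revert x; decide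

lemma sgn_zero : sgn 0 = 1 := by simp [sgn]
lemma sgn_one : sgn 1 = -1 := by
  unfold sgn
  rw [if_neg (by decide)]

lemma sgn_add (x y : ZMod 2) : sgn (x + y) = sgn x * sgn y := by
  rcases z2 x with rfl | rfl <;> rcases z2 y with rfl | rfl
  · simp [sgn_zero]
  · simp [sgn_zero]
  · simp [sgn_zero]
  · have : (1 + 1 : ZMod 2) = 0 := by decide
    rw [this, sgn_zero, sgn_one]; ring

lemma sgn_sq (x : ZMod 2) : sgn x * sgn x = 1 := by
  rcases z2 x with rfl | rfl
  · rw [sgn_zero]; ring
  · rw [sgn_one]; ring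

lemma sgn_conj (x : ZMod 2) : conj (sgn x) = sgn x := by
  rcases z2 x with rfl | rfl
  · rw [sgn_zero]; simp
  · rw [sgn_one]; simp

lemma sgn_norm (x : ZMod 2) : ‖sgn x‖ = 1 := by
  rcases z2 x with rfl | rfl
  · rw [sgn_zero]; simp
  · rw [sgn_one]; simp

/-- The bilinear form. -/
noncomputable def dot (g h : G) : ZMod 2 := g.sum (fun k x => x.2 * (h k).1)

lemma dot_add_left (g g' h : G) : dot (g + g') h = dot g h + dot g' h := by
  unfold dot
  rw [Finsupp.sum_add_index']
  · intro k; simp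
  · intro k x y; simp [add_mul]

lemma dot_add_right (g h h' : G) : dot g (h + h') = dot g h + dot g h' := by
  unfold dot
  rw [← Finsupp.sum_add]
  refine Finsupp.sum_congr fun k _ => ?_
  simp [mul_add]

lemma dot_zero_left (h : G) : dot 0 h = 0 := by simp [dot]
lemma dot_zero_right (g : G) : dot g 0 = 0 := by
  simp [dot, Finsupp.sum]

lemma dot_single_left (k : ℕ) (x : ZMod 2 × ZMod 2) (h : G) :
    dot (Finsupp.single k x) h = x.2 * (h k).1 := by
  unfold dot
  rw [Finsupp.sum_single_index]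
  simp

lemma dot_single_right (g : G) (k : ℕ) (x : ZMod 2 × ZMod 2) :
    dot g (Finsupp.single k x) = (g k).2 * x.1 := by
  unfold dot
  rw [Finsupp.sum, Finset.sum_eq_single k]
  · simp
  · intro j _ hj
    rw [Finsupp.single_apply, if_neg (Ne.symm hj)]
    simp
  · intro hk
    rw [Finsupp.notMem_support_iff] at hk
    simp [hk]

/-- The cocycle. -/
noncomputable def c (g h : G) : ℂ := sgn (dot g h)

lemma c_add_left (g g' h : G) : c (g + g') h = c g h * c g' h := by
  unfold c; rw [dot_add_left, sgn_add]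
lemma c_add_right (g h h' : G) : c g (h + h') = c g h * c g h' := by
  unfold c; rw [dot_add_right, sgn_add]
lemma c_zero_left (h : G) : c 0 h = 1 := by unfold c; rw [dot_zero_left, sgn_zero]
lemma c_zero_right (h : G) : c h 0 = 1 := by unfold c; rw [dot_zero_right, sgn_zero]
lemma c_sq (g h : G) : c g h * c g h = 1 := sgn_sq _
lemma c_conj (g h : G) : conj (c g h) = c g h := sgn_conj _
lemma c_norm (g h : G) : ‖c g h‖ = 1 := sgn_norm _
lemma c_ne (g h : G) : c g h ≠ 0 := by
  intro h0
  have := c_norm g h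
  rw [h0] at this
  simp at this

lemma g_add_self (g : G) : g + g = 0 := by
  ext k
  · simp only [Finsupp.add_apply, Prod.fst_add, Finsupp.coe_zero, Pi.zero_apply, Prod.fst_zero]
    exact CharTwo.add_self_eq_zero _
  · simp only [Finsupp.add_apply, Prod.snd_add, Finsupp.coe_zero, Pi.zero_apply, Prod.snd_zero]
    exact CharTwo.add_self_eq_zero _

lemma g_cancel (g h : G) : g + (g + h) = h := by
  rw [← add_assoc, g_add_self, zero_add]

/-- The Hilbert space. -/
noncomputable abbrev HH : Type := lp (fun _ : G => ℂ) 2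

/-- The standard basis. -/
noncomputable def b : HilbertBasis G ℂ HH := ⟨LinearIsometryEquiv.refl ℂ _⟩

lemma b_inner (g h : G) : ⟪b g, b h⟫_ℂ = if g = h then 1 else 0 := by
  classical
  exact orthonormal_iff_ite.1 b.orthonormal g h

section signed

variable (s : G → ℂ) (hs : ∀ g, ‖s g‖ = 1) (σ : G ≃ G)

include hs in
lemma sb_orth : Orthonormal ℂ (fun g => s g • b (σ g)) := by
  classical
  rw [orthonormal_iff_ite]
  intro g h
  rw [inner_smul_left, inner_smul_right, b_inner]
  by_cases hgh : g = h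
  · subst hgh
    simp only [if_true, mul_one]
    rw [← Complex.normSq_eq_conj_mul_self, Complex.normSq_eq_norm_sq, hs g]
    simp
  · rw [if_neg (fun e => hgh (σ.injective e)), if_neg hgh]
    simp

include hs in
lemma sb_dense : ⊤ ≤ (Submodule.span ℂ (Set.range fun g => s g • b (σ g))).topologicalClosure := by
  have h1 : Submodule.span ℂ (Set.range b) ≤ Submodule.span ℂ (Set.range fun g => s g • b (σ g)) := by
    rw [Submodule.span_le]
    rintro _ ⟨g, rfl⟩
    have hne : s (σ.symm g) ≠ 0 := by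
      intro h0
      have := hs (σ.symm g)
      rw [h0] at this
      simp at this
    have : b g = (s (σ.symm g))⁻¹ • (s (σ.symm g) • b (σ (σ.symm g))) := by
      rw [smul_smul, inv_mul_cancel₀ hne, one_smul, Equiv.apply_symm_apply]
    rw [this]
    exact Submodule.smul_mem _ _ (Submodule.subset_span ⟨σ.symm g, rfl⟩)
  have h2 := Submodule.topologicalClosure_mono h1
  rw [b.dense_span] at h2
  exact h2

/-- A signed permutation of the basis, as a unitary. -/
noncomputable def V : HH ≃ₗᵢ[ℂ] HH :=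
  b.repr.trans (HilbertBasis.mk (sb_orth s hs σ) (sb_dense s hs σ)).repr.symm

lemma V_b (g : G) : V s hs σ (b g) = s g • b (σ g) := by
  classical
  unfold V
  rw [LinearIsometryEquiv.trans_apply, HilbertBasis.repr_self, HilbertBasis.repr_symm_single,
    HilbertBasis.coe_mk]

end signed

/-- Left translations. -/
noncomputable def lamU (g : G) : HH ≃ₗᵢ[ℂ] HH := V (fun h => c g h) (fun h => c_norm g h) (Equiv.addLeft g)
/-- Right translations. -/
noncomputable def rhoU (g : G) : HH ≃ₗᵢ[ℂ] HH := V (fun h => c h g) (fun h => c_norm h g) (Equiv.addLeft g)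

/-- Left translations as operators. -/
noncomputable def lam (g : G) : HH →L[ℂ] HH := ((lamU g).toContinuousLinearEquiv : HH →L[ℂ] HH)
/-- Right translations as operators. -/
noncomputable def rho (g : G) : HH →L[ℂ] HH := ((rhoU g).toContinuousLinearEquiv : HH →L[ℂ] HH)

lemma lam_b (g h : G) : lam g (b h) = c g h • b (g + h) :=
  V_b (fun h => c g h) (fun h => c_norm g h) (Equiv.addLeft g) h
lemma rho_b (g h : G) : rho g (b h) = c h g • b (g + h) :=
  V_b (fun h => c h g) (fun h => c_norm h g) (Equiv.addLeft g) h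

lemma clm_ext {T S : HH →L[ℂ] HH} (h : ∀ g, T (b g) = S (b g)) : T = S := by
  refine ContinuousLinearMap.ext_on (s := Set.range b) ?_ ?_
  · exact Submodule.dense_iff_topologicalClosure_eq_top.2 b.dense_span
  · rintro _ ⟨g, rfl⟩
    exact h g

lemma vec_ext {x y : HH} (h : ∀ g, ⟪b g, x⟫_ℂ = ⟪b g, y⟫_ℂ) : x = y := by
  apply b.repr.injective
  ext g
  rw [b.repr_apply_apply, b.repr_apply_apply, h g]

lemma lam_mul (g h : G) : lam g * lam h = c g h • lam (g + h) := by
  apply clm_ext
  intro k
  rw [mul_apply_eq_comp, smul_apply, lam_b, map_smul, lam_b, lam_b,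
    smul_smul, smul_smul, c_add_right, c_add_left, add_assoc]
  congr 1
  ring

lemma rho_mul (g h : G) : rho g * rho h = c h g • rho (g + h) := by
  apply clm_ext
  intro k
  rw [mul_apply_eq_comp, smul_apply, rho_b, map_smul, rho_b, rho_b,
    smul_smul, smul_smul, c_add_right, c_add_left, add_assoc]
  congr 1
  ring

lemma lam_rho (g h : G) : lam g * rho h = rho h * lam g := by
  apply clm_ext
  intro k
  rw [mul_apply_eq_comp, mul_apply_eq_comp, rho_b, lam_b, map_smul, map_smul,
    rho_b, lam_b, smul_smul, smul_smul, c_add_right, c_add_left, add_left_comm]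
  congr 1
  ring

lemma lam_zero : lam 0 = 1 := by
  apply clm_ext
  intro k
  rw [lam_b, c_zero_left, zero_add, one_smul]; rfl

lemma rho_zero : rho 0 = 1 := by
  apply clm_ext
  intro k
  rw [rho_b, c_zero_right, zero_add, one_smul]; rfl

lemma star_lam (g : G) : star (lam g) = c g g • lam g := by
  have h1 : star (lam g) * lam g = 1 := by
    rw [ContinuousLinearMap.star_eq_adjoint]
    unfold lam
    rw [LinearIsometryEquiv.adjoint_eq_symm]
    ext x : 1
    simp
  have h2 : lam g * lam g = c g g • (1 : HH →L[ℂ] HH) := by rw [lam_mul, g_add_self, lam_zero]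
  calc star (lam g) = star (lam g) * (c g g • (lam g * lam g)) := by
        rw [h2, smul_smul, c_sq, one_smul, mul_one]
    _ = c g g • ((star (lam g) * lam g) * lam g) := by rw [mul_smul_comm, mul_assoc]
    _ = c g g • lam g := by rw [h1, one_mul]

lemma star_rho (g : G) : star (rho g) = c g g • rho g := by
  have h1 : star (rho g) * rho g = 1 := by
    rw [ContinuousLinearMap.star_eq_adjoint]
    unfold rho
    rw [LinearIsometryEquiv.adjoint_eq_symm]
    ext x : 1
    simp
  have h2 : rho g * rho g = c g g • (1 : HH →L[ℂ] HH) := by rw [rho_mul, g_add_self, rho_zero]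
  calc star (rho g) = star (rho g) * (c g g • (rho g * rho g)) := by
        rw [h2, smul_smul, c_sq, one_smul, mul_one]
    _ = c g g • ((star (rho g) * rho g) * rho g) := by rw [mul_smul_comm, mul_assoc]
    _ = c g g • rho g := by rw [h1, one_mul]

lemma coef_rho (h k : G) (z : HH) : ⟪b h, rho k z⟫_ℂ = c (h + k) k * ⟪b (h + k), z⟫_ℂ := by
  have h1 : b h = c (h + k) k • rho k (b (h + k)) := by
    rw [rho_b, smul_smul, c_sq, one_smul, add_comm h k, g_cancel]
  have h2 : ⟪rho k (b (h + k)), rho k z⟫_ℂ = ⟪b (h + k), z⟫_ℂ := (rhoU k).inner_map_map _ _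
  conv_lhs => rw [h1]
  rw [inner_smul_left, h2, c_conj]

lemma coef_lam (h k : G) (z : HH) : ⟪b h, lam k z⟫_ℂ = c k (h + k) * ⟪b (h + k), z⟫_ℂ := by
  have h1 : b h = c k (h + k) • lam k (b (h + k)) := by
    rw [lam_b, smul_smul, c_sq, one_smul, add_comm h k, g_cancel]
  have h2 : ⟪lam k (b (h + k)), lam k z⟫_ℂ = ⟪b (h + k), z⟫_ℂ := (lamU k).inner_map_map _ _
  conv_lhs => rw [h1]
  rw [inner_smul_left, h2, c_conj]

/-- The algebra. -/
noncomputable def MM : VonNeumannAlgebra HH where
  toStarSubalgebra := StarSubalgebra.centralizer ℂ (Set.range rho)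
  centralizer_centralizer' := by
    have h : ((StarSubalgebra.centralizer ℂ (Set.range rho) : StarSubalgebra ℂ (HH →L[ℂ] HH)) :
        Set (HH →L[ℂ] HH)) = (Set.range rho ∪ star (Set.range rho)).centralizer :=
      StarSubalgebra.coe_centralizer _ _
    show Set.centralizer (Set.centralizer ((StarSubalgebra.centralizer ℂ (Set.range rho) :
      StarSubalgebra ℂ (HH →L[ℂ] HH)) : Set (HH →L[ℂ] HH))) = ((StarSubalgebra.centralizer ℂ (Set.range rho) :
      StarSubalgebra ℂ (HH →L[ℂ] HH)) : Set (HH →L[ℂ] HH))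
    rw [h, Set.centralizer_centralizer_centralizer]

lemma mem_MM {T : HH →L[ℂ] HH} : T ∈ MM ↔ ∀ g, rho g * T = T * rho g := by
  have : T ∈ MM ↔ T ∈ StarSubalgebra.centralizer ℂ (Set.range rho) := Iff.rfl
  rw [this, StarSubalgebra.mem_centralizer_iff]
  constructor
  · intro h g
    exact (h _ ⟨g, rfl⟩).1
  · rintro h _ ⟨g, rfl⟩
    refine ⟨h g, ?_⟩
    rw [star_rho, smul_mul_assoc, mul_smul_comm, h g]

lemma lam_mem (g : G) : lam g ∈ MM := mem_MM.2 fun h => (lam_rho g h).symm

lemma MM_b {T : HH →L[ℂ] HH} (hT : T ∈ MM) (k : G) : T (b k) = rho k (T (b 0)) := by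
  have h1 : b k = rho k (b 0) := by rw [rho_b, c_zero_left, one_smul, add_zero]
  have h2 := congrArg (fun S : HH →L[ℂ] HH => S (b 0)) (mem_MM.1 hT k)
  simp only [mul_apply_eq_comp] at h2
  rw [h2, ← h1]

lemma MM_coef {T : HH →L[ℂ] HH} (hT : T ∈ MM) (h k : G) :
    ⟪b h, T (b k)⟫_ℂ = c (h + k) k * ⟪b (h + k), T (b 0)⟫_ℂ := by
  rw [MM_b hT, coef_rho]

lemma comm_b {T : HH →L[ℂ] HH} (hT : ∀ g, lam g * T = T * lam g) (k : G) : T (b k) = lam k (T (b 0)) := by
  have h1 : b k = lam k (b 0) := by rw [lam_b, c_zero_right, one_smul, add_zero]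
  have h2 := congrArg (fun S : HH →L[ℂ] HH => S (b 0)) (hT k)
  simp only [mul_apply_eq_comp] at h2
  rw [h2, ← h1]

lemma comm_coef {T : HH →L[ℂ] HH} (hT : ∀ g, lam g * T = T * lam g) (h k : G) :
    ⟪b h, T (b k)⟫_ℂ = c k (h + k) * ⟪b (h + k), T (b 0)⟫_ℂ := by
  rw [comm_b hT, coef_lam]

lemma inner_comp (T x : HH →L[ℂ] HH) (h k : G) :
    ⟪b h, T (x (b k))⟫_ℂ = ∑' g, ⟪b h, T (b g)⟫_ℂ * ⟪b g, x (b k)⟫_ℂ := by
  rw [← ContinuousLinearMap.adjoint_inner_left, ← b.tsum_inner_mul_inner]
  refine tsum_congr fun g => ?_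
  rw [ContinuousLinearMap.adjoint_inner_left]

/-- The commutation theorem. -/
lemma commutation {T x : HH →L[ℂ] HH} (hT : ∀ g, lam g * T = T * lam g) (hx : x ∈ MM) :
    T * x = x * T := by
  apply clm_ext
  intro k
  apply vec_ext
  intro h
  rw [mul_apply_eq_comp, mul_apply_eq_comp, inner_comp, inner_comp,
    ← Equiv.tsum_eq (Equiv.addLeft (h + k)) (fun g => ⟪b h, x (b g)⟫_ℂ * ⟪b g, T (b k)⟫_ℂ)]
  refine tsum_congr fun g => ?_
  simp only [Equiv.coe_addLeft]
  have t1 := comm_coef hT h g
  have t2 := MM_coef hx g k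
  have t3 := MM_coef hx h (h + k + g)
  have t4 := comm_coef hT (h + k + g) k
  have e1 : h + (h + k + g) = k + g := by rw [add_assoc h k g, g_cancel]
  have e2 : h + k + g + k = h + g := by
    have : h + k + g + k = h + g + (k + k) := by abel
    rw [this, g_add_self, add_zero]
  rw [e1] at t3
  rw [e2] at t4
  rw [add_comm g k] at t2
  rw [t1, t2, t3, t4]
  have e3 : c (k + g) (h + k + g) = c (k + g) k * c (k + g) (h + g) := by
    rw [← c_add_right]; congr 1; abel
  have e4 : c (k + g) (h + g) = c k (h + g) * c g (h + g) := c_add_left _ _ _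
  rw [e3, e4]
  have e5 := c_sq k (h + g)
  linear_combination (- c g (h + g) * ⟪b (h + g), T (b 0)⟫_ℂ * c (k + g) k * ⟪b (k + g), x (b 0)⟫_ℂ) * e5

lemma MM_separating {x : HH →L[ℂ] HH} (hx : x ∈ MM) (h : x (b 0) = 0) : x = 0 := by
  apply clm_ext
  intro k
  rw [MM_b hx, h]; simp

lemma nondeg {g : G} (hg : g ≠ 0) : ∃ h, c h g ≠ c g h := by
  have : ∃ k, g k ≠ 0 := by
    by_contra hc
    push Not at hc
    exact hg (Finsupp.ext hc)
  obtain ⟨k, hk⟩ := this
  have h2 : (1 : ℂ) ≠ -1 := by norm_num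
  by_cases h1 : (g k).1 = 0
  · have h3 : (g k).2 = 1 := by
      rcases z2 (g k).2 with h | h
      · exact absurd (Prod.ext h1 h) hk
      · exact h
    refine ⟨Finsupp.single k (1, 0), ?_⟩
    unfold c
    rw [dot_single_left, dot_single_right, h3]
    simp only [zero_mul, mul_one]
    rw [sgn_zero, sgn_one]
    exact h2
  · have h3 : (g k).1 = 1 := by
      rcases z2 (g k).1 with h | h
      · exact absurd h h1
      · exact h
    refine ⟨Finsupp.single k (0, 1), ?_⟩
    unfold c
    rw [dot_single_left, dot_single_right, h3]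
    simp only [mul_zero, mul_one]
    rw [sgn_zero, sgn_one]
    exact h2.symm

lemma MM_factor {z : HH →L[ℂ] HH} (hz : z ∈ MM) (hc : ∀ x ∈ MM, z * x = x * z) :
    ∃ a : ℂ, z = a • (1 : HH →L[ℂ] HH) := by
  have h1 : ∀ h, lam h (z (b 0)) = rho h (z (b 0)) := by
    intro h
    have e1 := congrArg (fun S : HH →L[ℂ] HH => S (b 0)) (hc _ (lam_mem h))
    simp only [mul_apply_eq_comp] at e1
    rw [← e1, ← MM_b hz, lam_b, c_zero_right, one_smul, add_zero]
  have h2 : ∀ g, g ≠ 0 → ⟪b g, z (b 0)⟫_ℂ = 0 := by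
    intro g hg
    obtain ⟨h, hh⟩ := nondeg hg
    have e1 := congrArg (fun y => ⟪b (h + g), y⟫_ℂ) (h1 h)
    simp only [coef_lam, coef_rho] at e1
    have e2 : h + g + h = g := by rw [add_comm (h + g) h, g_cancel]
    rw [e2] at e1
    have e3 : (c h g - c g h) * ⟪b g, z (b 0)⟫_ℂ = 0 := by rw [sub_mul, e1, sub_self]
    rcases mul_eq_zero.1 e3 with h | h
    · exact absurd (sub_eq_zero.1 h) hh
    · exact h
  refine ⟨⟪b 0, z (b 0)⟫_ℂ, ?_⟩
  have h3 : z - ⟪b 0, z (b 0)⟫_ℂ • (1 : HH →L[ℂ] HH) ∈ MM := by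
    rw [mem_MM]
    intro g
    rw [mul_sub, sub_mul, mem_MM.1 hz g]
    simp
  refine sub_eq_zero.1 (MM_separating h3 ?_)
  apply vec_ext
  intro g
  rw [sub_apply, smul_apply, one_apply_eq_self,
    inner_sub_right, inner_smul_right, b_inner, inner_zero_right]
  by_cases hg : g = 0
  · subst hg; simp
  · rw [if_neg hg, h2 g hg]; simp

lemma MM_trace {x y : HH →L[ℂ] HH} (hx : x ∈ MM) (hy : y ∈ MM) :
    ⟪b 0, x (y (b 0))⟫_ℂ = ⟪b 0, y (x (b 0))⟫_ℂ := by
  rw [inner_comp, inner_comp]
  refine tsum_congr fun g => ?_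
  have t1 := MM_coef hx 0 g
  have t2 := MM_coef hy 0 g
  rw [zero_add] at t1 t2
  rw [t1, t2]
  ring

lemma MM_cyclic : Dense {ξ : HH | ∃ x ∈ MM, x (b 0) = ξ} := by
  have h1 : (Submodule.span ℂ (Set.range b) : Set HH) ⊆ {ξ : HH | ∃ x ∈ MM, x (b 0) = ξ} := by
    intro ξ hξ
    rw [SetLike.mem_coe] at hξ
    induction hξ using Submodule.span_induction with
    | mem x hx =>
      obtain ⟨g, rfl⟩ := hx
      exact ⟨lam g, lam_mem g, by rw [lam_b, c_zero_right, one_smul, add_zero]⟩
    | zero => exact ⟨0, by rw [mem_MM]; intro g; simp, by simp⟩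
    | add x y _ _ hx hy =>
      obtain ⟨S, hS, rfl⟩ := hx
      obtain ⟨T, hT, rfl⟩ := hy
      refine ⟨S + T, ?_, by simp⟩
      rw [mem_MM] at *
      intro g
      rw [mul_add, add_mul, hS, hT]
    | smul a x _ hx =>
      obtain ⟨S, hS, rfl⟩ := hx
      refine ⟨a • S, ?_, by simp⟩
      rw [mem_MM] at *
      intro g
      rw [mul_smul_comm, smul_mul_assoc, hS]
  refine Dense.mono h1 ?_
  rw [Submodule.dense_iff_topologicalClosure_eq_top]
  exact b.dense_span

lemma MM_infinite : ¬ FiniteDimensional ℂ MM.toStarSubalgebra := by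
  intro hfin
  let f : MM.toStarSubalgebra →ₗ[ℂ] HH :=
    { toFun := fun x => (x : HH →L[ℂ] HH) (b 0)
      map_add' := fun x y => by simp
      map_smul' := fun a x => by simp }
  have h1 : FiniteDimensional ℂ (LinearMap.range f) := inferInstance
  have h2 : ∀ g, b g ∈ LinearMap.range f := by
    intro g
    refine ⟨⟨lam g, lam_mem g⟩, ?_⟩
    show lam g (b 0) = b g
    rw [lam_b, c_zero_right, one_smul, add_zero]
  let w : G → LinearMap.range f := fun g => ⟨b g, h2 g⟩
  have h3 : LinearIndependent ℂ w := by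
    apply LinearIndependent.of_comp (LinearMap.range f).subtype
    exact b.orthonormal.linearIndependent
  have h4 : Finite G := h3.finite
  have h5 : Infinite G := by
    refine Infinite.of_injective (fun k : ℕ => (Finsupp.single k ((1, 0) : ZMod 2 × ZMod 2) : G)) ?_
    intro j k hjk
    rcases (Finsupp.single_eq_single_iff _ _ _ _).1 hjk with h | h
    · exact h.1
    · exact absurd h.1 (by decide)
  exact not_finite G

/-! ### Matrix units -/

section mat

variable {A : Type*} [Ring A] [StarRing A] [Algebra ℂ A] [StarModule ℂ A]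

/-- Copy of the 2 by 2 matrices generated by two anticommuting symmetries. -/
noncomputable def pauliFun (X Z : A) (m : Matrix (Fin 2) (Fin 2) ℂ) : A :=
  ((m 0 0 + m 1 1) / 2) • (1 : A) + ((m 0 0 - m 1 1) / 2) • Z + ((m 0 1 + m 1 0) / 2) • X +
    ((m 1 0 - m 0 1) / 2) • (X * Z)

variable {X Z : A} (hX : X * X = 1) (hZ : Z * Z = 1) (hXZ : Z * X = -(X * Z)) (sX : star X = X)
  (sZ : star Z = Z)

/-- The star homomorphism. -/
noncomputable def pauli : Matrix (Fin 2) (Fin 2) ℂ →⋆ₐ[ℂ] A where
  toFun := pauliFun X Z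
  map_one' := by simp [pauliFun]
  map_zero' := by simp [pauliFun]
  map_add' m n := by
    simp only [pauliFun, Matrix.add_apply]
    module
  map_mul' m n := by
    have e1 : Z * (X * Z) = - X := by rw [← mul_assoc, hXZ, neg_mul, mul_assoc, hZ, mul_one]
    have e2 : X * (X * Z) = Z := by rw [← mul_assoc, hX, one_mul]
    have e3 : X * Z * Z = X := by rw [mul_assoc, hZ, mul_one]
    have e4 : X * Z * X = - Z := by rw [mul_assoc, hXZ, mul_neg, ← mul_assoc, hX, one_mul]
    have e5 : X * Z * (X * Z) = -1 := by rw [← mul_assoc, e4, neg_mul, hZ]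
    simp only [pauliFun, Matrix.mul_apply, Fin.sum_univ_two]
    simp only [mul_add, add_mul, smul_mul_assoc, mul_smul_comm, mul_one, one_mul, e1, e2, e3, e4, e5,
      hX, hZ, hXZ]
    module
  commutes' r := by
    simp only [pauliFun, Matrix.algebraMap_matrix_apply]
    simp [Algebra.algebraMap_eq_smul_one]
  map_star' m := by
    simp only [pauliFun, Matrix.star_apply, star_add, star_smul, star_mul, star_one, sX, sZ, hXZ,
      star_div₀]
    simp only [Complex.star_def, map_sub, map_add]
    have : (starRingEnd ℂ) 2 = 2 := map_ofNat _ 2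
    rw [this]
    module

lemma pauli_apply (m : Matrix (Fin 2) (Fin 2) ℂ) : pauli hX hZ hXZ sX sZ m = pauliFun X Z m := rfl

end mat

lemma pauliFun_comm {A : Type*} [Ring A] [Algebra ℂ A] {X Z T : A} (h1 : T * X = X * T) (h2 : T * Z = Z * T)
    (m : Matrix (Fin 2) (Fin 2) ℂ) : T * pauliFun X Z m = pauliFun X Z m * T := by
  have h3 : T * (X * Z) = X * Z * T := by rw [← mul_assoc, h1, mul_assoc, h2, mul_assoc]
  simp only [pauliFun, mul_add, add_mul, smul_mul_assoc, mul_smul_comm, h1, h2, h3, mul_one, one_mul]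

/-- The elementary element with the first bit set. -/
noncomputable def gx (k : ℕ) : G := Finsupp.single k (1, 0)
/-- The elementary element with the second bit set. -/
noncomputable def gz (k : ℕ) : G := Finsupp.single k (0, 1)

lemma c_xx (j k : ℕ) : c (gx j) (gx k) = 1 := by
  unfold c gx; rw [dot_single_left]; simp [sgn_zero]
lemma c_zz (j k : ℕ) : c (gz j) (gz k) = 1 := by
  unfold c gz; rw [dot_single_right]; simp [sgn_zero]
lemma c_xz (j k : ℕ) : c (gx j) (gz k) = 1 := by
  unfold c gx gz; rw [dot_single_left]; simp [sgn_zero]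
lemma c_zx (k : ℕ) : c (gz k) (gx k) = -1 := by
  unfold c gx gz; rw [dot_single_left]; simp [sgn_one]
lemma c_zx' {j k : ℕ} (h : j ≠ k) : c (gz j) (gx k) = 1 := by
  unfold c gx gz; rw [dot_single_left, Finsupp.single_apply, if_neg (Ne.symm h)]; simp [sgn_zero]

lemma lam_comm {g h : G} (hc : c g h = c h g) : lam g * lam h = lam h * lam g := by
  rw [lam_mul, lam_mul, hc, add_comm]

/-- The copies of the 2 by 2 matrices. -/
noncomputable def kap (k : ℕ) : Matrix (Fin 2) (Fin 2) ℂ →⋆ₐ[ℂ] (HH →L[ℂ] HH) :=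
  pauli (X := lam (gx k)) (Z := lam (gz k))
    (by rw [lam_mul, c_xx, g_add_self, lam_zero, one_smul])
    (by rw [lam_mul, c_zz, g_add_self, lam_zero, one_smul])
    (by rw [lam_mul, lam_mul, c_zx, c_xz, add_comm, one_smul, neg_smul, one_smul])
    (by rw [star_lam, c_xx, one_smul])
    (by rw [star_lam, c_zz, one_smul])

lemma kap_apply (k : ℕ) (m : Matrix (Fin 2) (Fin 2) ℂ) : kap k m = pauliFun (lam (gx k)) (lam (gz k)) m := rfl

lemma kap_X (k : ℕ) : kap k !![0, 1; 1, 0] = lam (gx k) := by
  rw [kap_apply]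
  simp [pauliFun]

lemma kap_Z (k : ℕ) : kap k !![1, 0; 0, -1] = lam (gz k) := by
  rw [kap_apply]
  simp [pauliFun]

lemma kap_comm {k l : ℕ} (h : k ≠ l) (x y : Matrix (Fin 2) (Fin 2) ℂ) :
    kap k x * kap l y = kap l y * kap k x := by
  rw [kap_apply, kap_apply]
  refine pauliFun_comm ?_ ?_ y
  · symm
    refine pauliFun_comm ?_ ?_ x
    · exact lam_comm (by rw [c_xx, c_xx])
    · exact lam_comm (by rw [c_xz, c_zx' h])
  · symm
    refine pauliFun_comm ?_ ?_ x
    · exact lam_comm (by rw [c_xz, c_zx' h.symm])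
    · exact lam_comm (by rw [c_zz, c_zz])

lemma comm_all {T : HH →L[ℂ] HH} (hX : ∀ k, lam (gx k) * T = T * lam (gx k))
    (hZ : ∀ k, lam (gz k) * T = T * lam (gz k)) (g : G) : lam g * T = T * lam g := by
  have key : ∀ g h, lam g * T = T * lam g → lam h * T = T * lam h → lam (g + h) * T = T * lam (g + h) := by
    intro g h hg hh
    have e : lam (g + h) = c g h • (lam g * lam h) := by
      rw [lam_mul, smul_smul, c_sq, one_smul]
    rw [e, smul_mul_assoc, mul_smul_comm, mul_assoc, hh, ← mul_assoc, hg, mul_assoc]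
  induction g using Finsupp.induction_linear with
  | zero => rw [lam_zero, one_mul, mul_one]
  | add g h hg hh => exact key g h hg hh
  | single k x =>
    obtain ⟨s, t⟩ := x
    have h0 : (Finsupp.single k (0, 0) : G) = 0 := by
      have : ((0, 0) : ZMod 2 × ZMod 2) = 0 := rfl
      rw [this, Finsupp.single_zero]
    rcases z2 s with rfl | rfl <;> rcases z2 t with rfl | rfl
    · rw [h0, lam_zero, one_mul, mul_one]
    · exact hZ k
    · exact hX k
    · have : (Finsupp.single k (1, 1) : G) = gx k + gz k := by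
        unfold gx gz
        rw [← Finsupp.single_add]
        rfl
      rw [this]
      exact key _ _ (hX k) (hZ k)

lemma centralizer_kap : Set.centralizer (⋃ k, Set.range (kap k)) =
    {T : HH →L[ℂ] HH | ∀ g, lam g * T = T * lam g} := by
  ext T
  rw [Set.mem_centralizer_iff, Set.mem_ofPred_eq]
  constructor
  · intro h
    refine comm_all (fun k => ?_) (fun k => ?_)
    · exact h _ (Set.mem_iUnion.2 ⟨k, ⟨_, kap_X k⟩⟩)
    · exact h _ (Set.mem_iUnion.2 ⟨k, ⟨_, kap_Z k⟩⟩)
  · intro h S hS
    obtain ⟨k, m, rfl⟩ := Set.mem_iUnion.1 hS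
    rw [kap_apply]
    exact (pauliFun_comm (h _).symm (h _).symm m).symm

lemma MM_hyperfinite : IsHyperfinite MM := by
  rw [isHyperfinite_iff]
  refine ⟨kap, fun k l h x y => kap_comm h x y, ?_⟩
  rw [centralizer_kap]
  ext x
  rw [SetLike.mem_coe, Set.mem_centralizer_iff]
  constructor
  · intro hx T hT
    exact commutation hT hx
  · intro h
    rw [mem_MM]
    intro g
    exact h (rho g) (fun k => lam_rho k g)

lemma sep : TopologicalSpace.SeparableSpace HH := by
  have h1 : TopologicalSpace.IsSeparable (Set.range b) := (Set.countable_range b).isSeparable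
  have h2 : TopologicalSpace.IsSeparable (Submodule.span ℂ (Set.range b) : Set HH) := h1.span
  have h3 := h2.closure
  have h4 : closure (Submodule.span ℂ (Set.range b) : Set HH) = Set.univ := by
    have := b.dense_span
    rw [← Submodule.dense_iff_topologicalClosure_eq_top] at this
    exact this.closure_eq
  rw [h4] at h3
  exact TopologicalSpace.isSeparable_univ_iff.1 h3

lemma b_norm : ‖b 0‖ = 1 := b.orthonormal.1 0

end Model

theorem exists_hyperfinite_II1_factor :
    ∃ (H : Type) (_ : NormedAddCommGroup H) (_ : InnerProductSpace ℂ H) (_ : CompleteSpace H)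
      (_ : TopologicalSpace.SeparableSpace H) (M : VonNeumannAlgebra H) (Ω : H),
      IsII1Factor M Ω ∧ IsHyperfinite M :=
  ⟨Model.HH, inferInstance, inferInstance, inferInstance, Model.sep, Model.MM, Model.b 0,
    { norm_one := Model.b_norm
      trace := fun _ hx _ hy => Model.MM_trace hx hy
      cyclic := Model.MM_cyclic
      separating := fun _ hx h => Model.MM_separating hx h
      factor := fun _ hz hc => Model.MM_factor hz hc
      infinite := Model.MM_infinite }, Model.MM_hyperfinite⟩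

end Pool.Agent.Hhelper40.RMasa
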