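import Pool.Agent.Hhelper40.RMasa.Basic

/-!
Module NB for MP_ae6442_lc: neighbourhoods of a masa in the Effros-Marechal topology.
-/

open scoped InnerProductSpace
open Topology Filter

namespace Pool.Agent.Hhelper40.RMasa

universe u

variable {H : Type u} [NormedAddCommGroup H] [InnerProductSpace ℂ H] [CompleteSpace H]
variable {M : VonNeumannAlgebra H} {Ω : H}

/-- Bounded complex families converge along an ultrafilter. -/
theorem exists_lim_ultrafilter {ι : Type*} (𝒰 : Ultrafilter ι) (f : ι → ℂ) (R : ℝ)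
    (hf : ∀ i, ‖f i‖ ≤ R) :
    ∃ z : ℂ, ‖z‖ ≤ R ∧ Tendsto f (𝒰 : Filter ι) (𝓝 z) := by
  obtain ⟨z, hz, hz'⟩ := (isCompact_closedBall (0 : ℂ) R).ultrafilter_le_nhds (𝒰.map f) (by
    rw [le_principal_iff]
    exact Filter.mem_map.2 (Filter.univ_mem' fun i => by simpa using hf i))
  exact ⟨z, by simpa using hz, hz'⟩

theorem exists_lim_ultrafilter_real {ι : Type*} (𝒰 : Ultrafilter ι) (f : ι → ℝ) (R : ℝ)
    (hf : ∀ i, |f i| ≤ R) :
    ∃ z : ℝ, Tendsto f (𝒰 : Filter ι) (𝓝 z) := by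
  obtain ⟨z, hz, hz'⟩ := (isCompact_closedBall (0 : ℝ) R).ultrafilter_le_nhds (𝒰.map f) (by
    rw [le_principal_iff]
    exact Filter.mem_map.2 (Filter.univ_mem' fun i => by simpa using hf i))
  exact ⟨z, hz'⟩

/-- Weak operator compactness of the unit ball, along an ultrafilter. -/
theorem exists_weak_limit {ι : Type*} (𝒰 : Ultrafilter ι) (c : ι → (H →L[ℂ] H))
    (hc : ∀ i, ‖c i‖ ≤ 1) :
    ∃ y : H →L[ℂ] H, ‖y‖ ≤ 1 ∧
      ∀ ξ η, Tendsto (fun i => ⟪ξ, (c i) η⟫_ℂ) (𝒰 : Filter ι) (𝓝 ⟪ξ, y η⟫_ℂ) := by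
  have hex : ∀ v w : H, ∃ z : ℂ, ‖z‖ ≤ 1 * ‖v‖ * ‖w‖ ∧
      Tendsto (fun i => ⟪(c i) v, w⟫_ℂ) (𝒰 : Filter ι) (𝓝 z) := by
    intro v w
    refine exists_lim_ultrafilter 𝒰 _ _ fun i => ?_
    calc ‖⟪(c i) v, w⟫_ℂ‖ ≤ ‖(c i) v‖ * ‖w‖ := norm_inner_le_norm _ _
      _ ≤ (1 * ‖v‖) * ‖w‖ := by
          gcongr
          exact ((c i).le_opNorm v).trans (mul_le_mul_of_nonneg_right (hc i) (norm_nonneg _))
  choose B hBn hB using hex
  set L : H →ₗ⋆[ℂ] H →ₗ[ℂ] ℂ := LinearMap.mk₂'ₛₗ (starRingEnd ℂ) (RingHom.id ℂ) B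
    (by
      intro v v' w
      refine tendsto_nhds_unique (hB (v + v') w) ?_
      have := (hB v w).add (hB v' w)
      simpa [inner_add_left] using this)
    (by
      intro a v w
      refine tendsto_nhds_unique (hB (a • v) w) ?_
      have := (hB v w).const_mul (starRingEnd ℂ a)
      simpa [inner_smul_left, mul_comm] using this)
    (by
      intro v w w'
      refine tendsto_nhds_unique (hB v (w + w')) ?_
      have := (hB v w).add (hB v w')
      simpa [inner_add_right] using this)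
    (by
      intro a v w
      refine tendsto_nhds_unique (hB v (a • w)) ?_
      have := (hB v w).const_mul a
      simpa [inner_smul_right] using this) with hL
  set Bc : H →L⋆[ℂ] H →L[ℂ] ℂ := L.mkContinuous₂ 1 (fun v w => hBn v w) with hBc
  have hy : ∀ v w, ⟪(InnerProductSpace.continuousLinearMapOfBilin Bc) v, w⟫_ℂ = B v w := by
    intro v w
    rw [InnerProductSpace.continuousLinearMapOfBilin_apply]
    rfl
  refine ⟨InnerProductSpace.continuousLinearMapOfBilin Bc, ?_, ?_⟩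
  · refine ContinuousLinearMap.opNorm_le_bound _ zero_le_one fun v => ?_
    set y := InnerProductSpace.continuousLinearMapOfBilin Bc
    have h1 : ‖y v‖ ^ 2 ≤ 1 * ‖v‖ * ‖y v‖ := by
      have h2 := hBn v (y v)
      rw [← hy] at h2
      have h3 : ‖⟪y v, y v⟫_ℂ‖ = ‖y v‖ ^ 2 := by
        rw [inner_self_eq_norm_sq_to_K]
        simp
      rwa [h3] at h2
    rcases eq_or_lt_of_le (norm_nonneg (y v)) with h0 | h0
    · rw [← h0]; positivity
    · nlinarith
  · intro ξ η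
    have h1 := hB η ξ
    rw [← hy] at h1
    have h2 := (Complex.continuous_conj.tendsto _).comp h1
    have h3 : (fun i => ⟪ξ, (c i) η⟫_ℂ) = (starRingEnd ℂ) ∘ fun i => ⟪(c i) η, ξ⟫_ℂ := by
      ext i
      exact (inner_conj_symm _ _).symm
    rw [h3, ← inner_conj_symm]
    exact h2

/-- Normal functionals are continuous along bounded weakly convergent families. -/
theorem IsNormalFunctional.tendsto {φ : (H →L[ℂ] H) →L[ℂ] ℂ} (hφ : IsNormalFunctional φ)
    {ι : Type*} {l : Filter ι} {x : ι → (H →L[ℂ] H)} {y : H →L[ℂ] H}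
    (hx : ∀ i, ‖x i‖ ≤ 1)
    (h : ∀ ξ η, Tendsto (fun i => ⟪ξ, (x i) η⟫_ℂ) l (𝓝 ⟪ξ, y η⟫_ℂ)) :
    Tendsto (fun i => φ (x i)) l (𝓝 (φ y)) := by
  obtain ⟨ξ, η, hξ, hη, hφx⟩ := hφ
  simp only [hφx]
  have hs : Summable (fun n => ‖ξ n‖ * ‖η n‖) := by
    refine Summable.of_nonneg_of_le (fun n => by positivity) (fun n => ?_) (hξ.add hη)
    nlinarith [sq_nonneg (‖ξ n‖ - ‖η n‖), sq_nonneg (‖ξ n‖), sq_nonneg (‖η n‖)]
  refine tendsto_tsum_of_dominated_convergence hs (fun n => h _ _) ?_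
  refine Filter.univ_mem' fun i n => ?_
  calc ‖⟪ξ n, (x i) (η n)⟫_ℂ‖ ≤ ‖ξ n‖ * ‖(x i) (η n)‖ := norm_inner_le_norm _ _
    _ ≤ ‖ξ n‖ * (1 * ‖η n‖) := by
        gcongr
        exact ((x i).le_opNorm _).trans (mul_le_mul_of_nonneg_right (hx i) (norm_nonneg _))
    _ = ‖ξ n‖ * ‖η n‖ := by ring

theorem restrNorm_bddAbove (φ : (H →L[ℂ] H) →L[ℂ] ℂ) (N : VonNeumannAlgebra H) :
    BddAbove {r : ℝ | ∃ x ∈ N, ‖x‖ ≤ 1 ∧ r = ‖φ x‖} := by
  refine ⟨‖φ‖, ?_⟩
  rintro r ⟨x, -, hx, rfl⟩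
  calc ‖φ x‖ ≤ ‖φ‖ * ‖x‖ := φ.le_opNorm x
    _ ≤ ‖φ‖ * 1 := by gcongr
    _ = ‖φ‖ := mul_one _

theorem le_restrNorm (φ : (H →L[ℂ] H) →L[ℂ] ℂ) (N : VonNeumannAlgebra H) {x : H →L[ℂ] H}
    (hx : x ∈ N) (hx1 : ‖x‖ ≤ 1) : ‖φ x‖ ≤ restrNorm φ N :=
  le_csSup (restrNorm_bddAbove φ N) ⟨x, hx, hx1, rfl⟩

theorem restrNorm_set_nonempty (φ : (H →L[ℂ] H) →L[ℂ] ℂ) (N : VonNeumannAlgebra H) :
    {r : ℝ | ∃ x ∈ N, ‖x‖ ≤ 1 ∧ r = ‖φ x‖}.Nonempty :=
  ⟨‖φ 0‖, 0, zero_mem N, by simp, rfl⟩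

theorem restrNorm_nonneg (φ : (H →L[ℂ] H) →L[ℂ] ℂ) (N : VonNeumannAlgebra H) :
    0 ≤ restrNorm φ N :=
  (norm_nonneg (φ 0)).trans (le_restrNorm φ N (zero_mem N) (by simp))

theorem restrNorm_le (φ : (H →L[ℂ] H) →L[ℂ] ℂ) (N : VonNeumannAlgebra H) :
    restrNorm φ N ≤ ‖φ‖ := by
  refine csSup_le (restrNorm_set_nonempty φ N) ?_
  rintro r ⟨x, -, hx, rfl⟩
  calc ‖φ x‖ ≤ ‖φ‖ * ‖x‖ := φ.le_opNorm x
    _ ≤ ‖φ‖ * 1 := by gcongr
    _ = ‖φ‖ := mul_one _

/-- Convergence in `Masa M` along a filter. -/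
theorem tendsto_masa {ι : Type*} {l : Filter ι} {B : ι → Masa M} {B₁ : Masa M}
    (h : ∀ φ : (H →L[ℂ] H) →L[ℂ] ℂ, IsNormalFunctional φ →
      Tendsto (fun i => restrNorm φ (B i).1) l (𝓝 (restrNorm φ B₁.1))) :
    Tendsto B l (𝓝 B₁) := by
  have h1 : (𝓝 B₁ : Filter (Masa M)) = comap Subtype.val (@nhds _ effrosMarechal B₁.1) :=
    @nhds_induced _ _ effrosMarechal Subtype.val B₁
  rw [h1]
  refine tendsto_comap_iff.2 ?_
  have h2 : (@nhds _ effrosMarechal B₁.1) =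
      ⨅ φ : {φ : (H →L[ℂ] H) →L[ℂ] ℂ // IsNormalFunctional φ},
        comap (restrNorm φ.1) (𝓝 (restrNorm φ.1 B₁.1)) := by
    unfold effrosMarechal
    rw [nhds_iInf]
    refine iInf_congr fun φ => ?_
    rw [nhds_induced]
  rw [h2, tendsto_iInf]
  intro φ
  rw [tendsto_comap_iff]
  exact h φ.1 φ.2

theorem exists_nhds_finset (hM : IsII1Factor M Ω) (B₁ : Masa M) {W : Set (Masa M)}
    (hW : IsOpen W) (hB : B₁ ∈ W) :
    ∃ (F : Finset (H →L[ℂ] H)) (δ : ℝ), 0 < δ ∧ (∀ x ∈ F, x ∈ B₁.1 ∧ ‖x‖ ≤ 1) ∧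
      ∀ B : Masa M, (∀ x ∈ F, ∃ b ∈ B.1, ‖b‖ ≤ 1 ∧ ‖(b - x) Ω‖ < δ) → B ∈ W := by
  classical
  by_contra hcon
  push Not at hcon
  set X := {x : H →L[ℂ] H // x ∈ B₁.1 ∧ ‖x‖ ≤ 1} with hX
  set I := Finset X × ℕ with hI
  have hex : ∀ i : I, ∃ B : Masa M, (∀ x ∈ i.1, ∃ b ∈ B.1, ‖b‖ ≤ 1 ∧
      ‖(b - x.1) Ω‖ < 1 / ((i.2 : ℝ) + 1)) ∧ B ∉ W := by
    rintro ⟨F, k⟩
    obtain ⟨B, h1, h2⟩ := hcon (F.image Subtype.val) (1 / ((k : ℝ) + 1)) (by positivity) (by
      intro x hx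
      obtain ⟨y, hy, rfl⟩ := Finset.mem_image.1 hx
      exact y.2)
    refine ⟨B, fun x hx => ?_, h2⟩
    exact h1 x.1 (Finset.mem_image_of_mem _ hx)
  choose B hB1 hB2 using hex
  have hIne : (atTop : Filter I).NeBot := by infer_instance
  set 𝒰 : Ultrafilter I := Ultrafilter.of atTop with h𝒰
  have h𝒰le : (𝒰 : Filter I) ≤ atTop := Ultrafilter.of_le _
  have hk : Tendsto (fun i : I => 1 / ((i.2 : ℝ) + 1)) (𝒰 : Filter I) (𝓝 0) := by
    have h1 : Tendsto (fun i : I => i.2) (𝒰 : Filter I) atTop :=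
      (tendsto_atTop_atTop.2 fun b => ⟨(∅, b), fun i hi => (Prod.le_def.1 hi).2⟩).mono_left h𝒰le
    exact tendsto_one_div_add_atTop_nhds_zero_nat.comp h1
  -- approximations of elements of `B₁`
  have happ : ∀ x : H →L[ℂ] H, x ∈ B₁.1 → ‖x‖ ≤ 1 → ∃ b : I → (H →L[ℂ] H),
      (∀ i, b i ∈ (B i).1) ∧ (∀ i, ‖b i‖ ≤ 1) ∧
      Tendsto (fun i => (b i) Ω) (𝒰 : Filter I) (𝓝 (x Ω)) := by
    intro x hx hx1
    have h1 : ∀ i : I, ∃ b ∈ (B i).1, ‖b‖ ≤ 1 ∧
        ((⟨x, hx, hx1⟩ : X) ∈ i.1 → ‖(b - x) Ω‖ < 1 / ((i.2 : ℝ) + 1)) := by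
      intro i
      by_cases hxi : (⟨x, hx, hx1⟩ : X) ∈ i.1
      · obtain ⟨b, hb, hb1, hb2⟩ := hB1 i _ hxi
        exact ⟨b, hb, hb1, fun _ => hb2⟩
      · exact ⟨0, zero_mem _, by simp, fun h => absurd h hxi⟩
    choose b hb hb1 hb2 using h1
    refine ⟨b, hb, hb1, ?_⟩
    rw [tendsto_iff_norm_sub_tendsto_zero]
    refine squeeze_zero' (Filter.univ_mem' fun i => norm_nonneg _) ?_ hk
    have h2 : ∀ᶠ i in (atTop : Filter I), (⟨x, hx, hx1⟩ : X) ∈ i.1 := by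
      filter_upwards [eventually_ge_atTop (({⟨x, hx, hx1⟩}, 0) : I)] with i hi
      exact hi.1 (by simp)
    filter_upwards [h𝒰le h2] with i hi
    have := (hb2 i hi).le
    simpa using this
  have hBM : ∀ i, ∀ b ∈ (B i).1, b ∈ M := fun i b hb => (B i).2.1 hb
  have hB₁M : ∀ b ∈ B₁.1, b ∈ M := fun b hb => B₁.2.1 hb
  have hconv : Tendsto B (𝒰 : Filter I) (𝓝 B₁) := by
    refine tendsto_masa fun φ hφ => ?_
    obtain ⟨L, hL⟩ := exists_lim_ultrafilter_real 𝒰 (fun i => restrNorm φ (B i).1) ‖φ‖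
      (fun i => by rw [abs_of_nonneg (restrNorm_nonneg _ _)]; exact restrNorm_le _ _)
    have hlow : restrNorm φ B₁.1 ≤ L := by
      refine csSup_le (restrNorm_set_nonempty φ B₁.1) ?_
      rintro r ⟨x, hx, hx1, rfl⟩
      obtain ⟨b, hb, hb1, hbt⟩ := happ x hx hx1
      have h1 : ∀ ξ, Tendsto (fun i => (b i) ξ) (𝒰 : Filter I) (𝓝 (x ξ)) := fun ξ =>
        hM.tendsto_apply (fun i => hBM i _ (hb i)) (hB₁M x hx) hb1 hbt ξ
      have h2 : Tendsto (fun i => φ (b i)) (𝒰 : Filter I) (𝓝 (φ x)) :=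
        hφ.tendsto hb1 fun ξ η => (tendsto_const_nhds).inner (h1 η)
      exact le_of_tendsto_of_tendsto' h2.norm hL fun i => le_restrNorm φ _ (hb i) (hb1 i)
    have hup : L ≤ restrNorm φ B₁.1 := by
      have h1 : ∀ i : I, ∃ c ∈ (B i).1, ‖c‖ ≤ 1 ∧
          restrNorm φ (B i).1 - 1 / ((i.2 : ℝ) + 1) < ‖φ c‖ := by
        intro i
        have h2 : restrNorm φ (B i).1 - 1 / ((i.2 : ℝ) + 1) < restrNorm φ (B i).1 := by
          have : 0 < 1 / ((i.2 : ℝ) + 1) := by positivity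
          linarith
        obtain ⟨r, ⟨c, hc, hc1, rfl⟩, hr⟩ := exists_lt_of_lt_csSup (restrNorm_set_nonempty φ _) h2
        exact ⟨c, hc, hc1, hr⟩
      choose c hc hc1 hc2 using h1
      obtain ⟨y, hy1, hy⟩ := exists_weak_limit 𝒰 c hc1
      have hyM : y ∈ M := by
        rw [mem_vn_iff]
        intro z hz
        refine ContinuousLinearMap.ext fun η => ?_
        refine ext_inner_left ℂ fun ξ => ?_
        have h3 : Tendsto (fun i => ⟪ξ, z ((c i) η)⟫_ℂ) (𝒰 : Filter I) (𝓝 ⟪ξ, z (y η)⟫_ℂ) := by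
          have := hy ((star z) ξ) η
          simpa only [inner_star_left] using this
        have h4 := hy ξ (z η)
        have h5 : ∀ i, z ((c i) η) = (c i) (z η) := by
          intro i
          have := (mem_vn_iff M (c i)).1 (hBM i _ (hc i)) z hz
          exact congrArg (fun T : H →L[ℂ] H => T η) this
        simp_rw [h5] at h3
        exact tendsto_nhds_unique h3 h4
      have hycomm1 : ∀ x ∈ B₁.1, ‖x‖ ≤ 1 → y * x = x * y := by
        intro x hx hx1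
        obtain ⟨b, hb, hb1, hbt⟩ := happ x hx hx1
        have hbM : ∀ i, b i ∈ M := fun i => hBM i _ (hb i)
        have hxM : x ∈ M := hB₁M x hx
        have hbx : ∀ ξ, Tendsto (fun i => (b i) ξ) (𝒰 : Filter I) (𝓝 (x ξ)) := fun ξ =>
          hM.tendsto_apply hbM hxM hb1 hbt ξ
        have hbt' : Tendsto (fun i => (star (b i)) Ω) (𝒰 : Filter I) (𝓝 ((star x) Ω)) := by
          rw [tendsto_iff_norm_sub_tendsto_zero] at hbt ⊢
          refine hbt.congr fun i => ?_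
          have h3 := hM.norm_star (sub_mem (hbM i) hxM)
          rw [star_sub] at h3
          exact h3.symm
        have hbx' : ∀ ξ, Tendsto (fun i => (star (b i)) ξ) (𝒰 : Filter I) (𝓝 ((star x) ξ)) :=
          fun ξ => hM.tendsto_apply (fun i => star_mem_vn M (hbM i)) (star_mem_vn M hxM)
            (K := 1) (fun i => by rw [_root_.norm_star]; exact hb1 i) hbt' ξ
        refine ContinuousLinearMap.ext fun η => ?_
        refine ext_inner_left ℂ fun ξ => ?_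
        -- `c_i b_i`
        have h3 : Tendsto (fun i => ⟪ξ, (c i) ((b i) η)⟫_ℂ) (𝒰 : Filter I)
            (𝓝 ⟪ξ, y (x η)⟫_ℂ) := by
          have h4 : Tendsto (fun i => ⟪ξ, (c i) ((b i) η - x η)⟫_ℂ) (𝒰 : Filter I) (𝓝 0) := by
            have h5 : Tendsto (fun i => ‖ξ‖ * ‖(b i) η - x η‖) (𝒰 : Filter I) (𝓝 0) := by
              have := (tendsto_iff_norm_sub_tendsto_zero.1 (hbx η)).const_mul ‖ξ‖
              simpa using this
            refine squeeze_zero_norm (fun i => ?_) h5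
            calc ‖⟪ξ, (c i) ((b i) η - x η)⟫_ℂ‖ ≤ ‖ξ‖ * ‖(c i) ((b i) η - x η)‖ :=
                  norm_inner_le_norm _ _
              _ ≤ ‖ξ‖ * (1 * ‖(b i) η - x η‖) := by
                  gcongr
                  exact ((c i).le_opNorm _).trans
                    (mul_le_mul_of_nonneg_right (hc1 i) (norm_nonneg _))
              _ = _ := by rw [one_mul]
          have h6 := h4.add (hy ξ (x η))
          rw [zero_add] at h6
          refine h6.congr fun i => ?_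
          rw [map_sub, inner_sub_right, sub_add_cancel]
        have h7 : Tendsto (fun i => ⟪ξ, (b i) ((c i) η)⟫_ℂ) (𝒰 : Filter I)
            (𝓝 ⟪ξ, x (y η)⟫_ℂ) := by
          have h4 : Tendsto (fun i => ⟪(star (b i)) ξ - (star x) ξ, (c i) η⟫_ℂ)
              (𝒰 : Filter I) (𝓝 0) := by
            have h5 : Tendsto (fun i => ‖(star (b i)) ξ - (star x) ξ‖ * ‖η‖)
                (𝒰 : Filter I) (𝓝 0) := by
              have := (tendsto_iff_norm_sub_tendsto_zero.1 (hbx' ξ)).mul_const ‖η‖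
              simpa using this
            refine squeeze_zero_norm (fun i => ?_) h5
            calc ‖⟪(star (b i)) ξ - (star x) ξ, (c i) η⟫_ℂ‖
                ≤ ‖(star (b i)) ξ - (star x) ξ‖ * ‖(c i) η‖ := norm_inner_le_norm _ _
              _ ≤ ‖(star (b i)) ξ - (star x) ξ‖ * (1 * ‖η‖) := by
                  gcongr
                  exact ((c i).le_opNorm _).trans
                    (mul_le_mul_of_nonneg_right (hc1 i) (norm_nonneg _))
              _ = _ := by rw [one_mul]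
          have h6 := h4.add (hy ((star x) ξ) η)
          rw [zero_add, inner_star_left] at h6
          refine h6.congr fun i => ?_
          rw [inner_sub_left, sub_add_cancel, inner_star_left]
        have h8 : ∀ i, (c i) ((b i) η) = (b i) ((c i) η) := by
          intro i
          have := (B i).2.2.1 (c i) (hc i) (b i) (hb i)
          exact congrArg (fun T : H →L[ℂ] H => T η) this
        simp_rw [h8] at h3
        exact tendsto_nhds_unique h3 h7
      have hycomm : ∀ x ∈ B₁.1, y * x = x * y := by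
        intro x hx
        by_cases hx0 : ‖x‖ ≤ 1
        · exact hycomm1 x hx hx0
        · push Not at hx0
          have hxpos : 0 < ‖x‖ := by linarith
          have h3 := hycomm1 ((‖x‖⁻¹ : ℂ) • x) (smul_mem_vn _ _ hx) (by
            rw [norm_smul]
            simp
            rw [inv_mul_cancel₀ hxpos.ne'])
          rw [mul_smul_comm, smul_mul_assoc] at h3
          have h4 : (‖x‖⁻¹ : ℂ) ≠ 0 := by
            simpa using hxpos.ne'
          exact smul_right_injective _ h4 h3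
      have hyB : y ∈ B₁.1 := mem_of_commute B₁.2 hyM hycomm
      have h9 : Tendsto (fun i => φ (c i)) (𝒰 : Filter I) (𝓝 (φ y)) := hφ.tendsto hc1 hy
      have h10 : Tendsto (fun i => ‖φ (c i)‖ + 1 / ((i.2 : ℝ) + 1)) (𝒰 : Filter I)
          (𝓝 (‖φ y‖ + 0)) := h9.norm.add hk
      rw [add_zero] at h10
      have h11 : L ≤ ‖φ y‖ := le_of_tendsto_of_tendsto' hL h10 fun i => by
        have := hc2 i
        linarith
      exact h11.trans (le_restrNorm φ _ hyB hy1)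
    rw [le_antisymm hlow hup]
    exact hL
  have h1 : ∀ᶠ i in (𝒰 : Filter I), B i ∈ W := hconv (hW.mem_nhds hB)
  obtain ⟨i, hi⟩ := h1.exists
  exact hB2 i hi

end Pool.Agent.Hhelper40.RMasa
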