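import Mathlib

/-!
Finitely many elements of an abelian von Neumann algebra are, up to ε in operator norm, polynomials
in ONE self-adjoint element of it.
-/

namespace Pool.Agent.Hhelper40.RMasa

universe u

section Atoms

/-- Atoms of the Boolean algebra generated by finitely many projections of a commutative ring. -/
theorem exists_atoms {R : Type*} [CommRing R] [StarRing R] {ι : Type*} [Fintype ι] [DecidableEq ι]
    (p : ι → R) (hp : ∀ i, IsStarProjection (p i)) :
    ∃ E : Finset ι → R, (∀ S, IsStarProjection (E S)) ∧ (∀ S T, S ≠ T → E S * E T = 0) ∧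
      (∑ S, E S = 1) ∧ ∀ i S, p i * E S = E S ∨ p i * E S = 0 := by
  classical
  have hq : ∀ i, IsStarProjection (1 - p i) := fun i => (hp i).one_sub
  set f : Finset ι → ι → R := fun S i => if i ∈ S then p i else 1 - p i with hf
  have hfp : ∀ S i, IsStarProjection (f S i) := by
    intro S i
    simp only [hf]
    split_ifs
    · exact hp i
    · exact hq i
  refine ⟨fun S => ∏ i, f S i, ?_, ?_, ?_, ?_⟩
  · intro S
    constructor
    · unfold IsIdempotentElem
      rw [← Finset.prod_mul_distrib]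
      exact Finset.prod_congr rfl fun i _ => (hfp S i).isIdempotentElem
    · rw [IsSelfAdjoint, ← starRingEnd_apply, map_prod]
      exact Finset.prod_congr rfl fun i _ => (hfp S i).isSelfAdjoint
  · intro S T hST
    rw [← Finset.prod_mul_distrib]
    have : ∃ i, ¬ (i ∈ S ↔ i ∈ T) := by
      by_contra hcon
      push Not at hcon
      exact hST (Finset.ext hcon)
    obtain ⟨i, hi⟩ := this
    refine Finset.prod_eq_zero (Finset.mem_univ i) ?_
    have hpi : p i * p i = p i := (hp i).isIdempotentElem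
    by_cases h1 : i ∈ S
    · have h2 : i ∉ T := fun h => hi ⟨fun _ => h, fun _ => h1⟩
      simp only [hf, h1, h2, if_true, if_false]
      rw [mul_sub, hpi]; ring
    · have h2 : i ∈ T := by
        by_contra h2
        exact hi ⟨fun h => absurd h h1, fun h => absurd h h2⟩
      simp only [hf, h1, h2, if_true, if_false]
      rw [sub_mul, hpi]; ring
  · have h := Finset.prod_add p (fun i => 1 - p i) Finset.univ
    have h1 : ∏ i, (p i + (1 - p i)) = 1 := by simp
    rw [h1] at h
    rw [h, Finset.powerset_univ]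
    refine Finset.sum_congr rfl fun S _ => ?_
    simp only [hf]
    rw [Finset.prod_ite]
    congr 1
    · exact Finset.prod_congr (by ext; simp) fun _ _ => rfl
    · exact Finset.prod_congr (by ext; simp) fun _ _ => rfl
  · intro i S
    have hpi : p i * p i = p i := (hp i).isIdempotentElem
    have hsplit : ∏ j, f S j = f S i * ∏ j ∈ Finset.univ.erase i, f S j :=
      (Finset.mul_prod_erase _ _ (Finset.mem_univ i)).symm
    by_cases h : i ∈ S
    · left
      simp only
      rw [hsplit]
      simp only [hf, h, if_true]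
      rw [← mul_assoc, hpi]
    · right
      simp only
      rw [hsplit]
      simp only [hf, h, if_false]
      rw [← mul_assoc, mul_sub, hpi]; ring

end Atoms

variable {H : Type u} [NormedAddCommGroup H] [InnerProductSpace ℂ H] [CompleteSpace H]

/-- Sign projection of a self-adjoint element of a von Neumann algebra. -/
theorem exists_sign_proj (B : VonNeumannAlgebra H) (a : H →L[ℂ] H) (ha : a ∈ B)
    (hsa : IsSelfAdjoint a) :
    ∃ p ∈ B, IsStarProjection p ∧ 0 ≤ a * p ∧ a * (1 - p) ≤ 0 := by
  set n : H →L[ℂ] H := a⁻ with hn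
  set q : H →L[ℂ] H := a⁺ with hq
  have hqn : q * n = 0 := CFC.posPart_mul_negPart a
  have hnn : 0 ≤ n := CFC.negPart_nonneg a
  have hqq : 0 ≤ q := CFC.posPart_nonneg a
  have hnsa : IsSelfAdjoint n := IsSelfAdjoint.of_nonneg hnn
  have haq : a = q - n := (CFC.posPart_sub_negPart a hsa).symm
  have hclosed : IsClosed (n.ker : Set H) := n.isClosed_ker
  have : CompleteSpace n.ker := hclosed.completeSpace_coe
  set p : H →L[ℂ] H := n.ker.starProjection with hp
  have hpproj : IsStarProjection p := isStarProjection_starProjection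
  have hnp : n * p = 0 := by
    ext v
    have : p v ∈ n.ker := by
      rw [hp]; exact Submodule.starProjection_apply_mem _ _
    simpa using this
  have hq1p : q * (1 - p) = 0 := by
    ext v
    have h1 : (1 - p) v ∈ n.kerᗮ := by
      have := Submodule.sub_starProjection_mem_orthogonal (K := n.ker) v
      simpa [hp] using this
    rw [ContinuousLinearMap.orthogonal_ker] at h1
    have h2 : (ContinuousLinearMap.adjoint n).range.topologicalClosure ≤ q.ker := by
      apply Submodule.topologicalClosure_minimal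
      · rintro w ⟨z, rfl⟩
        have h3 : ContinuousLinearMap.adjoint n = n := hnsa.adjoint_eq
        rw [h3]
        have h4 := congrArg (fun T : H →L[ℂ] H => T z) hqn
        simpa using h4
      · exact q.isClosed_ker
    have h5 := h2 h1
    simpa using h5
  have hpB : p ∈ B := by
    rw [VonNeumannAlgebra.IsStarProjection.mem_iff hpproj]
    intro y hy
    rw [VonNeumannAlgebra.mem_commutant_iff] at hy
    have hcom : Commute a y := hy a ha
    have hcom2 : Commute n y := by
      rw [hn, CFC.negPart_def]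
      exact hcom.cfcₙ_real _
    have hrange : p.range = n.ker := by
      rw [hp]; exact Submodule.range_starProjection _
    rw [hrange, Module.End.mem_invtSubmodule]
    intro v hv
    have hv' : n v = 0 := by simpa using hv
    have h6 := congrArg (fun T : H →L[ℂ] H => T v) hcom2.eq
    have h7 : n (y v) = y (n v) := by simpa using h6
    rw [hv', map_zero] at h7
    simpa using h7
  refine ⟨p, hpB, hpproj, ?_, ?_⟩
  · have h8 : a * p = q := by
      rw [haq, sub_mul, hnp, sub_zero]
      rw [mul_sub, mul_one, sub_eq_zero] at hq1p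
      exact hq1p.symm
    rw [h8]; exact hqq
  · have h9 : a * (1 - p) = - n := by
      rw [haq, sub_mul, hq1p, mul_sub, hnp, mul_one]; abel
    rw [h9]; simpa using hnn

/-- Norm of a self-adjoint operator squeezed between `-r` and `r`. -/
theorem norm_le_of_squeeze {A : Type*} [CStarAlgebra A] [PartialOrder A] [StarOrderedRing A]
    {y : A} (hy : IsSelfAdjoint y) {r : ℝ} (hr : 0 ≤ r)
    (h1 : y ≤ algebraMap ℝ A r) (h2 : - algebraMap ℝ A r ≤ y) : ‖y‖ ≤ r := by
  obtain h | h := subsingleton_or_nontrivial A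
  · rw [Subsingleton.elim y 0, norm_zero]; exact hr
  · rcases CStarAlgebra.norm_or_neg_norm_mem_spectrum (a := y) hy with h3 | h3
    · exact (le_algebraMap_iff_spectrum_le (a := y) (r := r)).1 h1 _ h3
    · have h4 : algebraMap ℝ A (-r) ≤ y := by rw [map_neg]; exact h2
      have h5 := (algebraMap_le_iff_le_spectrum (a := y) (r := -r)).1 h4 _ h3
      linarith


/-- Sign dichotomy on an atom. -/
theorem atom_dichotomy {A : Type*} [CStarAlgebra A] [PartialOrder A] [StarOrderedRing A]
    {x p E : A} (hxE : x * E = E * x) (hE : IsStarProjection E)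
    (h1 : 0 ≤ x * p) (h2 : x * (1 - p) ≤ 0) (h3 : p * E = E ∨ p * E = 0) :
    0 ≤ x * E ∨ x * E ≤ 0 := by
  have hEE : E * E = E := hE.isIdempotentElem
  rcases h3 with h | h
  · left
    have h4 : x * E = E * (x * p) * E := by
      calc x * E = x * (E * E) := by rw [hEE]
        _ = (x * E) * E := by rw [mul_assoc]
        _ = E * x * E := by rw [hxE]
        _ = E * x * (p * E) := by rw [h]
        _ = E * (x * p) * E := by simp only [mul_assoc]
    rw [h4]
    exact hE.isSelfAdjoint.conjugate_nonneg h1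
  · right
    have h4 : - (x * E) = E * (-(x * (1 - p))) * E := by
      have h5 : (1 - p) * E = E := by rw [sub_mul, h, one_mul, sub_zero]
      calc - (x * E) = - (x * (E * E)) := by rw [hEE]
        _ = - ((x * E) * E) := by rw [mul_assoc]
        _ = - (E * x * E) := by rw [hxE]
        _ = - (E * x * ((1 - p) * E)) := by rw [h5]
        _ = E * (-(x * (1 - p))) * E := by
          simp only [mul_assoc, mul_neg, neg_mul]
    have h6 : 0 ≤ - (x * E) := by
      rw [h4]
      exact hE.isSelfAdjoint.conjugate_nonneg (by simpa using h2)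
    simpa using h6

/-- On an atom, the operator is nearly a scalar. -/
theorem atom_scalar {A : Type*} [CStarAlgebra A] [PartialOrder A] [StarOrderedRing A]
    {x E : A} (hx : IsSelfAdjoint x) (hxE : x * E = E * x) (hE : IsStarProjection E)
    {M r : ℝ} (hM : ‖x‖ ≤ M) (hr : 0 ≤ r) (N : ℕ) (hN : 2 * M ≤ N * r)
    (hd : ∀ l : ℕ, l ≤ N → 0 ≤ (x - ((-M + l * r : ℝ)) • (1 : A)) * E ∨
      (x - ((-M + l * r : ℝ)) • (1 : A)) * E ≤ 0) :
    ∃ c : ℝ, - (r • E) ≤ (x - c • (1 : A)) * E ∧ (x - c • (1 : A)) * E ≤ r • E := by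
  have hEE : E * E = E := hE.isIdempotentElem
  have hEnn : 0 ≤ E := hE.nonneg
  have hrE : 0 ≤ r • E := smul_nonneg hr hEnn
  have conj : ∀ z : A, z * E = E * z → 0 ≤ z → 0 ≤ z * E := by
    intro z hz h0
    have h4 : z * E = E * z * E := by
      calc z * E = z * (E * E) := by rw [hEE]
        _ = (z * E) * E := by rw [mul_assoc]
        _ = E * z * E := by rw [hz]
    rw [h4]
    exact hE.isSelfAdjoint.conjugate_nonneg h0
  have main : ∀ l : ℕ, l ≤ N →
      (∃ c : ℝ, - (r • E) ≤ (x - c • (1 : A)) * E ∧ (x - c • (1 : A)) * E ≤ r • E) ∨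
      0 ≤ (x - ((-M + l * r : ℝ)) • (1 : A)) * E := by
    intro l
    induction l with
    | zero =>
      intro _
      right
      apply conj
      · rw [sub_mul, mul_sub, hxE, smul_mul_assoc, mul_smul_comm, one_mul, mul_one]
      · have h1 := IsSelfAdjoint.neg_algebraMap_norm_le_self (a := x) hx
        have h2 : algebraMap ℝ A ‖x‖ ≤ algebraMap ℝ A M := algebraMap_mono A hM
        have h3 : - algebraMap ℝ A M ≤ x := (neg_le_neg h2).trans h1
        have h4 : ((-M + ((0 : ℕ) : ℝ) * r : ℝ)) • (1 : A) = - algebraMap ℝ A M := by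
          rw [Algebra.algebraMap_eq_smul_one]
          simp
        rw [h4]
        exact sub_nonneg.2 h3
    | succ l ih =>
      intro hl
      rcases ih (by omega) with h | h
      · left; exact h
      · rcases hd (l + 1) hl with h5 | h5
        · right; exact h5
        · left
          refine ⟨-M + l * r, ?_, ?_⟩
          · exact (neg_nonpos.2 hrE).trans h
          · have h6 : (x - (-M + ↑l * r) • (1 : A)) * E =
                (x - (-M + ((l + 1 : ℕ) : ℝ) * r) • (1 : A)) * E + r • E := by
              push_cast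
              simp only [sub_mul, smul_mul_assoc, one_mul, add_mul, add_smul]
              abel
            rw [h6]
            simpa using h5
  rcases main N le_rfl with h | h
  · exact h
  · refine ⟨-M + N * r, ?_, ?_⟩
    · exact (neg_nonpos.2 hrE).trans h
    · have h7 : 0 ≤ -((x - (-M + (N : ℝ) * r) • (1 : A)) * E) := by
        rw [← neg_mul]
        apply conj
        · simp [sub_mul, mul_sub, hxE]
        · have h1 := IsSelfAdjoint.le_algebraMap_norm_self (a := x) hx
          have h2 : algebraMap ℝ A ‖x‖ ≤ algebraMap ℝ A (-M + N * r) :=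
            algebraMap_mono A (by linarith)
          have h3 := h1.trans h2
          rw [Algebra.algebraMap_eq_smul_one] at h3
          simpa using h3
      exact (by simpa using h7 : (x - (-M + (N : ℝ) * r) • (1 : A)) * E ≤ 0).trans hrE

theorem aeval_mul_eq {A : Type*} [Ring A] [Algebra ℂ A] {h E : A} {k : ℂ}
    (hk : h * E = k • E) (G : Polynomial ℂ) :
    Polynomial.aeval h G * E = (G.eval k) • E := by
  induction G using Polynomial.induction_on' with
  | add p q hp hq => rw [map_add, add_mul, hp, hq, Polynomial.eval_add, add_smul]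
  | monomial n a =>
    rw [Polynomial.aeval_monomial, Polynomial.eval_monomial, mul_assoc]
    have h1 : h ^ n * E = (k ^ n) • E := by
      induction n with
      | zero => simp
      | succ n ih => rw [pow_succ', mul_assoc, ih, mul_smul_comm, hk, smul_smul, pow_succ]
    rw [h1, ← Algebra.smul_def, smul_smul]

/-- Simultaneous spectral approximation in an abelian von Neumann algebra. -/
theorem exists_partition (B : VonNeumannAlgebra H) (hB : ∀ a ∈ B, ∀ b ∈ B, a * b = b * a)
    {κ : Type u} [Fintype κ] (x : κ → H →L[ℂ] H) (hx : ∀ i, x i ∈ B)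
    (hsa : ∀ i, IsSelfAdjoint (x i)) (r : ℝ) (hr : 0 < r) :
    ∃ (σ : Type u) (_ : Fintype σ) (E : σ → H →L[ℂ] H), (∀ s, E s ∈ B) ∧
      (∀ s, IsStarProjection (E s)) ∧ (∀ s t, s ≠ t → E s * E t = 0) ∧ (∑ s, E s = 1) ∧
      ∀ i, ∃ c : σ → ℝ, ‖x i - ∑ s, (c s) • E s‖ ≤ r := by
  classical
  set M : ℝ := ∑ i, ‖x i‖ with hMdef
  have hM : ∀ i, ‖x i‖ ≤ M := fun i =>
    Finset.single_le_sum (f := fun i => ‖x i‖) (fun _ _ => norm_nonneg _) (Finset.mem_univ i)
  obtain ⟨N, hN⟩ := exists_nat_ge (2 * M / r)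
  have hN' : 2 * M ≤ N * r := by rwa [div_le_iff₀ hr] at hN
  letI : CommRing B := { (inferInstance : Ring B) with
    mul_comm := fun a b => Subtype.ext (hB a a.2 b b.2) }
  have hBsmul : ∀ (c : ℝ) (a : H →L[ℂ] H), a ∈ B → c • a ∈ B := by
    intro c a ha
    have : c • a = (c : ℂ) • a := by simp
    rw [this]
    exact B.smul_mem ha _
  have hone : (1 : H →L[ℂ] H) ∈ B := one_mem B
  have hex : ∀ j : κ × Fin (N + 1), ∃ p ∈ B, IsStarProjection p ∧
      0 ≤ (x j.1 - (-M + (j.2 : ℕ) * r : ℝ) • (1 : H →L[ℂ] H)) * p ∧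
      (x j.1 - (-M + (j.2 : ℕ) * r : ℝ) • (1 : H →L[ℂ] H)) * (1 - p) ≤ 0 := by
    intro j
    refine exists_sign_proj B _ (sub_mem (hx _) (hBsmul _ _ hone)) ?_
    exact (hsa _).sub ((IsSelfAdjoint.all (_ : ℝ)).smul (.one _))
  choose p hpB hpp hp1 hp2 using hex
  obtain ⟨E, hEp, hEo, hEs, hEd⟩ := exists_atoms (R := B) (fun j => (⟨p j, hpB j⟩ : B))
    (fun j => ⟨Subtype.ext (hpp j).isIdempotentElem, Subtype.ext (hpp j).isSelfAdjoint⟩)
  have hEp' : ∀ S, IsStarProjection ((E S : B) : H →L[ℂ] H) := fun S =>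
    ⟨congrArg Subtype.val (hEp S).isIdempotentElem, congrArg Subtype.val (hEp S).isSelfAdjoint⟩
  have hEsum : ∑ S, ((E S : B) : H →L[ℂ] H) = 1 := by
    have h := congrArg Subtype.val hEs
    simpa using h
  refine ⟨ULift.{u} (Finset (κ × Fin (N + 1))), inferInstance,
    fun s => ((E s.down : B) : H →L[ℂ] H), fun s => (E s.down).2, fun s => hEp' _, ?_, ?_, ?_⟩
  · intro s t hst
    exact congrArg Subtype.val (hEo s.down t.down (fun h => hst (ULift.down_injective h)))
  · rw [← hEsum]
    exact Fintype.sum_equiv Equiv.ulift _ _ (fun _ => rfl)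
  · intro i
    have hc : ∀ S : Finset (κ × Fin (N + 1)), ∃ c : ℝ,
        - (r • ((E S : B) : H →L[ℂ] H)) ≤ (x i - c • (1 : H →L[ℂ] H)) * (E S : B) ∧
        (x i - c • (1 : H →L[ℂ] H)) * (E S : B) ≤ r • ((E S : B) : H →L[ℂ] H) := by
      intro S
      refine atom_scalar (hsa i) (hB _ (hx i) _ (E S).2) (hEp' S) (hM i) hr.le N hN' ?_
      intro l hl
      have hl' : l < N + 1 := by omega
      have h1 := hp1 (i, ⟨l, hl'⟩)
      have h2 := hp2 (i, ⟨l, hl'⟩)
      have h3 := hEd (i, ⟨l, hl'⟩) S
      refine atom_dichotomy ?_ (hEp' S) h1 h2 ?_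
      · exact hB _ (sub_mem (hx _) (hBsmul _ _ hone)) _ (E S).2
      · rcases h3 with h | h
        · left; exact congrArg Subtype.val h
        · right; exact congrArg Subtype.val h
    choose c hc1 hc2 using hc
    refine ⟨fun s => c s.down, ?_⟩
    have hsumeq : ∑ s : ULift.{u} (Finset (κ × Fin (N + 1))), (c s.down) •
        ((E s.down : B) : H →L[ℂ] H) = ∑ S, (c S) • ((E S : B) : H →L[ℂ] H) :=
      Fintype.sum_equiv Equiv.ulift _ _ (fun _ => rfl)
    rw [hsumeq]
    have hy : x i - ∑ S, (c S) • ((E S : B) : H →L[ℂ] H) =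
        ∑ S, (x i - c S • (1 : H →L[ℂ] H)) * (E S : B) := by
      calc x i - ∑ S, (c S) • ((E S : B) : H →L[ℂ] H)
          = x i * (∑ S, ((E S : B) : H →L[ℂ] H)) - ∑ S, (c S) • ((E S : B) : H →L[ℂ] H) := by
            rw [hEsum, mul_one]
        _ = ∑ S, (x i - c S • (1 : H →L[ℂ] H)) * (E S : B) := by
            rw [Finset.mul_sum, ← Finset.sum_sub_distrib]
            refine Finset.sum_congr rfl fun S _ => ?_
            rw [sub_mul, smul_mul_assoc, one_mul]
    have hrsum : algebraMap ℝ (H →L[ℂ] H) r = ∑ S, r • ((E S : B) : H →L[ℂ] H) := by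
      rw [← Finset.smul_sum, hEsum, Algebra.algebraMap_eq_smul_one]
    refine norm_le_of_squeeze ?_ hr.le ?_ ?_
    · refine (hsa i).sub ?_
      rw [IsSelfAdjoint, star_sum]
      refine Finset.sum_congr rfl fun S _ => ?_
      rw [star_smul, (hEp' S).isSelfAdjoint.star_eq]
      simp
    · rw [hy, hrsum]
      exact Finset.sum_le_sum fun S _ => hc2 S
    · rw [hy, hrsum, ← Finset.sum_neg_distrib]
      exact Finset.sum_le_sum fun S _ => hc1 S

theorem exists_single_generator (B : VonNeumannAlgebra H) (hB : ∀ a ∈ B, ∀ b ∈ B, a * b = b * a)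
    (F : Finset (H →L[ℂ] H)) (hF : ∀ x ∈ F, x ∈ B) (ε : ℝ) (hε : 0 < ε) :
    ∃ h ∈ B, IsSelfAdjoint h ∧ ∀ x ∈ F, ∃ G : Polynomial ℂ, ‖Polynomial.aeval h G - x‖ ≤ ε := by
  classical
  -- real and imaginary parts
  set re : (H →L[ℂ] H) → (H →L[ℂ] H) := fun x => (1 / 2 : ℂ) • (x + star x) with hre
  set im : (H →L[ℂ] H) → (H →L[ℂ] H) := fun x => (-(Complex.I) / 2 : ℂ) • (x - star x) with him
  have hdecomp : ∀ x, x = re x + Complex.I • im x := by
    intro x
    simp only [hre, him, smul_smul]
    have h1 : Complex.I * (-Complex.I / 2) = (1 / 2 : ℂ) := by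
      rw [mul_div_assoc', mul_neg, Complex.I_mul_I]; norm_num
    rw [h1, ← smul_add]
    have h2 : x + star x + (x - star x) = (2 : ℂ) • x := by rw [two_smul]; abel
    rw [h2, smul_smul]; norm_num
  have hreB : ∀ x ∈ B, re x ∈ B := fun x hx => B.smul_mem (add_mem hx (star_mem hx)) _
  have himB : ∀ x ∈ B, im x ∈ B := fun x hx => B.smul_mem (sub_mem hx (star_mem hx)) _
  have hresa : ∀ x, IsSelfAdjoint (re x) := by
    intro x
    simp only [hre, IsSelfAdjoint, star_smul, star_add, star_star]
    rw [add_comm (star x) x]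
    congr 1
    simp
  have himsa : ∀ x, IsSelfAdjoint (im x) := by
    intro x
    simp only [him, IsSelfAdjoint, star_smul, star_sub, star_star]
    rw [← neg_sub x (star x), smul_neg, ← neg_smul]
    congr 1
    simp [neg_div]
  let κ : Type u := F × ULift.{u} Bool
  let x : κ → H →L[ℂ] H := fun k => if k.2.down then re k.1 else im k.1
  have hxB : ∀ k, x k ∈ B := by
    intro k
    simp only [x]
    split_ifs
    · exact hreB _ (hF _ k.1.2)
    · exact himB _ (hF _ k.1.2)
  have hxsa : ∀ k, IsSelfAdjoint (x k) := by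
    intro k
    simp only [x]
    split_ifs
    · exact hresa _
    · exact himsa _
  obtain ⟨σ, hσ, E, hEB, hEp, hEo, hEs, hEc⟩ :=
    exists_partition B hB (κ := κ) x hxB hxsa (ε / 2) (by positivity)
  set k : σ → ℝ := fun s => ((Fintype.equivFin σ s : ℕ) : ℝ) with hk
  have hkinj : Function.Injective k := by
    intro s t hst
    simp only [hk, Nat.cast_inj] at hst
    exact (Fintype.equivFin σ).injective (Fin.ext hst)
  set h : H →L[ℂ] H := ∑ s, ((k s : ℝ) : ℂ) • E s with hh
  have hhE : ∀ s, h * E s = ((k s : ℝ) : ℂ) • E s := by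
    intro s
    rw [hh, Finset.sum_mul]
    rw [Finset.sum_eq_single s]
    · rw [smul_mul_assoc, (hEp s).isIdempotentElem.eq]
    · intro t _ hts
      rw [smul_mul_assoc, hEo t s hts, smul_zero]
    · intro hs; exact absurd (Finset.mem_univ s) hs
  have haev : ∀ G : Polynomial ℂ, Polynomial.aeval h G = ∑ s, (G.eval ((k s : ℝ) : ℂ)) • E s := by
    intro G
    calc Polynomial.aeval h G = Polynomial.aeval h G * ∑ s, E s := by rw [hEs, mul_one]
      _ = ∑ s, (G.eval ((k s : ℝ) : ℂ)) • E s := by
        rw [Finset.mul_sum]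
        exact Finset.sum_congr rfl fun s _ => aeval_mul_eq (hhE s) G
  have hinterp : ∀ c : σ → ℂ, ∃ G : Polynomial ℂ, Polynomial.aeval h G = ∑ s, (c s) • E s := by
    intro c
    refine ⟨Lagrange.interpolate Finset.univ (fun s => ((k s : ℝ) : ℂ)) c, ?_⟩
    rw [haev]
    refine Finset.sum_congr rfl fun s _ => ?_
    rw [Lagrange.eval_interpolate_at_node (v := fun s => ((k s : ℝ) : ℂ))]
    · intro a _ b _ hab
      exact hkinj (by simpa using hab)
    · exact Finset.mem_univ s
  refine ⟨h, ?_, ?_, ?_⟩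
  · exact sum_mem fun s _ => B.smul_mem (hEB s) _
  · rw [IsSelfAdjoint, hh, star_sum]
    refine Finset.sum_congr rfl fun s _ => ?_
    rw [star_smul, (hEp s).isSelfAdjoint.star_eq]
    simp
  · intro y hy
    obtain ⟨c1, hc1⟩ := hEc (⟨y, hy⟩, ⟨true⟩)
    obtain ⟨c2, hc2⟩ := hEc (⟨y, hy⟩, ⟨false⟩)
    obtain ⟨G, hG⟩ := hinterp (fun s => (c1 s : ℂ) + Complex.I * (c2 s : ℂ))
    refine ⟨G, ?_⟩
    have hc1' : ‖re y - ∑ s, (c1 s) • E s‖ ≤ ε / 2 := by simpa [x] using hc1
    have hc2' : ‖im y - ∑ s, (c2 s) • E s‖ ≤ ε / 2 := by simpa [x] using hc2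
    have hsum1 : ∑ s, (c1 s) • E s = ∑ s, ((c1 s : ℝ) : ℂ) • E s :=
      Finset.sum_congr rfl fun s _ => by simp
    have hsum2 : ∑ s, (c2 s) • E s = ∑ s, ((c2 s : ℝ) : ℂ) • E s :=
      Finset.sum_congr rfl fun s _ => by simp
    have hdiff : Polynomial.aeval h G - y =
        - (re y - ∑ s, (c1 s) • E s) - Complex.I • (im y - ∑ s, (c2 s) • E s) := by
      rw [hG]
      conv_lhs => rw [hdecomp y]
      rw [hsum1, hsum2, smul_sub, Finset.smul_sum]
      have h3 : ∑ s, ((c1 s : ℂ) + Complex.I * (c2 s : ℂ)) • E s =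
          ∑ s, ((c1 s : ℝ) : ℂ) • E s + ∑ s, Complex.I • (((c2 s : ℝ) : ℂ) • E s) := by
        rw [← Finset.sum_add_distrib]
        exact Finset.sum_congr rfl fun s _ => by rw [add_smul, smul_smul]
      rw [h3]; abel
    rw [hdiff]
    calc ‖- (re y - ∑ s, (c1 s) • E s) - Complex.I • (im y - ∑ s, (c2 s) • E s)‖
        ≤ ‖- (re y - ∑ s, (c1 s) • E s)‖ + ‖Complex.I • (im y - ∑ s, (c2 s) • E s)‖ :=
          norm_sub_le _ _
      _ = ‖re y - ∑ s, (c1 s) • E s‖ + ‖im y - ∑ s, (c2 s) • E s‖ := by
          rw [norm_neg, norm_smul, Complex.norm_I, one_mul]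
      _ ≤ ε / 2 + ε / 2 := add_le_add hc1' hc2'
      _ = ε := by ring

end Pool.Agent.Hhelper40.RMasa
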