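import Pool.Agent.Hhelper40.RMasa.Frame

/-!
# The step lemma and the universal chain
-/

open scoped InnerProductSpace
open Topology Filter Matrix

namespace Pool.Agent.Hhelper40.RMasa

set_option linter.unusedSectionVars false

universe u

variable {H : Type u} [NormedAddCommGroup H] [InnerProductSpace ℂ H] [CompleteSpace H]
variable {M : VonNeumannAlgebra H} {Ω : H}

namespace Sys

variable {S : Sys M Ω}

theorem fr_mul_mul_fr {n : ℕ} {U : H →L[ℂ] H} (hU : S.IsU n U) {x : H →L[ℂ] H} (hx : x ∈ S.L n)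
    (a : Fin (2 ^ n)) : ∃ r : ℂ, S.fr n U a * x * S.fr n U a = r • S.fr n U a := by
  obtain ⟨X, hX⟩ := S.mem_L.1 (mul_mem (mul_mem (star_mem hU.mem) hx) hU.mem)
  refine ⟨X a a, ?_⟩
  have h1 : S.fr n U a * x * S.fr n U a =
      U * S.ι n (Matrix.single a a 1 * X * Matrix.single a a 1) * star U := by
    rw [map_mul, map_mul, hX, fr]
    simp only [mul_assoc]
  have h2 : Matrix.single a a (1 : ℂ) * X * Matrix.single a a 1 = X a a • Matrix.single a a 1 := by
    rw [Matrix.single_mul_mul_single, one_mul, mul_one, Matrix.smul_single, smul_eq_mul, mul_one]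
  rw [h1, h2, map_smul, mul_smul_comm, smul_mul_assoc, fr]

theorem exists_block {n m : ℕ} {U : H →L[ℂ] H} (hU : S.IsU n U) {c : H →L[ℂ] H}
    (hc : c ∈ S.L m) (a : Fin (2 ^ n)) :
    ∃ y ∈ S.B n m, S.fr n U a * c * S.fr n U a = S.fr n U a * y := by
  have h := mem_span_mul S.comm n hc
  clear hc
  induction h using Submodule.span_induction with
  | mem z hz =>
    obtain ⟨x, hx, y, hy, rfl⟩ := hz
    obtain ⟨r, hr⟩ := fr_mul_mul_fr hU hx a
    refine ⟨r • y, (S.B n m).smul_mem hy r, ?_⟩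
    have hcy : y * S.fr n U a = S.fr n U a * y := (S.L_comm_B (fr_mem_L le_rfl hU a) hy).symm
    calc S.fr n U a * (x * y) * S.fr n U a = S.fr n U a * x * (y * S.fr n U a) := by
          simp only [mul_assoc]
      _ = (S.fr n U a * x * S.fr n U a) * y := by rw [hcy]; simp only [mul_assoc]
      _ = _ := by rw [hr, smul_mul_assoc, mul_smul_comm]
  | zero => exact ⟨0, zero_mem _, by simp⟩
  | add x y _ _ hx hy =>
    obtain ⟨x', hx', hx⟩ := hx
    obtain ⟨y', hy', hy⟩ := hy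
    exact ⟨x' + y', add_mem hx' hy', by rw [mul_add, add_mul, hx, hy, mul_add]⟩
  | smul r x _ hx =>
    obtain ⟨x', hx', hx⟩ := hx
    exact ⟨r • x', (S.B n m).smul_mem hx' r, by rw [mul_smul_comm, smul_mul_assoc, hx,
      mul_smul_comm]⟩

/-- Elements commuting with a frame decompose along it. -/
theorem exists_decomp {n m : ℕ} {U : H →L[ℂ] H} (hU : S.IsU n U) {c : H →L[ℂ] H}
    (hc : c ∈ S.L m) (hcomm : ∀ a, S.fr n U a * c = c * S.fr n U a) :
    ∃ y : Fin (2 ^ n) → (H →L[ℂ] H), (∀ a, y a ∈ S.B n m) ∧ c = ∑ a, S.fr n U a * y a := by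
  choose y hy hya using fun a => exists_block hU hc a
  refine ⟨y, hy, ?_⟩
  simp_rw [← hya]
  have h1 : ∀ a, S.fr n U a * c * S.fr n U a = S.fr n U a * c := by
    intro a
    rw [mul_assoc, ← hcomm a, ← mul_assoc, fr_mul_self hU]
  simp_rw [h1]
  rw [← Finset.sum_mul, sum_fr hU, one_mul]

theorem conj_comm {w x y : H →L[ℂ] H} (hw : star w * w = 1) (h : x * y = y * x) :
    (w * x * star w) * (w * y * star w) = (w * y * star w) * (w * x * star w) := by
  rw [conj_mul hw, conj_mul hw, h]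

theorem conj_of_comm {w x : H →L[ℂ] H} (hw : w * star w = 1) (h : w * x = x * w) :
    w * x * star w = x := by
  rw [h, mul_assoc, hw, mul_one]

theorem star_conj (w x : H →L[ℂ] H) : star (w * x * star w) = w * star x * star w := by
  rw [star_mul, star_mul, star_star, mul_assoc]

theorem sum_comm_of {κ κ' : Type*} [Fintype κ] [Fintype κ'] (e : κ → (H →L[ℂ] H))
    (e' : κ' → (H →L[ℂ] H)) (x : κ → (H →L[ℂ] H)) (z : κ' → (H →L[ℂ] H))
    (h1 : ∀ a b, e a * e' b = e' b * e a) (h2 : ∀ a b, e a * z b = z b * e a)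
    (h3 : ∀ a b, e' b * x a = x a * e' b) (h4 : ∀ a b, x a * z b = z b * x a) :
    (∑ a, e a * x a) * (∑ b, e' b * z b) = (∑ b, e' b * z b) * (∑ a, e a * x a) := by
  simp_rw [Finset.sum_mul, Finset.mul_sum]
  rw [Finset.sum_comm]
  refine Finset.sum_congr rfl fun b _ => Finset.sum_congr rfl fun a _ => ?_
  calc e a * x a * (e' b * z b) = e a * (x a * e' b) * z b := by simp only [mul_assoc]
    _ = (e a * e' b) * (x a * z b) := by rw [← h3]; simp only [mul_assoc]
    _ = e' b * (e a * z b) * x a := by rw [h1, h4]; simp only [mul_assoc]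
    _ = _ := by rw [h2]; simp only [mul_assoc]

/-- A finite net in a set of unitaries of a local algebra. -/
theorem exists_net (S : Sys M Ω) (m : ℕ) (𝒱 : Set (H →L[ℂ] H)) (h𝒱 : ∀ V ∈ 𝒱, S.IsU m V) (ρ : ℝ)
    (hρ : 0 < ρ) : ∃ (R : ℕ) (V : Fin R → (H →L[ℂ] H)), (∀ r, V r ∈ 𝒱) ∧
      ∀ W ∈ 𝒱, ∃ r, ‖(V r - W) Ω‖ ≤ ρ := by
  let f : Matrix (Fin (2 ^ m)) (Fin (2 ^ m)) ℂ →ₗ[ℂ] H :=
    { toFun := fun X => S.ι m X Ω
      map_add' := fun X Y => by rw [map_add]; rfl
      map_smul' := fun c X => by rw [map_smul]; rfl }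
  set K := LinearMap.range f with hK
  have : ProperSpace K := FiniteDimensional.proper ℂ K
  have hcomp : IsCompact ((Subtype.val : K → H) '' Metric.closedBall (0 : K) 1) :=
    (isCompact_closedBall (0 : K) 1).image continuous_subtype_val
  have hsub : ((fun V : H →L[ℂ] H => V Ω) '' 𝒱) ⊆
      (Subtype.val : K → H) '' Metric.closedBall (0 : K) 1 := by
    rintro _ ⟨V, hV, rfl⟩
    obtain ⟨X, hX⟩ := S.mem_L.1 (h𝒱 V hV).mem
    refine ⟨⟨V Ω, X, by rw [← hX]; rfl⟩, ?_, rfl⟩
    rw [mem_closedBall_zero_iff]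
    change ‖V Ω‖ ≤ 1
    rw [norm_apply_of_star_mul (h𝒱 V hV).left, S.hM.norm_one]
  have htb := hcomp.totallyBounded.subset hsub
  obtain ⟨t, hts, htf, htc⟩ := Metric.finite_approx_of_totallyBounded htb ρ hρ
  obtain ⟨R, ⟨e⟩⟩ := htf.exists_equiv_fin
  choose g hg hgt using fun x : t => hts x.2
  refine ⟨R, fun r => g (e.symm r), fun r => hg _, fun W hW => ?_⟩
  obtain ⟨y, hy, hyW⟩ := Set.mem_iUnion₂.1 (htc ⟨W, hW, rfl⟩)
  refine ⟨e ⟨y, hy⟩, ?_⟩
  change ‖(g (e.symm (e ⟨y, hy⟩)) - W) Ω‖ ≤ ρ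
  rw [Equiv.symm_apply_apply, _root_.sub_apply]
  have h1 : (g ⟨y, hy⟩) Ω = y := hgt ⟨y, hy⟩
  rw [h1, ← dist_eq_norm, dist_comm]
  exact (Metric.mem_ball.1 hyW).le

/-- The step lemma. -/
theorem step (S : Sys M Ω) (n : ℕ) (U : H →L[ℂ] H) (hU : S.IsU n U) (D : ℕ) (ρ : ℝ)
    (hρ : 0 < ρ) :
    ∃ (n' : ℕ) (U' : H →L[ℂ] H), n + D ≤ n' ∧ S.IsU n' U' ∧ (∀ a, S.fr n U a ∈ S.Dg n' U') ∧
      ∀ V, S.IsU (n + D) V → (∀ a, S.fr n U a ∈ S.Dg (n + D) V) →
        ∃ w s, S.IsU n' w ∧ (∀ x ∈ S.L n, w * x = x * w) ∧ S.IsU n' s ∧ ‖(s - 1) Ω‖ ≤ ρ ∧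
          ∀ b, s * (w * S.fr (n + D) V b * star w) * star s ∈ S.Dg n' U' := by
  obtain ⟨R, V, hV, hnet⟩ := exists_net S (n + D)
    {V | S.IsU (n + D) V ∧ ∀ a, S.fr n U a ∈ S.Dg (n + D) V} (fun V hV => hV.1) ρ hρ
  set n' := n + D + R * D with hn'
  -- the shifts
  have hp : ∀ r : Fin R, n + D ≤ n + D + r.1 * D := fun r => Nat.le_add_right _ _
  have hp' : ∀ r : Fin R, n + D + r.1 * D + D ≤ n' := by
    intro r
    have h1 : (r.1 + 1) * D ≤ R * D := Nat.mul_le_mul_right D r.2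
    rw [hn']
    have h2 : (r.1 + 1) * D = r.1 * D + D := by ring
    omega
  choose w hw hw1 hw2 hw3 using fun r : Fin R => exists_shift S.comm n (n + D + r.1 * D) D (hp r)
  have hwU : ∀ r, S.IsU n' (w r) := by
    intro r
    refine ⟨Loc_mono ?_ (hw r), hw1 r, hw2 r⟩
    rintro k (⟨_, h2⟩ | ⟨_, h2⟩)
    · show k < n'
      have := hp r; have := hp' r; omega
    · show k < n'
      have := hp' r; omega
  have hwc : ∀ r, ∀ x ∈ S.L n, w r * x = x * w r := by
    intro r x hx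
    refine commute_of_disjoint S.comm ?_ (hw r) hx
    rw [Set.disjoint_left]
    rintro k (⟨h1, _⟩ | ⟨h1, _⟩) (h2 : k < n)
    · omega
    · have := hp r; omega
  have hfrL : ∀ a, S.fr n U a ∈ S.L n := fun a => fr_mem_L le_rfl hU a
  have hfrn' : ∀ a, S.fr n U a ∈ S.L n' := fun a => S.L_mono (by omega) (hfrL a)
  -- commuting family
  let C : Fin (2 ^ n) ⊕ (Fin R × Fin (2 ^ (n + D))) → (H →L[ℂ] H) := fun j =>
    match j with
    | Sum.inl a => S.fr n U a
    | Sum.inr (r, b) => w r * S.fr (n + D) (V r) b * star (w r)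
  have hCmem : ∀ j, C j ∈ S.L n' := by
    rintro (a | ⟨r, b⟩)
    · exact hfrn' a
    · exact mul_mem (mul_mem (hwU r).mem (S.L_mono (by omega) (fr_mem_L le_rfl (hV r).1 b)))
        (star_mem (hwU r).mem)
  have hCs : ∀ j, star (C j) = C j := by
    rintro (a | ⟨r, b⟩)
    · exact S.star_fr n U a
    · change star (w r * S.fr (n + D) (V r) b * star (w r)) = _
      rw [star_conj, star_fr]
  have hdec : ∀ r b, ∃ y : Fin (2 ^ n) → (H →L[ℂ] H),
      (∀ a, y a ∈ Loc S.κ {k | n + D + r.1 * D ≤ k ∧ k < n + D + r.1 * D + D}) ∧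
      w r * S.fr (n + D) (V r) b * star (w r) = ∑ a, S.fr n U a * y a := by
    intro r b
    obtain ⟨y, hy, hyc⟩ := exists_decomp hU (fr_mem_L (n := n + D) le_rfl (hV r).1 b)
      (fun a => Dg_comm (hV r).1 ((hV r).2 a) (fr_mem_Dg (hV r).1 b))
    refine ⟨fun a => w r * y a * star (w r), fun a => hw3 r _ (hy a), ?_⟩
    rw [hyc, Finset.mul_sum, Finset.sum_mul]
    refine Finset.sum_congr rfl fun a _ => ?_
    rw [← mul_assoc (w r), hwc r _ (hfrL a)]
    simp only [mul_assoc]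
  have hdisj : ∀ r, Disjoint {k : ℕ | k < n}
      {k | n + D + r * D ≤ k ∧ k < n + D + r * D + D} := by
    intro r
    rw [Set.disjoint_left]
    rintro k (h1 : k < n) ⟨h2, _⟩
    omega
  have hcomm1 : ∀ a r b, S.fr n U a * (w r * S.fr (n + D) (V r) b * star (w r)) =
      (w r * S.fr (n + D) (V r) b * star (w r)) * S.fr n U a := by
    intro a r b
    have h1 : w r * S.fr n U a * star (w r) = S.fr n U a :=
      conj_of_comm (hw2 r) (hwc r _ (hfrL a))
    have h2 := conj_comm (hw1 r) (Dg_comm (hV r).1 ((hV r).2 a) (fr_mem_Dg (hV r).1 b))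
    rw [h1] at h2
    exact h2
  have hcomm2 : ∀ r b r' b', (w r * S.fr (n + D) (V r) b * star (w r)) *
      (w r' * S.fr (n + D) (V r') b' * star (w r')) =
      (w r' * S.fr (n + D) (V r') b' * star (w r')) *
        (w r * S.fr (n + D) (V r) b * star (w r)) := by
    intro r b r' b'
    by_cases hrr : r = r'
    · subst hrr
      exact conj_comm (hw1 r) (Dg_comm (hV r).1 (fr_mem_Dg (hV r).1 b) (fr_mem_Dg (hV r).1 b'))
    · obtain ⟨y, hy, hye⟩ := hdec r b
      obtain ⟨z, hz, hze⟩ := hdec r' b'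
      rw [hye, hze]
      refine sum_comm_of _ _ _ _ ?_ ?_ ?_ ?_
      · intro a a'
        exact Dg_comm hU (fr_mem_Dg hU a) (fr_mem_Dg hU a')
      · intro a a'
        exact commute_of_disjoint S.comm (hdisj _) (hfrL a) (hz a')
      · intro a a'
        exact commute_of_disjoint S.comm (hdisj _) (hfrL a') (hy a)
      · intro a a'
        refine commute_of_disjoint S.comm ?_ (hy a) (hz a')
        rw [Set.disjoint_left]
        rintro k ⟨h1, h2⟩ ⟨h3, h4⟩
        rcases lt_or_gt_of_ne (fun h => hrr (Fin.ext h) : r.1 ≠ r'.1) with h | h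
        · have h5 : (r.1 + 1) * D ≤ r'.1 * D := Nat.mul_le_mul_right D h
          have h6 : (r.1 + 1) * D = r.1 * D + D := by ring
          omega
        · have h5 : (r'.1 + 1) * D ≤ r.1 * D := Nat.mul_le_mul_right D h
          have h6 : (r'.1 + 1) * D = r'.1 * D + D := by ring
          omega
  have hCc : ∀ j k, C j * C k = C k * C j := by
    rintro (a | ⟨r, b⟩) (a' | ⟨r', b'⟩)
    · exact Dg_comm hU (fr_mem_Dg hU a) (fr_mem_Dg hU a')
    · exact hcomm1 a r' b'
    · exact (hcomm1 a' r b).symm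
    · exact hcomm2 r b r' b'
  obtain ⟨U', hU', hCU⟩ := exists_frame S C hCmem hCs hCc
  refine ⟨n', U', by omega, hU', fun a => hCU (Sum.inl a), ?_⟩
  intro W hW hWfr
  obtain ⟨r, hr⟩ := hnet W ⟨hW, hWfr⟩
  have hs0 : S.IsU (n + D) (V r * star W) := (hV r).1.mul hW.star
  have hnn : n + D ≤ n' := by omega
  have hs0' := hs0.mono hnn
  refine ⟨w r, w r * (V r * star W) * star (w r), hwU r, hwc r,
    ((hwU r).mul hs0').mul (hwU r).star, ?_, ?_⟩
  · have e1 : w r * (V r * star W) * star (w r) - 1 =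
        w r * ((V r * star W) - 1) * star (w r) := by
      rw [mul_sub, sub_mul, mul_one, (hwU r).right]
    rw [e1, norm_conj (hwU r).left (hwU r).right (S.L_le_M (hwU r).mem) S.hM
      (S.L_le_M (sub_mem hs0.mem (one_mem _)))]
    have e2 : V r * star W - 1 = (V r - W) * star W := by
      rw [sub_mul, hW.right]
    rw [e2]
    calc _ ≤ ‖star W‖ * ‖(V r - W) Ω‖ := S.hM.norm_mul_le
          (S.L_le_M (sub_mem (hV r).1.mem hW.mem)) (S.L_le_M (star_mem hW.mem))
      _ ≤ 1 * ‖(V r - W) Ω‖ := by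
          refine mul_le_mul_of_nonneg_right ?_ (norm_nonneg _)
          rw [_root_.norm_star]
          exact norm_le_one_of_star_mul hW.left
      _ ≤ ρ := by rw [one_mul]; exact hr
  · intro b
    have e1 : w r * (V r * star W) * star (w r) * (w r * S.fr (n + D) W b * star (w r)) *
        star (w r * (V r * star W) * star (w r)) =
        w r * S.fr (n + D) (V r) b * star (w r) := by
      rw [star_conj, conj_mul (hw1 r), conj_mul (hw1 r)]
      congr 2
      rw [fr, fr, star_mul, star_star]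
      calc V r * star W * (W * S.ι (n + D) (Matrix.single b b 1) * star W) * (W * star (V r))
          = V r * (star W * W) * S.ι (n + D) (Matrix.single b b 1) * (star W * W) * star (V r) := by
            simp only [mul_assoc]
        _ = _ := by rw [hW.left, mul_one, mul_one]
    rw [e1]
    exact hCU (Sum.inr (r, b))

end Sys

end Pool.Agent.Hhelper40.RMasa
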