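import Pool.Agent.Hhelper40.RMasa.Basic
import Pool.Agent.Hhelper40.RMasa.Hyp
import Pool.Agent.Hhelper40.RMasa.Local2
import Pool.Agent.Hhelper40.RMasa.Mat

/-!
# The hyperfinite II_1 factor with its local algebras
-/

open scoped InnerProductSpace
open Topology Filter Matrix

namespace Pool.Agent.Hhelper40.RMasa

universe u

variable {H : Type u} [NormedAddCommGroup H] [InnerProductSpace ℂ H] [CompleteSpace H]
variable {M : VonNeumannAlgebra H} {Ω : H}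

/-- A hyperfinite II_1 factor with its local algebras. -/
structure Sys (M : VonNeumannAlgebra H) (Ω : H) where
  hM : IsII1Factor M Ω
  κ : ℕ → (Matrix (Fin 2) (Fin 2) ℂ →⋆ₐ[ℂ] (H →L[ℂ] H))
  comm : ∀ k l, k ≠ l → ∀ x y, κ k x * κ l y = κ l y * κ k x
  gen : (M : Set (H →L[ℂ] H)) = Set.centralizer (Set.centralizer (⋃ k, Set.range (κ k)))
  ι : ∀ n : ℕ, Matrix (Fin (2 ^ n)) (Fin (2 ^ n)) ℂ →⋆ₐ[ℂ] (H →L[ℂ] H)
  range_ι : ∀ n, (ι n).range = Loc κ {k | k < n}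

theorem nonempty_sys (hM : IsII1Factor M Ω) (hH : IsHyperfinite M) : Nonempty (Sys M Ω) := by
  obtain ⟨κ, comm, gen⟩ := (isHyperfinite_iff M).1 hH
  choose ι hι using fun n => exists_iota (κ := κ) comm n
  exact ⟨⟨hM, κ, comm, gen, ι, hι⟩⟩

namespace Sys

variable (S : Sys M Ω)

/-- The algebra of the first `n` sites. -/
noncomputable abbrev L (n : ℕ) : StarSubalgebra ℂ (H →L[ℂ] H) := Loc S.κ {k | k < n}

/-- The algebra of the sites in `[n, m)`. -/
noncomputable abbrev B (n m : ℕ) : StarSubalgebra ℂ (H →L[ℂ] H) := Loc S.κ {k | n ≤ k ∧ k < m}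

theorem mem_L {n : ℕ} {x : H →L[ℂ] H} : x ∈ S.L n ↔ ∃ X, S.ι n X = x := by
  rw [L, ← S.range_ι n]
  rfl

theorem ι_mem (n : ℕ) (X) : S.ι n X ∈ S.L n := S.mem_L.2 ⟨X, rfl⟩

theorem L_mono {n m : ℕ} (h : n ≤ m) : S.L n ≤ S.L m :=
  Loc_mono fun k (hk : k < n) => (lt_of_lt_of_le hk h : k < m)

theorem B_le_L {n m : ℕ} : S.B n m ≤ S.L m := Loc_mono fun _ hk => hk.2

theorem L_comm_B {n m : ℕ} {x y : H →L[ℂ] H} (hx : x ∈ S.L n) (hy : y ∈ S.B n m) :
    x * y = y * x := by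
  refine commute_of_disjoint S.comm ?_ hx hy
  rw [Set.disjoint_left]
  rintro k hk ⟨h1, _⟩
  exact absurd hk (not_lt.2 h1)

theorem site_mem_M (k : ℕ) (x : Matrix (Fin 2) (Fin 2) ℂ) : S.κ k x ∈ M := by
  have h : S.κ k x ∈ (M : Set (H →L[ℂ] H)) := by
    rw [S.gen]
    exact Set.subset_centralizer_centralizer (Set.mem_iUnion.2 ⟨k, x, rfl⟩)
  exact h

theorem Loc_le_M {T : Set ℕ} {x : H →L[ℂ] H} (hx : x ∈ Loc S.κ T) : x ∈ M := by
  have h : Loc S.κ T ≤ M.toStarSubalgebra := Loc_le fun k _ y => S.site_mem_M k y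
  exact h hx

theorem L_le_M {n : ℕ} {x : H →L[ℂ] H} (hx : x ∈ S.L n) : x ∈ M := S.Loc_le_M hx

/-! ### The trace -/

theorem trace_single (n : ℕ) (i j : Fin (2 ^ n)) (hij : i ≠ j) :
    ⟪Ω, S.ι n (Matrix.single i j 1) Ω⟫_ℂ = 0 := by
  have e1 : Matrix.single i j (1 : ℂ) = Matrix.single i i 1 * Matrix.single i j 1 := by
    rw [Matrix.single_mul_single_same, mul_one]
  have h := S.hM.trace (S.ι n (Matrix.single i i 1)) (S.L_le_M (S.ι_mem n _))
    (S.ι n (Matrix.single i j 1)) (S.L_le_M (S.ι_mem n _))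
  rw [e1, map_mul]
  change ⟪Ω, (S.ι n (Matrix.single i i 1)) ((S.ι n (Matrix.single i j 1)) Ω)⟫_ℂ = 0
  rw [h]
  change ⟪Ω, (S.ι n (Matrix.single i j 1) * S.ι n (Matrix.single i i 1)) Ω⟫_ℂ = 0
  rw [← map_mul, Matrix.single_mul_single_of_ne _ _ _ _ hij.symm, map_zero]
  simp

theorem trace_single_self (n : ℕ) (i j : Fin (2 ^ n)) :
    ⟪Ω, S.ι n (Matrix.single i i 1) Ω⟫_ℂ = ⟪Ω, S.ι n (Matrix.single j j 1) Ω⟫_ℂ := by
  have e1 : Matrix.single i i (1 : ℂ) = Matrix.single i j 1 * Matrix.single j i 1 := by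
    rw [Matrix.single_mul_single_same, mul_one]
  have e2 : Matrix.single j j (1 : ℂ) = Matrix.single j i 1 * Matrix.single i j 1 := by
    rw [Matrix.single_mul_single_same, mul_one]
  have h := S.hM.trace (S.ι n (Matrix.single i j 1)) (S.L_le_M (S.ι_mem n _))
    (S.ι n (Matrix.single j i 1)) (S.L_le_M (S.ι_mem n _))
  rw [e1, e2, map_mul, map_mul]
  exact h

theorem trace_single_eq (n : ℕ) (i : Fin (2 ^ n)) :
    ⟪Ω, S.ι n (Matrix.single i i 1) Ω⟫_ℂ = 1 / 2 ^ n := by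
  have h1 : ∑ j : Fin (2 ^ n), ⟪Ω, S.ι n (Matrix.single j j 1) Ω⟫_ℂ = 1 := by
    rw [← inner_sum]
    have : ∑ j : Fin (2 ^ n), S.ι n (Matrix.single j j 1) Ω = Ω := by
      rw [← _root_.sum_apply, ← map_sum, Matrix.sum_single_one, map_one]
      rfl
    rw [this, inner_self_eq_norm_sq_to_K, S.hM.norm_one]
    simp
  have h2 : ∀ j, ⟪Ω, S.ι n (Matrix.single j j 1) Ω⟫_ℂ = ⟪Ω, S.ι n (Matrix.single i i 1) Ω⟫_ℂ :=
    fun j => S.trace_single_self n j i
  simp_rw [h2] at h1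
  rw [Finset.sum_const, Finset.card_univ, Fintype.card_fin, nsmul_eq_mul] at h1
  push_cast at h1
  have h3 : (2 ^ n : ℂ) ≠ 0 := pow_ne_zero _ two_ne_zero
  field_simp
  linear_combination h1

theorem trace_ι (n : ℕ) (X : Matrix (Fin (2 ^ n)) (Fin (2 ^ n)) ℂ) :
    ⟪Ω, S.ι n X Ω⟫_ℂ = X.trace / 2 ^ n := by
  have h1 : ∀ i j, Matrix.single i j (X i j) = (X i j) • Matrix.single i j (1 : ℂ) := by
    intro c d
    rw [Matrix.smul_single, smul_eq_mul, mul_one]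
  conv_lhs => rw [Matrix.matrix_eq_sum_single X]
  simp_rw [h1, map_sum, map_smul, _root_.sum_apply, inner_sum]
  have h2 : ∀ i j, ⟪Ω, ((X i j) • S.ι n (Matrix.single i j 1)) Ω⟫_ℂ =
      if i = j then X i j * (1 / 2 ^ n) else 0 := by
    intro i j
    have : ((X i j) • S.ι n (Matrix.single i j 1)) Ω = (X i j) • (S.ι n (Matrix.single i j 1) Ω) :=
      rfl
    rw [this, inner_smul_right]
    by_cases h : i = j
    · subst h
      rw [if_pos rfl, S.trace_single_eq]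
    · rw [if_neg h, S.trace_single n i j h, mul_zero]
  simp_rw [h2]
  rw [Matrix.trace, Finset.sum_div]
  refine Finset.sum_congr rfl fun i _ => ?_
  rw [Finset.sum_ite_eq]
  simp [div_eq_mul_inv]

theorem norm_ι (n : ℕ) (X : Matrix (Fin (2 ^ n)) (Fin (2 ^ n)) ℂ) :
    ‖S.ι n X Ω‖ ^ 2 = hs2 X := by
  have h1 : ⟪S.ι n X Ω, S.ι n X Ω⟫_ℂ = (star X * X).trace / 2 ^ n := by
    rw [← S.trace_ι, map_mul, map_star, ← inner_star_right]
    rfl
  have h2 : (star X * X).trace = ((∑ i, ∑ j, ‖X i j‖ ^ 2 : ℝ) : ℂ) := by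
    rw [Matrix.trace]
    simp only [Matrix.diag_apply, Matrix.mul_apply, Matrix.star_apply]
    rw [Finset.sum_comm]
    push_cast
    refine Finset.sum_congr rfl fun i _ => Finset.sum_congr rfl fun j _ => ?_
    rw [← Complex.conj_mul']
    rfl
  rw [inner_self_eq_norm_sq_to_K, h2] at h1
  rw [hs2, Fintype.card_fin]
  have h3 : ((‖S.ι n X Ω‖ ^ 2 : ℝ) : ℂ) = (((∑ i, ∑ j, ‖X i j‖ ^ 2) / ((2 ^ n : ℕ) : ℝ) : ℝ) : ℂ) := by
    push_cast
    push_cast at h1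
    exact h1
  exact_mod_cast h3

theorem ι_injective (n : ℕ) : Function.Injective (S.ι n) := by
  rw [injective_iff_map_eq_zero]
  intro X hX
  have h := S.norm_ι n X
  rw [hX] at h
  have h0 : hs2 X = 0 := by
    rw [← h]; simp
  rw [hs2, Fintype.card_fin, div_eq_zero_iff] at h0
  rcases h0 with h0 | h0
  · ext i j
    have h1 := (Finset.sum_eq_zero_iff_of_nonneg (fun i _ => Finset.sum_nonneg
      fun j _ => sq_nonneg _)).1 h0 i (Finset.mem_univ _)
    have h2 := (Finset.sum_eq_zero_iff_of_nonneg (fun j _ => sq_nonneg _)).1 h1 j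
      (Finset.mem_univ _)
    simpa using h2
  · exfalso
    have : (0 : ℝ) < ((2 ^ n : ℕ) : ℝ) := by positivity
    exact this.ne' h0

/-! ### Unitaries -/

/-- `U` is a unitary of the algebra of the first `n` sites. -/
structure IsU (n : ℕ) (U : H →L[ℂ] H) : Prop where
  mem : U ∈ S.L n
  left : star U * U = 1
  right : U * star U = 1

theorem IsU.one (n : ℕ) : S.IsU n 1 := ⟨one_mem _, by simp, by simp⟩

variable {S}

theorem IsU.mul {n : ℕ} {U V : H →L[ℂ] H} (hU : S.IsU n U) (hV : S.IsU n V) : S.IsU n (U * V) := by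
  refine ⟨mul_mem hU.mem hV.mem, ?_, ?_⟩
  · rw [star_mul]
    calc star V * star U * (U * V) = star V * (star U * U) * V := by simp only [mul_assoc]
      _ = 1 := by rw [hU.left, mul_one, hV.left]
  · rw [star_mul]
    calc U * V * (star V * star U) = U * (V * star V) * star U := by simp only [mul_assoc]
      _ = 1 := by rw [hV.right, mul_one, hU.right]

theorem IsU.star {n : ℕ} {U : H →L[ℂ] H} (hU : S.IsU n U) : S.IsU n (star U) :=
  ⟨star_mem hU.mem, by rw [star_star]; exact hU.right, by rw [star_star]; exact hU.left⟩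

theorem IsU.mono {n m : ℕ} (h : n ≤ m) {U : H →L[ℂ] H} (hU : S.IsU n U) : S.IsU m U :=
  ⟨S.L_mono h hU.mem, hU.left, hU.right⟩

theorem norm_apply_of_star_mul {U : H →L[ℂ] H} (h : star U * U = 1) (ξ : H) : ‖U ξ‖ = ‖ξ‖ := by
  have h1 : ⟪U ξ, U ξ⟫_ℂ = ⟪ξ, ξ⟫_ℂ := by
    rw [← inner_star_right]
    change ⟪ξ, (star U * U) ξ⟫_ℂ = _
    rw [h]; rfl
  rw [inner_self_eq_norm_sq_to_K, inner_self_eq_norm_sq_to_K] at h1
  have h2 : ‖U ξ‖ ^ 2 = ‖ξ‖ ^ 2 := by exact_mod_cast h1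
  exact (pow_left_inj₀ (norm_nonneg _) (norm_nonneg _) two_ne_zero).1 h2

theorem norm_le_one_of_star_mul {U : H →L[ℂ] H} (h : star U * U = 1) : ‖U‖ ≤ 1 :=
  U.opNorm_le_bound zero_le_one fun ξ => by rw [norm_apply_of_star_mul h, one_mul]

/-- Conjugation by a unitary preserves the 2-norm. -/
theorem norm_conj {U x : H →L[ℂ] H} (hU : star U * U = 1) (hU' : U * star U = 1) (hUM : U ∈ M)
    (hM : IsII1Factor M Ω) (hx : x ∈ M) : ‖(U * x * star U) Ω‖ = ‖x Ω‖ := by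
  have key : ∀ y ∈ M, ∀ V ∈ M, star V * V = 1 → V * star V = 1 →
      ‖(V * y * star V) Ω‖ ≤ ‖y Ω‖ := by
    intro y hy V hV h1 h2
    have e1 : ‖(V * y * star V) Ω‖ ≤ ‖star V‖ * ‖(V * y) Ω‖ :=
      hM.norm_mul_le (mul_mem hV hy) (star_mem_vn M hV)
    have e2 : ‖(V * y) Ω‖ = ‖y Ω‖ := norm_apply_of_star_mul h1 (y Ω)
    have e3 : ‖star V‖ ≤ 1 := by rw [_root_.norm_star]; exact norm_le_one_of_star_mul h1
    calc _ ≤ _ := e1
      _ ≤ 1 * ‖(V * y) Ω‖ := mul_le_mul_of_nonneg_right e3 (norm_nonneg _)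
      _ = _ := by rw [one_mul, e2]
  apply le_antisymm (key x hx U hUM hU hU')
  have h3 := key (U * x * star U) (mul_mem (mul_mem hUM hx) (star_mem_vn M hUM)) (star U)
    (star_mem_vn M hUM) (by rw [star_star]; exact hU') (by rw [star_star]; exact hU)
  have h4 : star U * (U * x * star U) * star (star U) = x := by
    rw [star_star]
    calc star U * (U * x * star U) * U = (star U * U) * x * (star U * U) := by
          simp only [mul_assoc]
      _ = x := by rw [hU, one_mul, mul_one]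
  rw [h4] at h3
  exact h3

variable (S)

theorem isU_ι {n : ℕ} {X : Matrix (Fin (2 ^ n)) (Fin (2 ^ n)) ℂ}
    (hX : X ∈ Matrix.unitaryGroup (Fin (2 ^ n)) ℂ) : S.IsU n (S.ι n X) := by
  refine ⟨S.ι_mem n X, ?_, ?_⟩
  · rw [← map_star, ← map_mul, Matrix.mem_unitaryGroup_iff'.1 hX, map_one]
  · rw [← map_star, ← map_mul, Matrix.mem_unitaryGroup_iff.1 hX, map_one]

variable {S}

theorem IsU.exists_matrix {n : ℕ} {U : H →L[ℂ] H} (hU : S.IsU n U) :
    ∃ X ∈ Matrix.unitaryGroup (Fin (2 ^ n)) ℂ, S.ι n X = U := by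
  obtain ⟨X, hX⟩ := S.mem_L.1 hU.mem
  refine ⟨X, ?_, hX⟩
  rw [Matrix.mem_unitaryGroup_iff]
  apply S.ι_injective n
  rw [map_mul, map_star, hX, map_one, hU.right]

end Sys

end Pool.Agent.Hhelper40.RMasa
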