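import Pool.Agent.Hhelper40.RMasa.Exp
import Pool.Agent.Hhelper40.RMasa.Cfc
import Pool.Agent.Hhelper40.RMasa.Nhds
import Pool.Agent.Hhelper40.RMasa.Limit
import Pool.Agent.Hhelper40.RMasa.SingleGen

/-!
# Open sets given by frames
-/

open scoped InnerProductSpace
open Topology Filter

namespace Pool.Agent.Hhelper40.RMasa

set_option linter.unusedSectionVars false

universe u

variable {H : Type u} [NormedAddCommGroup H] [InnerProductSpace ℂ H] [CompleteSpace H]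
variable {M : VonNeumannAlgebra H} {Ω : H}

/-- The functional `x ↦ ⟪u Ω, x Ω⟫`. -/
noncomputable def phi (Ω : H) (u : H →L[ℂ] H) : (H →L[ℂ] H) →L[ℂ] ℂ :=
  (innerSL ℂ (u Ω)).comp (ContinuousLinearMap.apply ℂ H Ω)

theorem phi_apply (Ω : H) (u x : H →L[ℂ] H) : phi Ω u x = ⟪u Ω, x Ω⟫_ℂ := rfl

theorem isNormal_phi (Ω : H) (u : H →L[ℂ] H) : IsNormalFunctional (phi Ω u) := by
  refine ⟨fun n => if n = 0 then u Ω else 0, fun n => if n = 0 then Ω else 0, ?_, ?_, ?_⟩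
  · refine summable_of_ne_finset_zero (s := {0}) ?_
    intro n hn
    rw [Finset.mem_singleton] at hn
    simp [hn]
  · refine summable_of_ne_finset_zero (s := {0}) ?_
    intro n hn
    rw [Finset.mem_singleton] at hn
    simp [hn]
  · intro x
    rw [tsum_eq_single 0]
    · simp [phi_apply]
    · intro n hn
      simp [hn]

theorem continuous_restrNorm {φ : (H →L[ℂ] H) →L[ℂ] ℂ} (hφ : IsNormalFunctional φ) :
    Continuous (restrNorm φ) :=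
  continuous_iInf_dom (i := (⟨φ, hφ⟩ : {φ : (H →L[ℂ] H) →L[ℂ] ℂ // IsNormalFunctional φ}))
    continuous_induced_dom

theorem bddAbove_restr (φ : (H →L[ℂ] H) →L[ℂ] ℂ) (N : VonNeumannAlgebra H) :
    BddAbove {r : ℝ | ∃ x ∈ N, ‖x‖ ≤ 1 ∧ r = ‖φ x‖} := by
  refine ⟨‖φ‖, ?_⟩
  rintro _ ⟨x, _, hx, rfl⟩
  calc ‖φ x‖ ≤ ‖φ‖ * ‖x‖ := φ.le_opNorm x
    _ ≤ ‖φ‖ * 1 := mul_le_mul_of_nonneg_left hx (norm_nonneg _)
    _ = ‖φ‖ := mul_one _

/-- The open set of masas nearly containing the operators `u a`. -/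
def Nb {κ : Type*} (M : VonNeumannAlgebra H) (Ω : H) (u : κ → (H →L[ℂ] H)) (δ : ℝ) :
    Set (Masa M) := {B | ∀ a, 1 - δ < restrNorm (phi Ω (u a)) B.1}

theorem isOpen_Nb {κ : Type*} [Finite κ] (u : κ → (H →L[ℂ] H)) (δ : ℝ) :
    IsOpen (Nb M Ω u δ) := by
  have h : Nb M Ω u δ = ⋂ a, {B : Masa M | 1 - δ < restrNorm (phi Ω (u a)) B.1} := by
    ext B
    simp [Nb]
  rw [h]
  refine isOpen_iInter_of_finite fun a => ?_
  have hc : Continuous (fun B : Masa M => restrNorm (phi Ω (u a)) B.1) :=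
    (continuous_restrNorm (isNormal_phi Ω (u a))).comp continuous_induced_dom
  exact isOpen_lt continuous_const hc

theorem mem_Nb_of_near {κ : Type*} {u : κ → (H →L[ℂ] H)} {δ : ℝ} {B : Masa M}
    (hu : ∀ a, ‖(u a) Ω‖ = 1) (h : ∀ a, ∃ b ∈ B.1, ‖b‖ ≤ 1 ∧ ‖(b - u a) Ω‖ < δ) :
    B ∈ Nb M Ω u δ := by
  intro a
  obtain ⟨b, hb, hb1, hba⟩ := h a
  have h1 : ‖phi Ω (u a) b‖ ≤ restrNorm (phi Ω (u a)) B.1 :=
    le_csSup (bddAbove_restr _ _) ⟨b, hb, hb1, rfl⟩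
  refine lt_of_lt_of_le ?_ h1
  have h2 : phi Ω (u a) b = 1 + ⟪(u a) Ω, (b - u a) Ω⟫_ℂ := by
    rw [phi_apply, _root_.sub_apply, inner_sub_right, inner_self_eq_norm_sq_to_K, hu]
    simp
  have h3 : ‖⟪(u a) Ω, (b - u a) Ω⟫_ℂ‖ < δ := by
    refine lt_of_le_of_lt (norm_inner_le_norm _ _) ?_
    rw [hu, one_mul]
    exact hba
  rw [h2]
  have h4 : ‖(1 : ℂ)‖ ≤ ‖1 + ⟪(u a) Ω, (b - u a) Ω⟫_ℂ‖ + ‖⟪(u a) Ω, (b - u a) Ω⟫_ℂ‖ := by
    have := norm_sub_le (1 + ⟪(u a) Ω, (b - u a) Ω⟫_ℂ) (⟪(u a) Ω, (b - u a) Ω⟫_ℂ)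
    rwa [add_sub_cancel_right] at this
  rw [norm_one] at h4
  linarith

theorem near_of_mem_Nb {κ : Type*} {u : κ → (H →L[ℂ] H)} {δ : ℝ} {B : Masa M}
    (hM : IsII1Factor M Ω)
    (hu : ∀ a, ‖(u a) Ω‖ = 1) (h : B ∈ Nb M Ω u δ) (hδ : δ < 1) (a : κ) :
    ∃ b ∈ B.1, ‖b‖ ≤ 1 ∧ ‖(b - u a) Ω‖ ^ 2 ≤ 2 * δ := by
  have h1 := h a
  obtain ⟨_, ⟨b, hb, hb1, rfl⟩, hlt⟩ := exists_lt_of_lt_csSup
    (s := {r : ℝ | ∃ x ∈ B.1, ‖x‖ ≤ 1 ∧ r = ‖phi Ω (u a) x‖})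
    ⟨_, 0, zero_mem _, by simp, rfl⟩ h1
  set z := phi Ω (u a) b with hz
  have hz0 : 0 < ‖z‖ := by linarith
  set c : ℂ := (starRingEnd ℂ z) / ‖z‖ with hc
  have hc1 : ‖c‖ = 1 := by
    rw [hc, norm_div, RCLike.norm_conj, Complex.norm_real, norm_norm, div_self hz0.ne']
  have hcz : c * z = ((‖z‖ : ℝ) : ℂ) := by
    rw [hc, div_mul_eq_mul_div, mul_comm, Complex.mul_conj', div_eq_iff (by exact_mod_cast hz0.ne')]
    ring
  refine ⟨c • b, smul_mem_vn B.1 c hb, ?_, ?_⟩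
  · rw [norm_smul, hc1, one_mul]; exact hb1
  · have e1 : ((c • b) - u a) Ω = (c • b) Ω - (u a) Ω := rfl
    rw [e1, @norm_sub_sq ℂ, hu]
    have e2 : ⟪(c • b) Ω, (u a) Ω⟫_ℂ = ((‖z‖ : ℝ) : ℂ) := by
      have e3 : ⟪(u a) Ω, (c • b) Ω⟫_ℂ = ((‖z‖ : ℝ) : ℂ) := by
        rw [← hcz]
        change ⟪(u a) Ω, c • (b Ω)⟫_ℂ = _
        rw [inner_smul_right]
        rfl
      rw [← inner_conj_symm, e3, Complex.conj_ofReal]
    rw [e2]
    have e4 : ‖(c • b) Ω‖ ≤ 1 := by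
      refine (hM.norm_apply_le _).trans ?_
      rw [norm_smul, hc1, one_mul]; exact hb1
    have e5 : ‖(c • b) Ω‖ ^ 2 ≤ 1 := pow_le_one₀ (norm_nonneg _) e4
    have e6 : RCLike.re (((‖z‖ : ℝ) : ℂ)) = ‖z‖ := Complex.ofReal_re _
    rw [e6]
    linarith

/-! ### Truncation -/

/-- The retraction of the plane on the closed unit disc. -/
noncomputable def rr (z : ℂ) : ℂ := z / ((max 1 ‖z‖ : ℝ) : ℂ)

theorem continuous_rr : Continuous rr := by
  unfold rr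
  refine continuous_id.div₀ (Complex.continuous_ofReal.comp
    (continuous_const.max continuous_norm)) fun z => ?_
  have : (0 : ℝ) < max 1 ‖z‖ := lt_of_lt_of_le one_pos (le_max_left _ _)
  exact_mod_cast this.ne'

theorem norm_rr_le (z : ℂ) : ‖rr z‖ ≤ 1 := by
  have h1 : (0 : ℝ) < max 1 ‖z‖ := lt_of_lt_of_le one_pos (le_max_left _ _)
  rw [rr, norm_div, Complex.norm_real, Real.norm_of_nonneg h1.le, div_le_one h1]
  exact le_max_right _ _

theorem rr_of_le {z : ℂ} (h : ‖z‖ ≤ 1) : rr z = z := by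
  rw [rr, max_eq_left h]; simp

theorem norm_rr_sub_le {z : ℂ} {η : ℝ} (hη : 0 ≤ η) (h : ‖z‖ ≤ 1 + η) : ‖rr z - z‖ ≤ η := by
  rcases le_total ‖z‖ 1 with h1 | h1
  · rw [rr_of_le h1]; simpa using hη
  · rw [rr, max_eq_right h1]
    have h0 : (0 : ℝ) < ‖z‖ := lt_of_lt_of_le one_pos h1
    have h0' : ((‖z‖ : ℝ) : ℂ) ≠ 0 := by exact_mod_cast h0.ne'
    have e : z / ((‖z‖ : ℝ) : ℂ) - z = (z / ((‖z‖ : ℝ) : ℂ)) * (((1 - ‖z‖ : ℝ)) : ℂ) := by
      push_cast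
      field_simp
    rw [e, norm_mul, norm_div, Complex.norm_real, norm_norm, div_self h0.ne', one_mul,
      Complex.norm_real, Real.norm_eq_abs, abs_sub_comm, abs_of_nonneg (by linarith)]
    linarith

theorem norm_le_of_mem_spectrum {a : H →L[ℂ] H} {z : ℂ} (hz : z ∈ spectrum ℂ a) : ‖z‖ ≤ ‖a‖ := by
  rcases subsingleton_or_nontrivial H with h | h
  · exfalso
    have : Subsingleton (H →L[ℂ] H) := ⟨fun x y => ContinuousLinearMap.ext fun ξ =>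
      Subsingleton.elim _ _⟩
    rw [spectrum.of_subsingleton] at hz
    exact hz
  · exact spectrum.norm_le_norm_of_mem hz

theorem norm_cfc_rr_le (f : ℂ → ℂ) (a : H →L[ℂ] H) : ‖cfc (fun z => rr (f z)) a‖ ≤ 1 :=
  norm_cfc_le zero_le_one fun z _ => norm_rr_le (f z)

theorem cfc_rr_eq {a : H →L[ℂ] H} (ha : IsStarNormal a) (h : ‖a‖ ≤ 1) : cfc rr a = a := by
  have h1 : cfc rr a = cfc (id : ℂ → ℂ) a := by
    refine cfc_congr fun z hz => ?_
    exact rr_of_le ((norm_le_of_mem_spectrum hz).trans h)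
  rw [h1]
  exact cfc_id ℂ a ha

theorem isStarNormal_of_mem (B : Masa M) {x : H →L[ℂ] H} (hx : x ∈ B.1) : IsStarNormal x :=
  ⟨B.2.2.1 (star x) (star_mem_vn B.1 hx) x hx⟩

namespace Sys

variable {S : Sys M Ω}

theorem isStarNormal_of_mem_Dg {m : ℕ} {V : H →L[ℂ] H} (hV : S.IsU m V) {x : H →L[ℂ] H}
    (hx : x ∈ S.Dg m V) : IsStarNormal x :=
  ⟨Dg_comm hV (star_mem hx) hx⟩

/-- The reflections of a frame. -/
noncomputable def rf (S : Sys M Ω) (n : ℕ) (U : H →L[ℂ] H) (a : Fin (2 ^ n)) : H →L[ℂ] H :=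
  (2 : ℂ) • S.fr n U a - 1

theorem rf_mem_Dg {n : ℕ} {U : H →L[ℂ] H} (hU : S.IsU n U) (a : Fin (2 ^ n)) :
    S.rf n U a ∈ S.Dg n U :=
  sub_mem (StarSubalgebra.smul_mem _ (fr_mem_Dg hU a) 2) (one_mem _)

theorem star_rf (S : Sys M Ω) (n : ℕ) (U : H →L[ℂ] H) (a : Fin (2 ^ n)) :
    star (S.rf n U a) = S.rf n U a := by
  rw [rf, star_sub, star_smul, star_fr, star_one]
  congr 2
  simp

theorem rf_mul_self {n m : ℕ} {U : H →L[ℂ] H} (hU : S.IsU m U) (a : Fin (2 ^ n)) :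
    S.rf n U a * S.rf n U a = 1 := by
  have h := fr_mul_self hU a
  rw [rf, sub_mul, mul_sub, one_mul, mul_one, smul_mul_assoc, mul_smul_comm, h, smul_smul]
  rw [show ((2 : ℂ) * 2) = 2 + 2 by norm_num, add_smul]
  abel

theorem norm_rf_apply {n m : ℕ} {U : H →L[ℂ] H} (hU : S.IsU m U) (a : Fin (2 ^ n)) :
    ‖(S.rf n U a) Ω‖ = 1 := by
  rw [norm_apply_of_star_mul (by rw [star_rf]; exact rf_mul_self hU a), S.hM.norm_one]

theorem norm_rf_le {n m : ℕ} {U : H →L[ℂ] H} (hU : S.IsU m U) (a : Fin (2 ^ n)) :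
    ‖S.rf n U a‖ ≤ 1 :=
  norm_le_one_of_star_mul (by rw [star_rf]; exact rf_mul_self hU a)

/-- Elements of a diagonal algebra of norm at most one are nearly contained in every masa which
nearly contains the frame. -/
theorem exists_delta {m : ℕ} {V : H →L[ℂ] H} (hV : S.IsU m V) {u : H →L[ℂ] H}
    (hu : u ∈ S.Dg m V) (hu1 : ‖u‖ ≤ 1) {ε : ℝ} (hε : 0 < ε) :
    ∃ δ > 0, ∀ B ∈ Nb M Ω (S.rf m V) δ, ∃ b ∈ B.1, ‖b‖ ≤ 1 ∧ ‖(b - u) Ω‖ < ε := by
  obtain ⟨d, hd⟩ := Dg_eq_sum hV hu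
  set R : ℝ := max 1 (∑ a, ‖d a‖) with hR
  obtain ⟨δ₁, hδ₁, hcfc⟩ := cfc_two_norm_continuous S.hM rr continuous_rr R ε hε
  set Q : ℝ := (∑ a, ‖d a‖) + 1 with hQ
  have hQ0 : 0 < Q := by
    have : 0 ≤ ∑ a, ‖d a‖ := Finset.sum_nonneg fun a _ => norm_nonneg _
    linarith
  -- choose δ with √(2δ) Q < δ₁
  set δ : ℝ := min (1 / 2) ((δ₁ / Q) ^ 2 / 8) with hδ
  have hδ0 : 0 < δ := lt_min (by norm_num) (by positivity)
  refine ⟨δ, hδ0, fun B hB => ?_⟩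
  choose b hb hb1 hba using fun a => near_of_mem_Nb S.hM (fun a => norm_rf_apply hV a) hB
    (lt_of_le_of_lt (min_le_left _ _) (by norm_num)) a
  have hba' : ∀ a, ‖(b a - S.rf m V a) Ω‖ ≤ δ₁ / Q / 2 := by
    intro a
    have h1 : ‖(b a - S.rf m V a) Ω‖ ^ 2 ≤ (δ₁ / Q / 2) ^ 2 := by
      refine (hba a).trans ?_
      have h2 : δ ≤ (δ₁ / Q) ^ 2 / 8 := min_le_right _ _
      calc 2 * δ ≤ 2 * ((δ₁ / Q) ^ 2 / 8) := by linarith
        _ = (δ₁ / Q / 2) ^ 2 := by ring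
    exact (pow_le_pow_iff_left₀ (norm_nonneg _) (by positivity) two_ne_zero).1 h1
  set z : H →L[ℂ] H := ∑ a, (d a / 2) • (1 + b a) with hz
  have hzB : z ∈ B.1 := sum_mem_vn B.1 _ _ fun a _ =>
    smul_mem_vn B.1 _ (add_mem (one_mem _) (hb a))
  have h1n : ‖(1 : H →L[ℂ] H)‖ ≤ 1 := norm_le_one_of_star_mul (by simp)
  have hzn : ‖z‖ ≤ R := by
    refine le_trans ?_ (le_max_right _ _)
    refine norm_sum_le_of_le _ fun a _ => ?_
    rw [norm_smul, norm_div]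
    have h2 : ‖(2 : ℂ)‖ = 2 := by norm_num
    rw [h2]
    have h3 : ‖1 + b a‖ ≤ 2 := (norm_add_le _ _).trans (by linarith [hb1 a])
    calc ‖d a‖ / 2 * ‖1 + b a‖ ≤ ‖d a‖ / 2 * 2 := by
          apply mul_le_mul_of_nonneg_left h3; positivity
      _ = ‖d a‖ := by ring
  have hzu : ‖(z - u) Ω‖ < δ₁ := by
    have e1 : z - u = ∑ a, (d a / 2) • (b a - S.rf m V a) := by
      rw [hz, hd, ← Finset.sum_sub_distrib]
      refine Finset.sum_congr rfl fun a _ => ?_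
      rw [rf]
      have : d a • S.fr m V a = (d a / 2) • ((2 : ℂ) • S.fr m V a) := by
        rw [smul_smul]; congr 1; ring
      rw [this, ← smul_sub]
      congr 1
      abel
    rw [e1, _root_.sum_apply]
    have h2 : ∀ a, ‖((d a / 2) • (b a - S.rf m V a)) Ω‖ ≤ ‖d a‖ * (δ₁ / Q / 2) := by
      intro a
      change ‖(d a / 2) • ((b a - S.rf m V a) Ω)‖ ≤ _
      rw [norm_smul, norm_div]
      have h2 : ‖(2 : ℂ)‖ = 2 := by norm_num
      rw [h2]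
      have h3 : ‖d a‖ / 2 ≤ ‖d a‖ := by linarith [norm_nonneg (d a)]
      exact mul_le_mul h3 (hba' a) (norm_nonneg _) (norm_nonneg _)
    calc ‖∑ a, ((d a / 2) • (b a - S.rf m V a)) Ω‖ ≤ ∑ a, ‖d a‖ * (δ₁ / Q / 2) :=
          norm_sum_le_of_le _ fun a _ => h2 a
      _ = (∑ a, ‖d a‖) * (δ₁ / Q / 2) := by rw [Finset.sum_mul]
      _ ≤ Q * (δ₁ / Q / 2) := by
          apply mul_le_mul_of_nonneg_right _ (by positivity)
          rw [hQ]; linarith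
      _ = δ₁ / 2 := by field_simp
      _ < δ₁ := by linarith
  have hun : IsStarNormal u := isStarNormal_of_mem_Dg hV hu
  have hfin := hcfc z (B.2.1 hzB) u (S.Dg_le_M hu) (isStarNormal_of_mem B hzB) hun hzn
    (hu1.trans (le_max_left _ _)) hzu
  rw [cfc_rr_eq hun hu1] at hfin
  exact ⟨cfc rr z, cfc_mem_vn B.1 hzB rr, norm_cfc_rr_le (fun z => z) z, hfin⟩

instance isClosed_Dg (m : ℕ) (V : H →L[ℂ] H) :
    IsClosed ((S.Dg m V : StarSubalgebra ℂ (H →L[ℂ] H)) : Set (H →L[ℂ] H)) := by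
  let f : Matrix (Fin (2 ^ m)) (Fin (2 ^ m)) ℂ →ₗ[ℂ] (H →L[ℂ] H) :=
    { toFun := fun X => S.ι m X
      map_add' := fun X Y => by rw [map_add]
      map_smul' := fun c X => by rw [map_smul]; rfl }
  have hle : Subalgebra.toSubmodule (S.Dg m V).toSubalgebra ≤ LinearMap.range f := by
    intro x hx
    obtain ⟨X, hX⟩ := S.mem_L.1 (S.Dg_le_L (show x ∈ S.Dg m V from hx))
    exact ⟨X, hX⟩
  have hfd : FiniteDimensional ℂ (Subalgebra.toSubmodule (S.Dg m V).toSubalgebra) :=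
    Submodule.finiteDimensional_of_le hle
  exact Submodule.closed_of_finiteDimensional (Subalgebra.toSubmodule (S.Dg m V).toSubalgebra)

/-- The key lemma: a neighbourhood of a masa contains an open set given by a frame. -/
theorem exists_frame_nhds (S : Sys M Ω) (W : Set (Masa M)) (hW : IsOpen W) {B₁ : Masa M}
    (hB₁ : B₁ ∈ W) {κ : Type*} [Finite κ] (u : κ → (H →L[ℂ] H)) {ε : ℝ} (hε : 0 < ε)
    (hu : ∀ a, ∃ b ∈ B₁.1, ‖b‖ ≤ 1 ∧ ‖(b - u a) Ω‖ < ε) (N : ℕ) :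
    ∃ m ≥ N, ∃ V, S.IsU m V ∧ ∃ δ > 0, Nb M Ω (S.rf m V) δ ⊆ W ∧
      ∀ a, ∃ c ∈ S.Dg m V, ‖(c - u a) Ω‖ < 2 * ε := by
  classical
  have := Fintype.ofFinite κ
  obtain ⟨F, δ₀, hδ₀, hF, hFW⟩ := exists_nhds_finset S.hM B₁ hW hB₁
  choose bb hbb hbb1 hbbu using hu
  set F' : Finset (H →L[ℂ] H) := F ∪ Finset.univ.image bb with hF'
  have hF'B : ∀ x ∈ F', x ∈ B₁.1 ∧ ‖x‖ ≤ 1 := by
    intro x hx
    rcases Finset.mem_union.1 hx with h | h
    · exact hF x h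
    · obtain ⟨a, -, rfl⟩ := Finset.mem_image.1 h
      exact ⟨hbb a, hbb1 a⟩
  set η : ℝ := min δ₀ ε / 8 with hη
  have hη0 : 0 < η := by positivity
  have hη1 : 8 * η ≤ δ₀ := by rw [hη]; have := min_le_left δ₀ ε; linarith
  have hη2 : 8 * η ≤ ε := by rw [hη]; have := min_le_right δ₀ ε; linarith
  obtain ⟨h, hhB, hhsa, hG⟩ := exists_single_generator B₁.1 B₁.2.2.1 F'
    (fun x hx => (hF'B x hx).1) η hη0
  have hhM : h ∈ M := B₁.2.1 hhB
  have hhn : IsStarNormal h := hhsa.isStarNormal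
  choose! G hG using hG
  -- the truncated functions
  let g : (H →L[ℂ] H) → ℂ → ℂ := fun x z => rr ((G x).eval z)
  have hgc : ∀ x, Continuous (g x) := fun x => continuous_rr.comp (Polynomial.continuous _)
  have hgh : ∀ x ∈ F', ‖cfc (g x) h - x‖ ≤ 2 * η := by
    intro x hx
    have e1 : cfc (G x).eval h = Polynomial.aeval h (G x) := cfc_polynomial (G x) h
    have hnorm : ‖Polynomial.aeval h (G x)‖ ≤ 1 + η := by
      have : Polynomial.aeval h (G x) = (Polynomial.aeval h (G x) - x) + x := by abel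
      rw [this]
      exact (norm_add_le _ _).trans (by linarith [hG x hx, (hF'B x hx).2])
    have e2 : ‖cfc (g x) h - Polynomial.aeval h (G x)‖ ≤ η := by
      rw [← e1, ← cfc_sub (g x) (G x).eval h (hgc x).continuousOn
        (Polynomial.continuous _).continuousOn]
      refine norm_cfc_le hη0.le fun z hz => ?_
      refine norm_rr_sub_le hη0.le ?_
      have hz' : (G x).eval z ∈ spectrum ℂ (Polynomial.aeval h (G x)) := by
        rw [← e1, cfc_map_spectrum (R := ℂ) (G x).eval h hhn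
          (Polynomial.continuous _).continuousOn]
        exact ⟨z, hz, rfl⟩
      exact (norm_le_of_mem_spectrum hz').trans hnorm
    have e3 : cfc (g x) h - x = (cfc (g x) h - Polynomial.aeval h (G x)) +
        (Polynomial.aeval h (G x) - x) := by abel
    rw [e3]
    exact (norm_add_le _ _).trans (by linarith [hG x hx])
  -- continuity constants
  have hδex : ∀ x, ∃ δ > 0, ∀ a ∈ M, ∀ b ∈ M, IsStarNormal a → IsStarNormal b → ‖a‖ ≤ ‖h‖ →
      ‖b‖ ≤ ‖h‖ → ‖(a - b) Ω‖ < δ → ‖(cfc (g x) a - cfc (g x) b) Ω‖ < η := fun x =>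
    cfc_two_norm_continuous S.hM (g x) (hgc x) ‖h‖ η hη0
  choose δf hδf0 hδf using hδex
  obtain ⟨δ₁, hδ₁, hδ₁le⟩ : ∃ δ₁ > 0, ∀ x ∈ F', δ₁ ≤ δf x := by
    rcases F'.eq_empty_or_nonempty with h0 | h0
    · exact ⟨1, one_pos, fun x hx => by rw [h0] at hx; simp at hx⟩
    · refine ⟨F'.inf' h0 δf, ?_, fun x hx => Finset.inf'_le _ hx⟩
      exact (Finset.lt_inf'_iff h0).2 fun x _ => hδf0 x
  obtain ⟨m₀, hm₀⟩ := S.exists_approx hhM hδ₁
  set m := max N m₀ with hm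
  obtain ⟨y, hy, hyn, hyh, hysa⟩ := hm₀ m (le_max_right _ _)
  have hysa := hysa hhsa
  obtain ⟨V, hV, hyV⟩ := exists_frame S (J := Unit) (fun _ => y) (fun _ => hy)
    (fun _ => hysa.star_eq) (fun _ _ => rfl)
  have hyV : y ∈ S.Dg m V := hyV ()
  have hcx : ∀ x, cfc (g x) y ∈ S.Dg m V := fun x =>
    cfc_mem (s := S.Dg m V) (g x) hyV
  have hcx1 : ∀ x, ‖cfc (g x) y‖ ≤ 1 := fun x => norm_cfc_rr_le (G x).eval y
  have hcxx : ∀ x ∈ F', ‖(cfc (g x) y - x) Ω‖ < 3 * η := by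
    intro x hx
    have h1 := hδf x y (S.L_le_M hy) h hhM hysa.isStarNormal hhn hyn le_rfl
      (hyh.trans_le (hδ₁le x hx))
    have h2 : ‖(cfc (g x) h - x) Ω‖ ≤ 2 * η := (S.hM.norm_apply_le _).trans (hgh x hx)
    have e : (cfc (g x) y - x) Ω = (cfc (g x) y - cfc (g x) h) Ω + (cfc (g x) h - x) Ω := by
      simp only [_root_.sub_apply]; abel
    rw [e]
    exact (norm_add_le _ _).trans_lt (by linarith)
  choose δx hδx0 hδx using fun x => exists_delta hV (hcx x) (hcx1 x) hη0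
  obtain ⟨δ₂, hδ₂, hδ₂le⟩ : ∃ δ₂ > 0, ∀ x ∈ F', δ₂ ≤ δx x := by
    rcases F'.eq_empty_or_nonempty with h0 | h0
    · exact ⟨1, one_pos, fun x hx => by rw [h0] at hx; simp at hx⟩
    · refine ⟨F'.inf' h0 δx, ?_, fun x hx => Finset.inf'_le _ hx⟩
      exact (Finset.lt_inf'_iff h0).2 fun x _ => hδx0 x
  refine ⟨m, le_max_left _ _, V, hV, δ₂, hδ₂, ?_, ?_⟩
  · intro B hB
    refine hFW B fun x hx => ?_
    have hxF' : x ∈ F' := Finset.mem_union_left _ hx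
    have hB' : B ∈ Nb M Ω (S.rf m V) (δx x) := by
      intro a
      have h1 := hB a
      have h2 := hδ₂le x hxF'
      linarith
    obtain ⟨b, hb, hb1, hbc⟩ := hδx x B hB'
    refine ⟨b, hb, hb1, ?_⟩
    have e : (b - x) Ω = (b - cfc (g x) y) Ω + (cfc (g x) y - x) Ω := by
      simp only [_root_.sub_apply]; abel
    rw [e]
    exact (norm_add_le _ _).trans_lt (by linarith [hcxx x hxF'])
  · intro a
    refine ⟨cfc (g (bb a)) y, hcx _, ?_⟩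
    have hbF' : bb a ∈ F' := Finset.mem_union_right _ (Finset.mem_image.2 ⟨a, Finset.mem_univ _, rfl⟩)
    have e : (cfc (g (bb a)) y - u a) Ω = (cfc (g (bb a)) y - bb a) Ω + (bb a - u a) Ω := by
      simp only [_root_.sub_apply]; abel
    rw [e]
    exact (norm_add_le _ _).trans_lt (by linarith [hcxx _ hbF', hbbu a])

end Sys

end Pool.Agent.Hhelper40.RMasa
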